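import Pool.Agent.H38R2.CG.N5a
import Pool.Agent.H38R2.CG.N3

/-!
# Inverting primes, part A: separated ideals with classes in a subgroup
-/

set_option autoImplicit false

namespace Pool.Agent.U787.SP

open Finset Filter NumberField Pool.Agent.H38R2.CG
open scoped Classical

open N5ah in
/-- Ideals with classes in a subgroup which are far from each other have no common multiples in the
window. -/
theorem sep_count (K : Type) [Field K] [NumberField K] (D : ℕ) (e : Emb K D)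
    (ι : Type) [Fintype ι] (A : ι → nonZeroDivisors (Ideal (𝓞 K)))
    (H : Subgroup (ClassGroup (𝓞 K))) (hH : ∀ i, ClassGroup.mk0 (A i) ∈ H) (T : ℝ)
    (hsep : ∀ i j, ∀ x ∈ XAB e (A i : Ideal (𝓞 K)) (A j : Ideal (𝓞 K)),
      |Real.log (e.σ x / e.τ x)| < T → i = j ∧ x = 1) (N : ℕ)
    (hfin : ∀ i, (latSet e (A i : Ideal (𝓞 K)) 0 T N).Finite) :
    ∑ i, ((latSet e (A i : Ideal (𝓞 K)) 0 T N).ncard : ℝ) ≤
      (Nat.card {I : nonZeroDivisors (Ideal (𝓞 K)) //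
        Ideal.absNorm (I : Ideal (𝓞 K)) ≤ N ∧ ClassGroup.mk0 I ∈ H} : ℝ) := by
  have hA0 : ∀ i, (A i : Ideal (𝓞 K)) ≠ ⊥ := fun i => nonZeroDivisors.coe_ne_zero (A i)
  have hTfin : Finite {I : nonZeroDivisors (Ideal (𝓞 K)) //
      Ideal.absNorm (I : Ideal (𝓞 K)) ≤ N ∧ ClassGroup.mk0 I ∈ H} :=
    (Ideal.finite_setOfPred_absNorm_le₀ (S := 𝓞 K) N).subset fun I hI => hI.1
  have hex : ∀ p : (Σ i, latSet e (A i : Ideal (𝓞 K)) 0 T N),
      ∃ J : {I : nonZeroDivisors (Ideal (𝓞 K)) //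
        Ideal.absNorm (I : Ideal (𝓞 K)) ≤ N ∧ ClassGroup.mk0 I ∈ H},
        (p.2 : K) ∈ XAB e (A p.1 : Ideal (𝓞 K)) (J.1 : Ideal (𝓞 K)) := by
    rintro ⟨i, x, h1, h2, h3, h4, h5, h6⟩
    obtain ⟨J, hJ, hxJ⟩ := exists_XAB e (hA0 i) h1 h2 h5
    have hJ' : J ∈ nonZeroDivisors (Ideal (𝓞 K)) := mem_nonZeroDivisors_of_ne_zero hJ
    refine ⟨⟨⟨J, hJ'⟩, ?_, ?_⟩, hxJ⟩
    · have h7 := norm_XAB e hxJ
      have h8 : (Ideal.absNorm J : ℝ) ≤ (N : ℝ) := by rw [h7]; exact h6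
      exact_mod_cast h8
    · have h9 : ClassGroup.mk0 (⟨J, hJ'⟩ : nonZeroDivisors (Ideal (𝓞 K))) =
            ClassGroup.mk0 (A i) := class_XAB e (J := ⟨J, hJ'⟩) hxJ
      rw [h9]
      exact hH i
  choose f hf using hex
  have hinj : Function.Injective f := by
    rintro ⟨i, x, hx⟩ ⟨j, y, hy⟩ hxy
    have h1 := hf ⟨i, x, hx⟩
    have h2 := hf ⟨j, y, hy⟩
    rw [hxy] at h1
    have h3 := XAB_div e h1 h2
    have h4 := log_div e hx.1 hx.2.1 hy.1 hy.2.1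
    have h5 : |Real.log (e.σ (x / y) / e.τ (x / y))| < T := by
      rw [h4, abs_lt]
      constructor <;> linarith [hx.2.2.1, hx.2.2.2.1, hy.2.2.1, hy.2.2.2.1]
    obtain ⟨h6, h7⟩ := hsep i j _ h3 h5
    subst h6
    have hy0 := ne_zero_of_pos e hy.1
    have h8 : x = y := (div_eq_one_iff_eq hy0).1 h7
    subst h8
    rfl
  have hc := Nat.card_le_card_of_injective f hinj
  have hfi : ∀ i, Finite (latSet e (A i : Ideal (𝓞 K)) 0 T N) := fun i => (hfin i).to_subtype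
  rw [Nat.card_sigma] at hc
  have h2 : ∑ i, ((latSet e (A i : Ideal (𝓞 K)) 0 T N).ncard : ℝ) =
      ((∑ i, Nat.card (latSet e (A i : Ideal (𝓞 K)) 0 T N) : ℕ) : ℝ) := by
    rw [Nat.cast_sum]
    exact Finset.sum_congr rfl fun i _ => by rw [Nat.card_coe_set_eq]
  rw [h2]
  exact_mod_cast hc

/-- The index of a subgroup of the class group which contains the classes of many ideals that are
far from each other. -/
theorem sep_bound (hN4 : P_N4) (hN3 : P_N3) (K : Type) [Field K] [NumberField K] (D : ℕ)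
    (hD : IsFund D) (hK : Module.finrank ℚ K = 2) (hdisc : NumberField.discr K = (D : ℤ))
    (e : Emb K D) (ι : Type) [Fintype ι] (A : ι → nonZeroDivisors (Ideal (𝓞 K)))
    (H : Subgroup (ClassGroup (𝓞 K))) (hH : ∀ i, ClassGroup.mk0 (A i) ∈ H) (T : ℝ) (hT : 0 < T)
    (hsep : ∀ i j, ∀ x ∈ XAB e (A i : Ideal (𝓞 K)) (A j : Ideal (𝓞 K)),
      |Real.log (e.σ x / e.τ x)| < T → i = j ∧ x = 1) :
    (H.index : ℝ) * (T * Fintype.card ι) ≤ 2 * √(D : ℝ) * Lone D := by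
  have hA0 : ∀ i, (A i : Ideal (𝓞 K)) ≠ ⊥ := fun i => nonZeroDivisors.coe_ne_zero (A i)
  have hDr : (0 : ℝ) < D := by
    have := hD.1
    exact_mod_cast (by omega : 0 < D)
  have hsq : 0 < √(D : ℝ) := Real.sqrt_pos.mpr hDr
  have hl1 : Tendsto (fun N : ℕ => ∑ i,
      (((latSet e (A i : Ideal (𝓞 K)) 0 T N).ncard : ℝ) / N)) atTop
      (nhds (∑ _i : ι, ((T - 0) / (2 * √(D : ℝ))))) :=
    tendsto_finsetSum _ fun i _ => (hN4 K D hD hK hdisc e (A i) (hA0 i) 0 T hT).2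
  have hl2 := N3h.lim_H K H
  have hle := le_of_tendsto_of_tendsto' hl1 hl2 (by
    intro N
    rw [← Finset.sum_div]
    gcongr
    exact sep_count K D e ι A H hH T hsep N
      (fun i => (hN4 K D hD hK hdisc e (A i) (hA0 i) 0 T hT).1 N))
  rw [Finset.sum_const, Finset.card_univ, nsmul_eq_mul, sub_zero] at hle
  -- the residue
  obtain ⟨-, hall, -⟩ := hN3 K D hD hK hdisc
  have htop := N3h.lim_H K ⊤
  have htop' : Tendsto (fun N : ℕ => (Nat.card {I : nonZeroDivisors (Ideal (𝓞 K)) //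
      Ideal.absNorm (I : Ideal (𝓞 K)) ≤ N} : ℝ) / N) atTop
      (nhds ((Nat.card (⊤ : Subgroup (ClassGroup (𝓞 K))) : ℝ) * N3h.kap K)) := by
    refine htop.congr ?_
    intro N
    simp only [Subgroup.mem_top, and_true]
  have heq : Lone D = (Nat.card (⊤ : Subgroup (ClassGroup (𝓞 K))) : ℝ) * N3h.kap K :=
    tendsto_nhds_unique hall htop'
  rw [Subgroup.card_top, ← Subgroup.card_mul_index H] at heq
  push_cast at heq
  have h1 : (Fintype.card ι : ℝ) * T ≤ 2 * √(D : ℝ) * ((Nat.card H : ℝ) * N3h.kap K) := by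
    have h2 : (Fintype.card ι : ℝ) * T = 2 * √(D : ℝ) * ((Fintype.card ι : ℝ) *
        (T / (2 * √(D : ℝ)))) := by
      field_simp
    rw [h2]
    exact mul_le_mul_of_nonneg_left hle (by positivity)
  have h3 : (0 : ℝ) ≤ H.index := Nat.cast_nonneg _
  calc (H.index : ℝ) * (T * Fintype.card ι) = (H.index : ℝ) * ((Fintype.card ι : ℝ) * T) := by ring
    _ ≤ (H.index : ℝ) * (2 * √(D : ℝ) * ((Nat.card H : ℝ) * N3h.kap K)) :=
        mul_le_mul_of_nonneg_left h1 h3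
    _ = 2 * √(D : ℝ) * Lone D := by rw [heq]; ring

end Pool.Agent.U787.SP
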