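import Mathlib

/-!
# Inverting primes, part C: the number of the smooth numbers
-/

set_option autoImplicit false

namespace Pool.Agent.U787.SP



/-- All prime factors of `N` are in `S`. -/
def Sm (S : Finset ℕ) (N : ℤ) : Prop := ∀ q : ℕ, q.Prime → (q : ℤ) ∣ N → q ∈ S

open scoped Classical in
/-- the number of smooth numbers -/
theorem card_smooth (S : Finset ℕ) (b : ℕ) :
    ((Finset.Icc (-(b : ℤ)) b).filter (fun N => ¬ IsSquare N ∧ Sm S N)).card ≤
      2 * (Nat.log 2 b + 1) ^ S.card := by
  have h1 : ((Finset.univ : Finset Bool) ×ˢ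
      Fintype.piFinset (fun _ : S => Finset.range (Nat.log 2 b + 1))).card =
      2 * (Nat.log 2 b + 1) ^ S.card := by
    rw [Finset.card_product, Fintype.card_piFinset]
    simp
  rw [← h1]
  refine Finset.card_le_card_of_injOn
    (fun N => (decide (0 ≤ N), fun q : S => N.natAbs.factorization q)) ?_ ?_
  · intro N hN
    rw [Finset.mem_coe, Finset.mem_filter, Finset.mem_Icc] at hN
    rw [Finset.mem_coe, Finset.mem_product]
    refine ⟨Finset.mem_univ _, ?_⟩
    rw [Fintype.mem_piFinset]
    intro q
    rw [Finset.mem_range]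
    have hN0 : N.natAbs ≠ 0 := by
      intro h0
      apply hN.2.1
      rw [Int.natAbs_eq_zero.1 h0]
      exact ⟨0, by simp⟩
    have hNb : N.natAbs ≤ b := by omega
    show N.natAbs.factorization q < Nat.log 2 b + 1
    by_cases hq : (q : ℕ).Prime
    · have h2 : 2 ^ (N.natAbs.factorization q) ≤ N.natAbs := by
        calc 2 ^ (N.natAbs.factorization q) ≤ (q : ℕ) ^ (N.natAbs.factorization q) :=
              Nat.pow_le_pow_left hq.two_le _
          _ ≤ N.natAbs := Nat.le_of_dvd (Nat.pos_of_ne_zero hN0) (Nat.ordProj_dvd _ _)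
      have h3 := Nat.le_log_of_pow_le (by norm_num) (h2.trans hNb)
      omega
    · rw [Nat.factorization_eq_zero_of_not_prime _ hq]
      omega
  · intro N hN N' hN' heq
    rw [Finset.mem_coe, Finset.mem_filter, Finset.mem_Icc] at hN hN'
    simp only [Prod.mk.injEq] at heq
    obtain ⟨hs, hf⟩ := heq
    have hz : ∀ M : ℤ, ¬ IsSquare M → M.natAbs ≠ 0 := by
      intro M hM h0
      apply hM
      rw [Int.natAbs_eq_zero.1 h0]
      exact ⟨0, by simp⟩
    have h0 := hz N hN.2.1
    have h0' := hz N' hN'.2.1
    have hab : N.natAbs = N'.natAbs := by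
      apply Nat.eq_of_factorization_eq h0 h0'
      intro q
      by_cases hq : q ∈ S
      · exact congrFun hf ⟨q, hq⟩
      · by_cases hqp : q.Prime
        · have h3 : ¬ q ∣ N.natAbs := fun h => hq (hN.2.2 q hqp (by
            rw [← Int.dvd_natAbs]
            exact_mod_cast h))
          have h4 : ¬ q ∣ N'.natAbs := fun h => hq (hN'.2.2 q hqp (by
            rw [← Int.dvd_natAbs]
            exact_mod_cast h))
          rw [Nat.factorization_eq_zero_of_not_dvd h3, Nat.factorization_eq_zero_of_not_dvd h4]
        · rw [Nat.factorization_eq_zero_of_not_prime _ hqp,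
            Nat.factorization_eq_zero_of_not_prime _ hqp]
    have hs' : (0 ≤ N) ↔ (0 ≤ N') := by
      have := congrArg (fun b : Bool => (b = true)) hs
      simpa using this
    rcases le_or_gt 0 N with h | h
    · have := hs'.1 h
      omega
    · have : ¬ (0 ≤ N') := fun h' => absurd (hs'.2 h') (not_le.2 h)
      omega

end Pool.Agent.U787.SP
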