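import Pool.Agent.U787.SP.A

/-!
# Inverting primes, part E: the products of prime ideals above the given primes
-/

set_option autoImplicit false

namespace Pool.Agent.U787.SP

open Finset Filter NumberField Pool.Agent.H38R2.CG
open scoped Classical

variable {K : Type} [Field K] [NumberField K]

/-- the product of the powers of the ideals `P ℓ`, of norm `n` -/
noncomputable def An (P : ℕ → nonZeroDivisors (Ideal (𝓞 K))) (n : ℕ) :
    nonZeroDivisors (Ideal (𝓞 K)) :=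
  ∏ l ∈ n.primeFactors, P l ^ (n.factorization l)

/-- the numbers composed of the primes of `S` -/
def Comp (S : Finset ℕ) (n : ℕ) : Prop := 1 ≤ n ∧ ∀ q : ℕ, q.Prime → q ∣ n → q ∈ S

theorem absNorm_An {P : ℕ → nonZeroDivisors (Ideal (𝓞 K))} {S : Finset ℕ}
    (hP : ∀ l ∈ S, Ideal.absNorm (P l : Ideal (𝓞 K)) = l) {n : ℕ} (hn : Comp S n) :
    Ideal.absNorm (An P n : Ideal (𝓞 K)) = n := by
  have h1 : (An P n : Ideal (𝓞 K)) = ∏ l ∈ n.primeFactors, (P l : Ideal (𝓞 K)) ^ (n.factorization l) := by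
    unfold An
    push_cast
    rfl
  rw [h1, map_prod]
  have h2 : ∏ l ∈ n.primeFactors, Ideal.absNorm ((P l : Ideal (𝓞 K)) ^ (n.factorization l)) =
      ∏ l ∈ n.primeFactors, l ^ (n.factorization l) := by
    refine Finset.prod_congr rfl fun l hl => ?_
    rw [map_pow, hP l (hn.2 l (Nat.prime_of_mem_primeFactors hl) (Nat.dvd_of_mem_primeFactors hl))]
  rw [h2]
  exact Nat.prod_factorization_pow_eq_self (by have := hn.1; omega)

/-- a prime ideal -/
theorem prime_of_norm {I : Ideal (𝓞 K)} {l : ℕ} (hl : l.Prime) (h : Ideal.absNorm I = l) :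
    Prime I := by
  have h0 : I ≠ ⊥ := by
    rintro rfl
    rw [Ideal.absNorm_bot] at h
    exact hl.ne_zero h.symm
  have h1 : Irreducible (Ideal.absNorm I) := by rw [h]; exact hl
  exact Ideal.prime_of_isPrime h0 (Ideal.isPrime_of_irreducible_absNorm h1)

/-- the other prime ideal above `ℓ` does not divide the product -/
theorem not_dvd_An {P : ℕ → nonZeroDivisors (Ideal (𝓞 K))} {S : Finset ℕ}
    (hS : ∀ l ∈ S, l.Prime)
    (hP : ∀ l ∈ S, Ideal.absNorm (P l : Ideal (𝓞 K)) = l) {n : ℕ} (hn : Comp S n) {l : ℕ}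
    (hl : l ∈ S) {P' : Ideal (𝓞 K)} (hP' : Ideal.absNorm P' = l) (hne : P' ≠ P l) :
    ¬ P' ∣ (An P n : Ideal (𝓞 K)) := by
  intro hd
  have h1 : (An P n : Ideal (𝓞 K)) = ∏ l ∈ n.primeFactors, (P l : Ideal (𝓞 K)) ^ (n.factorization l) := by
    unfold An
    push_cast
    rfl
  rw [h1] at hd
  have hpr := prime_of_norm (hS l hl) hP'
  obtain ⟨q, hq, hqd⟩ := hpr.exists_mem_finset_dvd hd
  have h2 := hpr.dvd_of_dvd_pow hqd
  have hqS : q ∈ S := hn.2 q (Nat.prime_of_mem_primeFactors hq) (Nat.dvd_of_mem_primeFactors hq)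
  obtain ⟨J, hJ⟩ := h2
  have h3 := congrArg Ideal.absNorm hJ
  rw [map_mul, hP', hP q hqS] at h3
  have h4 : l ∣ q := ⟨_, h3⟩
  have h5 : l = q := (Nat.prime_dvd_prime_iff_eq (hS l hl) (hS q hqS)).1 h4
  subst h5
  have h6 : Ideal.absNorm J = 1 := by
    have := (hS l hl).pos
    have h7 : l * 1 = l * Ideal.absNorm J := by rw [mul_one]; exact h3
    exact (Nat.eq_of_mul_eq_mul_left this h7).symm
  rw [Ideal.absNorm_eq_one_iff] at h6
  rw [h6, Ideal.mul_top] at hJ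
  exact hne hJ.symm

theorem dvd_nat_iff {l m : ℕ} (hl : l.Prime) {P' : Ideal (𝓞 K)} (hP' : Ideal.absNorm P' = l) :
    P' ∣ Ideal.span {((m : ℕ) : 𝓞 K)} ↔ l ∣ m := by
  have hmem : ((l : ℕ) : 𝓞 K) ∈ P' := by
    rw [← hP']
    exact Ideal.absNorm_mem P'
  rw [Ideal.dvd_span_singleton]
  constructor
  · intro h
    by_contra hc
    have h1 : IsCoprime (l : ℤ) (m : ℤ) := Nat.isCoprime_iff_coprime.2 ((Nat.Prime.coprime_iff_not_dvd hl).2 hc)
    obtain ⟨a, b, hab⟩ := h1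
    have h2 : (1 : 𝓞 K) ∈ P' := by
      have h3 : (1 : 𝓞 K) = (a : 𝓞 K) * ((l : ℕ) : 𝓞 K) + (b : 𝓞 K) * ((m : ℕ) : 𝓞 K) := by
        have := congrArg (fun z : ℤ => (z : 𝓞 K)) hab
        push_cast at this
        exact this.symm
      rw [h3]
      exact P'.add_mem (P'.mul_mem_left _ hmem) (P'.mul_mem_left _ h)
    have h4 : P' = ⊤ := (Ideal.eq_top_iff_one _).2 h2
    rw [h4, Ideal.absNorm_top] at hP'
    exact hl.one_lt.ne hP'
  · rintro ⟨k, rfl⟩
    push_cast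
    exact P'.mul_mem_right _ hmem

/-- a rational multiplier -/
theorem rat_case {D : ℕ} (e : Emb K D) {P : ℕ → nonZeroDivisors (Ideal (𝓞 K))} {S : Finset ℕ}
    (hS : ∀ l ∈ S, l.Prime) (hP : ∀ l ∈ S, Ideal.absNorm (P l : Ideal (𝓞 K)) = l)
    (hP' : ∀ l ∈ S, ∃ P' : Ideal (𝓞 K), Ideal.absNorm P' = l ∧ P' ≠ P l)
    {a b : ℕ} (ha : Comp S a) (hb : Comp S b) {x : K}
    (hx : x ∈ XAB e (An P a : Ideal (𝓞 K)) (An P b : Ideal (𝓞 K))) {m n : ℕ} (hm : 0 < m)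
    (hn : 0 < n) (hmn : x * n = m) : a = b ∧ x = 1 := by
  -- lowest terms
  obtain ⟨g, m', n', hg, hco, hm', hn'⟩ := Nat.exists_coprime' (Nat.gcd_pos_of_pos_left n hm)
  have hm'0 : 0 < m' := by
    rcases Nat.eq_zero_or_pos m' with h | h
    · rw [h, zero_mul] at hm'; omega
    · exact h
  have hn'0 : 0 < n' := by
    rcases Nat.eq_zero_or_pos n' with h | h
    · rw [h, zero_mul] at hn'; omega
    · exact h
  have hgK : ((g : ℕ) : K) ≠ 0 := by exact_mod_cast hg.ne'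
  have hxmn : x * n' = m' := by
    rw [hm', hn'] at hmn
    push_cast at hmn
    apply mul_right_cancel₀ hgK
    rw [← hmn]
    ring
  -- the ideals
  have hid : Ideal.span {((m' : ℕ) : 𝓞 K)} * (An P a : Ideal (𝓞 K)) =
      Ideal.span {((n' : ℕ) : 𝓞 K)} * (An P b : Ideal (𝓞 K)) := by
    apply FractionalIdeal.coeIdeal_injective (K := K)
    beta_reduce
    rw [FractionalIdeal.coeIdeal_mul, FractionalIdeal.coeIdeal_mul,
      FractionalIdeal.coeIdeal_span_singleton, FractionalIdeal.coeIdeal_span_singleton, ← hx.2.2,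
      ← mul_assoc, FractionalIdeal.spanSingleton_mul_spanSingleton]
    congr 2
    simp only [map_natCast]
    rw [← hxmn]
    ring
  -- the norms
  have hnorm : b * n' ^ 2 = m' ^ 2 * a := by
    have h1 := N5ah.norm_XAB e hx
    rw [absNorm_An hP ha, absNorm_An hP hb] at h1
    have h2 : e.σ x * n' = m' := by
      have := congrArg e.σ hxmn
      simpa using this
    have h3 : e.τ x * n' = m' := by
      have := congrArg e.τ hxmn
      simpa using this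
    have h4 : (b : ℝ) * n' ^ 2 = (m' : ℝ) ^ 2 * a := by
      rw [h1]
      calc e.σ x * e.τ x * (a : ℝ) * (n' : ℝ) ^ 2 = (e.σ x * n') * (e.τ x * n') * a := by ring
        _ = _ := by rw [h2, h3]; ring
    exact_mod_cast h4
  have hcopn : ∀ l ∈ S, ¬ l ∣ n' := by
    intro l hl hd
    obtain ⟨P', h1, h2⟩ := hP' l hl
    have hpr := prime_of_norm (hS l hl) h1
    have h3 : P' ∣ Ideal.span {((n' : ℕ) : 𝓞 K)} := (dvd_nat_iff (hS l hl) h1).2 hd
    have h4 : P' ∣ Ideal.span {((m' : ℕ) : 𝓞 K)} * (An P a : Ideal (𝓞 K)) := by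
      rw [hid]
      exact h3.mul_right _
    rcases hpr.dvd_or_dvd h4 with h5 | h5
    · have h6 := (dvd_nat_iff (hS l hl) h1).1 h5
      have h7 := Nat.dvd_gcd h6 hd
      rw [hco] at h7
      exact (hS l hl).one_lt.ne' (Nat.dvd_one.1 h7)
    · exact not_dvd_An hS hP ha hl h1 h2 h5
  have hcopm : ∀ l ∈ S, ¬ l ∣ m' := by
    intro l hl hd
    obtain ⟨P', h1, h2⟩ := hP' l hl
    have hpr := prime_of_norm (hS l hl) h1
    have h3 : P' ∣ Ideal.span {((m' : ℕ) : 𝓞 K)} := (dvd_nat_iff (hS l hl) h1).2 hd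
    have h4 : P' ∣ Ideal.span {((n' : ℕ) : 𝓞 K)} * (An P b : Ideal (𝓞 K)) := by
      rw [← hid]
      exact h3.mul_right _
    rcases hpr.dvd_or_dvd h4 with h5 | h5
    · have h6 := (dvd_nat_iff (hS l hl) h1).1 h5
      have h7 := Nat.dvd_gcd hd h6
      rw [hco] at h7
      exact (hS l hl).one_lt.ne' (Nat.dvd_one.1 h7)
    · exact not_dvd_An hS hP hb hl h1 h2 h5
  have hca : Nat.Coprime a (n' ^ 2) := by
    apply Nat.Coprime.pow_right
    rw [Nat.coprime_iff_gcd_eq_one]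
    by_contra hc
    obtain ⟨q, hq, hqd⟩ := Nat.exists_prime_and_dvd hc
    exact hcopn q (ha.2 q hq (hqd.trans (Nat.gcd_dvd_left _ _))) (hqd.trans (Nat.gcd_dvd_right _ _))
  have hcb : Nat.Coprime b (m' ^ 2) := by
    apply Nat.Coprime.pow_right
    rw [Nat.coprime_iff_gcd_eq_one]
    by_contra hc
    obtain ⟨q, hq, hqd⟩ := Nat.exists_prime_and_dvd hc
    exact hcopm q (hb.2 q hq (hqd.trans (Nat.gcd_dvd_left _ _))) (hqd.trans (Nat.gcd_dvd_right _ _))
  have hab : a ∣ b := hca.dvd_of_dvd_mul_right (by rw [hnorm]; exact dvd_mul_left _ _)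
  have hba : b ∣ a := hcb.dvd_of_dvd_mul_left (by rw [← hnorm]; exact dvd_mul_right _ _)
  have hEq : a = b := Nat.dvd_antisymm hab hba
  refine ⟨hEq, ?_⟩
  subst hEq
  have ha0 : 0 < a := ha.1
  have h1 : n' ^ 2 = m' ^ 2 := by
    apply Nat.eq_of_mul_eq_mul_left ha0
    rw [hnorm]
    ring
  have h2 : n' = m' := Nat.pow_left_injective (n := 2) (by norm_num) h1
  rw [h2] at hxmn
  have h3 : ((m' : ℕ) : K) ≠ 0 := by exact_mod_cast hm'0.ne'
  exact mul_right_cancel₀ h3 (by rw [hxmn, one_mul])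

/-- The algebraic integers of positive norm `n ≤ B`, composed of primes of `S`, with positive
conjugates at most `U` are in `ℤ`. -/
def Rig {D : ℕ} (e : Emb K D) (S : Finset ℕ) (B U : ℝ) : Prop :=
  ∀ (z : 𝓞 K) (n : ℕ), e.σ z * e.τ z = n → Comp S n → (n : ℝ) ≤ B → 0 < e.σ z → 0 < e.τ z →
    e.σ z ≤ U → e.τ z ≤ U → ∃ k : ℤ, z = k

/-- separation -/
theorem sep {D : ℕ} (e : Emb K D) {P : ℕ → nonZeroDivisors (Ideal (𝓞 K))} {S : Finset ℕ}
    (hS : ∀ l ∈ S, l.Prime) (hP : ∀ l ∈ S, Ideal.absNorm (P l : Ideal (𝓞 K)) = l)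
    (hP' : ∀ l ∈ S, ∃ P' : Ideal (𝓞 K), Ideal.absNorm P' = l ∧ P' ≠ P l)
    {B U T : ℝ} (hR : Rig e S B U) (hU : √B * Real.exp (T / 2) ≤ U)
    {a b : ℕ} (ha : Comp S a) (hb : Comp S b) (haB : (a : ℝ) * b ≤ B) {x : K}
    (hx : x ∈ XAB e (An P a : Ideal (𝓞 K)) (An P b : Ideal (𝓞 K)))
    (hT : |Real.log (e.σ x / e.τ x)| < T) : a = b ∧ x = 1 := by
  have ha0 : (0 : ℝ) < a := by exact_mod_cast ha.1
  have hb0 : (0 : ℝ) < b := by exact_mod_cast hb.1
  -- the integer `x a`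
  obtain ⟨z, hz⟩ : ∃ z : 𝓞 K, (z : K) = x * a := by
    have h1 : ((a : ℕ) : 𝓞 K) ∈ (An P a : Ideal (𝓞 K)) := by
      have := Ideal.absNorm_mem (An P a : Ideal (𝓞 K))
      rwa [absNorm_An hP ha] at this
    have h2 : x * algebraMap (𝓞 K) K ((a : ℕ) : 𝓞 K) ∈
        (FractionalIdeal.spanSingleton (nonZeroDivisors (𝓞 K)) x *
        ((An P a : Ideal (𝓞 K)) : FractionalIdeal (nonZeroDivisors (𝓞 K)) K)) :=
      FractionalIdeal.mul_mem_mul (FractionalIdeal.mem_spanSingleton_self _ x)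
        (FractionalIdeal.mem_coeIdeal_of_mem _ h1)
    rw [hx.2.2] at h2
    obtain ⟨z, -, hz⟩ := (FractionalIdeal.mem_coeIdeal _).1 h2
    refine ⟨z, ?_⟩
    rw [map_natCast] at hz
    exact hz
  have hσ : e.σ z = e.σ x * a := by rw [hz]; simp
  have hτ : e.τ z = e.τ x * a := by rw [hz]; simp
  have hσ0 : 0 < e.σ z := by rw [hσ]; exact mul_pos hx.1 ha0
  have hτ0 : 0 < e.τ z := by rw [hτ]; exact mul_pos hx.2.1 ha0
  have hn : e.σ z * e.τ z = ((a * b : ℕ) : ℝ) := by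
    have h1 := N5ah.norm_XAB e hx
    rw [absNorm_An hP ha, absNorm_An hP hb] at h1
    rw [hσ, hτ]
    push_cast
    rw [h1]
    ring
  have hnB : ((a * b : ℕ) : ℝ) ≤ B := by push_cast; exact haB
  have hB0 : 0 ≤ B := le_trans (by positivity) haB
  have hrat : e.σ z / e.τ z = e.σ x / e.τ x := by
    rw [hσ, hτ]
    field_simp
  have hl : |Real.log (e.σ z / e.τ z)| < T := by rw [hrat]; exact hT
  rw [abs_lt] at hl
  have hq0 : 0 < e.σ z / e.τ z := div_pos hσ0 hτ0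
  have hs1 : e.σ z ≤ U := by
    refine le_trans ?_ hU
    apply abs_le_of_sq_le_sq _ (by positivity) |>.trans' (le_abs_self _)
    rw [mul_pow, Real.sq_sqrt hB0, ← Real.exp_nat_mul]
    have h1 : e.σ z ^ 2 = (e.σ z * e.τ z) * (e.σ z / e.τ z) := by
      field_simp
    rw [h1, hn]
    have h2 : e.σ z / e.τ z ≤ Real.exp (((2 : ℕ) : ℝ) * (T / 2)) := by
      rw [← Real.log_le_iff_le_exp hq0]
      push_cast
      linarith [hl.2]
    exact mul_le_mul hnB h2 hq0.le hB0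
  have hs2 : e.τ z ≤ U := by
    refine le_trans ?_ hU
    apply abs_le_of_sq_le_sq _ (by positivity) |>.trans' (le_abs_self _)
    rw [mul_pow, Real.sq_sqrt hB0, ← Real.exp_nat_mul]
    have h1 : e.τ z ^ 2 = (e.σ z * e.τ z) * (e.σ z / e.τ z)⁻¹ := by
      field_simp
    rw [h1, hn]
    have h2 : (e.σ z / e.τ z)⁻¹ ≤ Real.exp (((2 : ℕ) : ℝ) * (T / 2)) := by
      rw [← Real.log_le_iff_le_exp (inv_pos.2 hq0), Real.log_inv]
      push_cast
      linarith [hl.1]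
    exact mul_le_mul hnB h2 (inv_pos.2 hq0).le hB0
  obtain ⟨k, hk⟩ := hR z (a * b) hn ⟨Nat.mul_pos ha.1 hb.1, fun q hq hqd => by
    rcases (Nat.Prime.dvd_mul hq).1 hqd with h | h
    · exact ha.2 q hq h
    · exact hb.2 q hq h⟩ hnB hσ0 hτ0 hs1 hs2
  have hk0 : 0 < k := by
    rw [hk] at hσ0
    have : (0 : ℝ) < k := by simpa using hσ0
    exact_mod_cast this
  obtain ⟨k', rfl⟩ : ∃ k' : ℕ, k = k' := ⟨k.toNat, by omega⟩
  have hk'0 : 0 < k' := by exact_mod_cast hk0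
  refine rat_case e hS hP hP' ha hb hx hk'0 ha.1 ?_
  rw [← hz, hk]
  simp

/-- the index of the subgroup -/
theorem index_le (hN4 : P_N4) (hN3 : P_N3) {D : ℕ} (hD : IsFund D)
    (hK : Module.finrank ℚ K = 2) (hdisc : NumberField.discr K = (D : ℤ))
    (e : Emb K D) {P : ℕ → nonZeroDivisors (Ideal (𝓞 K))} {S : Finset ℕ}
    (hS : ∀ l ∈ S, l.Prime) (hP : ∀ l ∈ S, Ideal.absNorm (P l : Ideal (𝓞 K)) = l)
    (hP' : ∀ l ∈ S, ∃ P' : Ideal (𝓞 K), Ideal.absNorm P' = l ∧ P' ≠ P l)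
    {B U T : ℝ} (hR : Rig e S B U) (hU : √B * Real.exp (T / 2) ≤ U) (hT : 0 < T)
    (H : Subgroup (ClassGroup (𝓞 K))) (hH : ∀ l ∈ S, ClassGroup.mk0 (P l) ∈ H)
    (Q : Finset ℕ) (hQ : ∀ n ∈ Q, Comp S n ∧ (n : ℝ) ≤ √B) (hB0 : 0 ≤ B) :
    (H.index : ℝ) * (T * Q.card) ≤ 2 * √(D : ℝ) * Lone D := by
  have h := sep_bound hN4 hN3 K D hD hK hdisc e Q (fun n => An P n) H (fun n => ?_) T hT ?_
  · rwa [Fintype.card_coe] at h
  · unfold An
    rw [map_prod]
    refine Subgroup.prod_mem _ fun l hl => ?_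
    rw [map_pow]
    exact Subgroup.pow_mem _ (hH l ((hQ n n.2).1.2 l (Nat.prime_of_mem_primeFactors hl)
      (Nat.dvd_of_mem_primeFactors hl))) _
  · rintro ⟨a, ha⟩ ⟨b, hb⟩ x hx hxT
    obtain ⟨ha1, ha2⟩ := hQ a ha
    obtain ⟨hb1, hb2⟩ := hQ b hb
    have h1 : (a : ℝ) * b ≤ B := by
      calc (a : ℝ) * b ≤ √B * √B := mul_le_mul ha2 hb2 (Nat.cast_nonneg _) (Real.sqrt_nonneg _)
        _ = B := Real.mul_self_sqrt hB0
    obtain ⟨h2, h3⟩ := sep e hS hP hP' hR hU ha1 hb1 h1 hx hxT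
    exact ⟨Subtype.ext h2, h3⟩

end Pool.Agent.U787.SP
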