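import Pool.Agent.U787.SP.B
import Pool.Agent.U787.SP.E
import Pool.Agent.U689.CN.L4
import Pool.Agent.H38R2.CG.N4
import Pool.Agent.H38R2.CG.N4a
import Pool.Agent.H38R2.CG.N4b

/-!
# Inverting primes, part F: no small solutions, no small integers
-/

set_option autoImplicit false

namespace Pool.Agent.U787.SP

open Finset Filter NumberField Pool.Agent.H38R2.CG Pool.Agent.Q276.PL
open scoped Classical

/-- `x ^ 2 - d y ^ 2` takes a non-square value of absolute value at most `B`, composed of primes of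
`S` and of at most two factors `2`, with `1 ≤ y ≤ Y`. -/
def ExcT (S : Finset ℕ) (d : ℤ) (B Y : ℝ) : Prop := ∃ N x y : ℤ, ¬ IsSquare N ∧ |(N : ℝ)| ≤ B ∧
  (∀ q : ℕ, q.Prime → (q : ℤ) ∣ N → q = 2 ∨ q ∈ S) ∧ ¬ (8 : ℤ) ∣ N ∧ x ^ 2 - d * y ^ 2 = N ∧
  1 ≤ y ∧ (y : ℝ) ≤ Y

theorem rig {K : Type} [Field K] [NumberField K] {p : ℕ} (hp4 : 4 ≤ p) (hp : p.Prime)
    (e : Emb K (dsc p)) {S' S : Finset ℕ} (h2S : 2 ∉ S) (hsub : S' ⊆ S) {B U : ℝ}
    (h : ¬ ExcT S (p : ℤ) (4 * B) U) : Rig e S' B U := by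
  intro z n hn hc hnB hσ hτ hσU hτU
  by_contra hk
  push Not at hk
  obtain ⟨t, v, -, h3, h4⟩ := e.int1 z
  have hDp : p ≤ dsc p := U689.CN.le_dsc p
  have hD0 : (0 : ℝ) < (dsc p : ℝ) := by exact_mod_cast (by omega : 0 < dsc p)
  have hs : √(dsc p : ℝ) * √(dsc p : ℝ) = dsc p := Real.mul_self_sqrt hD0.le
  have hs0 : 0 < √(dsc p : ℝ) := Real.sqrt_pos.2 hD0
  have hnn : t ^ 2 - (dsc p : ℤ) * v ^ 2 = 4 * n := by
    have e3 : (((t ^ 2 - (dsc p : ℤ) * v ^ 2 : ℤ)) : ℝ) = ((4 * n : ℤ) : ℝ) := by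
      push_cast
      rw [h3, h4] at hn
      have : ((t : ℝ) + v * √(dsc p : ℝ)) / 2 * (((t : ℝ) - v * √(dsc p : ℝ)) / 2) =
          (t ^ 2 - (√(dsc p : ℝ) * √(dsc p : ℝ)) * v ^ 2) / 4 := by ring
      rw [this, hs] at hn
      linarith
    exact_mod_cast e3
  have hn1 : 1 ≤ n := hc.1
  have hodd : ¬ 2 ∣ n := fun h2 => h2S (hsub (hc.2 2 Nat.prime_two h2))
  have ht0 : 0 < t := by
    have : (0 : ℝ) < t := by rw [h3] at hσ; rw [h4] at hτ; linarith
    exact_mod_cast this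
  have hv : v ≠ 0 := by
    rintro rfl
    have e1 : t ^ 2 = 4 * n := by
      rw [← hnn]; ring
    have e2 : (2 : ℤ) ∣ t := by
      have : (2 : ℤ) ∣ t ^ 2 := ⟨2 * n, by rw [e1]; ring⟩
      exact Int.prime_two.dvd_of_dvd_pow this
    obtain ⟨m, rfl⟩ := e2
    apply hk m
    apply RingOfIntegers.ext
    apply e.σ.injective
    rw [h3]
    push_cast
    simp
  have hup : |(v : ℝ)| * √(dsc p : ℝ) ≤ U := by
    have b3 : |(v : ℝ)| * √(dsc p : ℝ) = |e.σ z - e.τ z| := by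
      rw [h3, h4, show ((t : ℝ) + v * √(dsc p : ℝ)) / 2 - ((t : ℝ) - v * √(dsc p : ℝ)) / 2 =
        v * √(dsc p : ℝ) by ring, abs_mul, abs_of_pos hs0]
    rw [b3, abs_le]
    constructor <;> linarith
  have hva : 1 ≤ |v| := Int.one_le_abs hv
  obtain ⟨u, hu1, hu2, hu3⟩ : ∃ u : ℕ, 1 ≤ u ∧ t ^ 2 - p * (u : ℤ) ^ 2 = 4 * n ∧
      (u : ℝ) * √(p : ℝ) ≤ U := by
    by_cases h1 : p % 4 = 1
    · have hD : dsc p = p := by unfold dsc; rw [if_pos h1]
      rw [hD] at hnn hup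
      refine ⟨v.natAbs, by omega, ?_, ?_⟩
      · rw [← hnn, Int.natAbs_sq]
      · have : ((v.natAbs : ℕ) : ℝ) = |(v : ℝ)| := by
          rw [Nat.cast_natAbs]; push_cast; rfl
        rw [this]
        exact hup
    · have hD : dsc p = 4 * p := by unfold dsc; rw [if_neg h1]
      rw [hD] at hnn hup
      refine ⟨2 * v.natAbs, by omega, ?_, ?_⟩
      · rw [← hnn]
        push_cast
        rw [mul_pow, sq_abs]
        ring
      · have : ((v.natAbs : ℕ) : ℝ) = |(v : ℝ)| := by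
          rw [Nat.cast_natAbs]; push_cast; rfl
        push_cast at hup ⊢
        have h5 : √(4 * (p : ℝ)) = 2 * √(p : ℝ) := by
          rw [show (4 : ℝ) * p = (2 : ℝ) ^ 2 * p by norm_num, Real.sqrt_mul (by norm_num),
            Real.sqrt_sq (by norm_num)]
        rw [h5] at hup
        have h6 : |(v : ℝ)| = ((|v| : ℤ) : ℝ) := by push_cast; rfl
        calc 2 * ((v.natAbs : ℕ) : ℝ) * √(p : ℝ) = |(v : ℝ)| * (2 * √(p : ℝ)) := by
              rw [this]; ring
          _ ≤ U := hup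
  have hsp : 2 ≤ √(p : ℝ) := by
    rw [Real.le_sqrt (by norm_num) (by positivity)]
    norm_num
    exact_mod_cast hp4
  have huU : (u : ℝ) ≤ U := by
    have hu0 : (0 : ℝ) ≤ u := Nat.cast_nonneg u
    nlinarith
  apply h
  by_cases hsq : IsSquare n
  · obtain ⟨k, hkk⟩ := hsq
    have hk0 : 0 < k := by
      rcases Nat.eq_zero_or_pos k with h5 | h5
      · rw [h5] at hkk; omega
      · exact h5
    obtain ⟨N, T, W, g1, g2, g3, g4, g5, g6, g7⟩ := desc hp u t (2 * k) hu1 ht0 (by omega)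
      (by rw [hu2, hkk]; push_cast; ring)
    refine ⟨N, T, W, g1, ?_, ?_, g7 ?_, g3, g4, ?_⟩
    · have e1 : |(N : ℝ)| ≤ max ((2 * (k : ℝ)) ^ 2) 2 := by
        have : ((|N| : ℤ) : ℝ) ≤ ((max ((2 * (k : ℤ)) ^ 2) 2 : ℤ) : ℝ) := by exact_mod_cast g2
        push_cast at this ⊢
        exact this
      refine e1.trans ?_
      have e2 : (2 * (k : ℝ)) ^ 2 = 4 * n := by
        rw [hkk]; push_cast; ring
      have e3 : (1 : ℝ) ≤ n := by exact_mod_cast hn1
      apply max_le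
      · rw [e2]; linarith
      · linarith
    · intro q hq hqd
      have h5 := g6 q hq hqd
      have h6 : q ∣ 2 * (2 * k) := by exact_mod_cast h5
      rcases (Nat.Prime.dvd_mul hq).1 h6 with h7 | h7
      · exact Or.inl ((Nat.prime_dvd_prime_iff_eq hq Nat.prime_two).1 h7)
      · rcases (Nat.Prime.dvd_mul hq).1 h7 with h8 | h8
        · exact Or.inl ((Nat.prime_dvd_prime_iff_eq hq Nat.prime_two).1 h8)
        · exact Or.inr (hsub (hc.2 q hq (by rw [hkk]; exact h8.mul_right k)))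
    · intro h4
      apply hodd
      rw [hkk]
      apply Dvd.dvd.mul_right
      have h5 : (4 : ℤ) ∣ ((2 * k : ℕ) : ℤ) := by push_cast; exact h4
      have h6 : 4 ∣ 2 * k := by exact_mod_cast h5
      omega
    · refine le_trans ?_ huU
      exact_mod_cast g5
  · refine ⟨4 * n, t, u, ?_, ?_, ?_, ?_, hu2, by exact_mod_cast hu1, by push_cast; exact huU⟩
    · rintro ⟨r, hr⟩
      have e2 : (2 : ℤ) ∣ r := by
        have : (2 : ℤ) ∣ r * r := ⟨2 * n, by rw [← hr]; ring⟩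
        rcases Int.prime_two.dvd_or_dvd this with h | h <;> exact h
      obtain ⟨k, rfl⟩ := e2
      apply hsq
      refine ⟨k.natAbs, ?_⟩
      have e3 : (n : ℤ) = k * k := by linarith
      have e4 : ((n : ℕ) : ℤ) = ((k.natAbs * k.natAbs : ℕ) : ℤ) := by
        rw [e3]
        exact (Int.natAbs_mul_self (a := k)).symm
      exact_mod_cast e4
    · push_cast
      rw [abs_of_nonneg (by positivity)]
      linarith
    · intro q hq hqd
      have h6 : q ∣ 4 * n := by exact_mod_cast hqd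
      rcases (Nat.Prime.dvd_mul hq).1 h6 with h7 | h7
      · have h8 : q ∣ 2 := hq.dvd_of_dvd_pow (show q ∣ 2 ^ 2 by norm_num; exact h7)
        exact Or.inl ((Nat.prime_dvd_prime_iff_eq hq Nat.prime_two).1 h8)
      · exact Or.inr (hsub (hc.2 q hq h7))
    · intro h8
      have h9 : 8 ∣ 4 * n := by exact_mod_cast h8
      omega

/-- `ℓ` is the norm of two different ideals -/
def Split (K : Type) [Field K] [NumberField K] (l : ℕ) : Prop :=
  ∃ P P' : Ideal (𝓞 K), P ≠ P' ∧ Ideal.absNorm P = l ∧ Ideal.absNorm P' = l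

/-- The subgroup of the class group generated by the classes of the ideals with norm in `S`. -/
noncomputable def Gen (K : Type) [Field K] [NumberField K] (S : Finset ℕ) :
    Subgroup (ClassGroup (𝓞 K)) :=
  Subgroup.closure {c | ∃ I : nonZeroDivisors (Ideal (𝓞 K)),
    Ideal.absNorm (I : Ideal (𝓞 K)) ∈ S ∧ ClassGroup.mk0 I = c}

/-- the number of `n ≤ Y` all of whose prime factors are split primes of `S` -/
noncomputable def Psi (K : Type) [Field K] [NumberField K] (S : Finset ℕ) (Y : ℝ) : ℕ :=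
  ((Finset.Icc 1 ⌊Y⌋₊).filter fun n => ∀ q : ℕ, q.Prime → q ∣ n → q ∈ S ∧ Split K q).card

theorem n4 : P_N4 := T_N4 T_N4a T_N4b

theorem main_one {K : Type} [Field K] [NumberField K] {p : ℕ} (hp4 : 4 ≤ p) (hp : p.Prime)
    (h2 : Module.finrank ℚ K = 2) (hx : ∃ x : K, x ^ 2 = (p : K)) {S : Finset ℕ}
    (hS : ∀ l ∈ S, l.Prime) (hS2 : 2 ∉ S) {B U T : ℝ} (hB : 0 ≤ B)
    (h : ¬ ExcT S (p : ℤ) (4 * B) U) (hU : √B * Real.exp (T / 2) ≤ U) (hT : 0 < T) :
    ((Gen K S).index : ℝ) * (T * Psi K S (√B)) ≤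
      4 * (Units.regulator K * (classNumber K : ℝ)) := by
  have h1 : 1 < p := by omega
  have hsf := hp.prime.squarefree
  have hdisc := U689.CN.discr_eq h1 hsf h2 hx
  have hD := U689.CN.isFund_dsc h1 hsf
  obtain ⟨e⟩ := T_N0 K (dsc p) hD h2 hdisc
  have hform := U689.CN.formula h1 hsf h2 hx
  obtain ⟨S', hS'⟩ : ∃ S' : Finset ℕ, S' = S.filter (Split K) := ⟨_, rfl⟩
  have hsub : S' ⊆ S := by
    rw [hS']
    exact Finset.filter_subset _ _
  have hR : Rig e S' B U := rig hp4 hp e hS2 hsub h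
  have hSp : ∀ l ∈ S', ∃ P : nonZeroDivisors (Ideal (𝓞 K)),
      Ideal.absNorm (P : Ideal (𝓞 K)) = l ∧ ∃ P' : Ideal (𝓞 K), Ideal.absNorm P' = l ∧ P' ≠ P := by
    intro l hl
    rw [hS', Finset.mem_filter] at hl
    obtain ⟨hl1, P, P', h3, h4, h5⟩ := hl
    have h6 : P ≠ ⊥ := by
      rintro rfl
      rw [Ideal.absNorm_bot] at h4
      exact (hS l hl1).ne_zero h4.symm
    exact ⟨⟨P, mem_nonZeroDivisors_of_ne_zero h6⟩, h4, P', h5, fun h => h3 h.symm⟩
  choose! P hP1 hP2 using hSp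
  have hQ : ∀ n ∈ ((Finset.Icc 1 ⌊√B⌋₊).filter fun n => ∀ q : ℕ, q.Prime → q ∣ n →
      q ∈ S ∧ Split K q), Comp S' n ∧ (n : ℝ) ≤ √B := by
    intro n hn
    rw [Finset.mem_filter, Finset.mem_Icc] at hn
    refine ⟨⟨hn.1.1, fun q hq hqd => ?_⟩, ?_⟩
    · rw [hS', Finset.mem_filter]
      exact hn.2 q hq hqd
    · exact (Nat.cast_le.2 hn.1.2).trans (Nat.floor_le (Real.sqrt_nonneg _))
  have hmain := index_le n4 U689.CN.n3 hD h2 hdisc e (P := P) (S := S')
    (fun l hl => hS l (by rw [hS', Finset.mem_filter] at hl; exact hl.1))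
    hP1 hP2 hR hU hT (Gen K S) (fun l hl => by
      apply Subgroup.subset_closure
      refine ⟨P l, ?_, rfl⟩
      rw [hP1 l hl]
      rw [hS', Finset.mem_filter] at hl
      exact hl.1) _ hQ hB
  refine hmain.trans ?_
  rw [mul_assoc, ← hform]
  apply le_of_eq
  ring

end Pool.Agent.U787.SP
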