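import Pool.Agent.U787.SP.F

/-!
# Inverting primes, part G: the number of smooth numbers from below
-/

set_option autoImplicit false

namespace Pool.Agent.U787.SP

open Finset NumberField
open scoped Classical

/-- the number of split primes of `S` -/
noncomputable def nsp (K : Type) [Field K] [NumberField K] (S : Finset ℕ) : ℕ :=
  (S.filter (Split K)).card

theorem psi_ge (K : Type) [Field K] [NumberField K] (S : Finset ℕ) (hS : ∀ l ∈ S, l.Prime)
    {M Y : ℝ} (hM : 1 < M) (hSM : ∀ l ∈ S, (l : ℝ) ≤ M) (hY : 1 ≤ Y) :
    (Real.log Y / ((S.card + 1) * Real.log M)) ^ (nsp K S) ≤ (Psi K S Y : ℝ) := by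
  obtain ⟨S', hS'⟩ : ∃ S' : Finset ℕ, S' = S.filter (Split K) := ⟨_, rfl⟩
  obtain ⟨b, hb⟩ : ∃ b : ℕ, b = ⌊Real.log Y / ((S.card + 1) * Real.log M)⌋₊ := ⟨_, rfl⟩
  have hlM : 0 < Real.log M := Real.log_pos hM
  have hlY : 0 ≤ Real.log Y := Real.log_nonneg hY
  have hq0 : 0 ≤ Real.log Y / ((S.card + 1) * Real.log M) := by positivity
  have hS'p : ∀ l ∈ S', l.Prime := fun l hl => hS l (by
    rw [hS', Finset.mem_filter] at hl; exact hl.1)
  have hcard : S'.card ≤ S.card := by rw [hS']; exact Finset.card_filter_le _ _
  have hmem : ∀ l : ℕ, l ∈ S' → l ∈ S ∧ Split K l := fun l hl => by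
    rw [hS', Finset.mem_filter] at hl
    exact hl
  -- the map
  have hinj : ((Fintype.piFinset (fun _ : S' => Finset.range (b + 1)))).card ≤ Psi K S Y := by
    unfold Psi
    apply Finset.card_le_card_of_injOn (fun f : S' → ℕ => ∏ l : S', (l : ℕ) ^ f l)
    · intro f hf
      have hf' := hf
      rw [Finset.mem_coe, Fintype.mem_piFinset] at hf'
      have hpos : 1 ≤ ∏ l : S', (l : ℕ) ^ f l :=
        Nat.succ_le_of_lt (Finset.prod_pos fun (l : S') _ => pow_pos (hS'p l l.2).pos _)
      rw [Finset.mem_coe, Finset.mem_filter, Finset.mem_Icc]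
      refine ⟨⟨hpos, ?_⟩, ?_⟩
      · apply Nat.le_floor
        rw [← Real.log_le_log_iff (by exact_mod_cast hpos) (by linarith)]
        push_cast
        rw [Real.log_prod (fun l _ => pow_ne_zero _ (Nat.cast_ne_zero.2 (hS'p _ l.2).ne_zero))]
        calc ∑ l : S', Real.log ((l : ℕ) ^ f l : ℝ) ≤ ∑ l : S', (b : ℝ) * Real.log M := by
              apply Finset.sum_le_sum
              intro l _
              rw [Real.log_pow]
              have h1 : f l ≤ b := by
                have := hf' l
                rw [Finset.mem_range] at this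
                omega
              have h2 : Real.log ((l : ℕ) : ℝ) ≤ Real.log M := by
                apply Real.log_le_log
                · exact_mod_cast (hS'p l l.2).pos
                · exact hSM _ (hmem _ l.2).1
              have h3 : (0 : ℝ) ≤ Real.log ((l : ℕ) : ℝ) :=
                Real.log_nonneg (by exact_mod_cast (hS'p l l.2).one_le)
              exact mul_le_mul (by exact_mod_cast h1) h2 h3 (Nat.cast_nonneg _)
          _ = (S'.card : ℝ) * (b * Real.log M) := by
              rw [Finset.sum_const, Finset.card_univ, Fintype.card_coe, nsmul_eq_mul]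
          _ ≤ (S.card + 1 : ℝ) * (b * Real.log M) := by
              apply mul_le_mul_of_nonneg_right _ (by positivity)
              have : (S'.card : ℝ) ≤ S.card := by exact_mod_cast hcard
              linarith
          _ ≤ Real.log Y := by
              have h4 : (b : ℝ) ≤ Real.log Y / ((S.card + 1) * Real.log M) := by
                rw [hb]
                exact Nat.floor_le hq0
              rw [le_div_iff₀ (by positivity)] at h4
              linarith
      · intro q hq hqd
        obtain ⟨l, -, hl⟩ := (Prime.dvd_finsetProd_iff hq.prime _).1 hqd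
        have h1 := hq.dvd_of_dvd_pow hl
        have h2 := (Nat.prime_dvd_prime_iff_eq hq (hS'p l l.2)).1 h1
        rw [h2]
        exact hmem _ l.2
    · intro f hf g hg hfg
      simp only at hfg
      funext l
      have key : ∀ f : S' → ℕ, (∏ l : S', (l : ℕ) ^ f l).factorization l = f l := by
        intro f
        rw [Nat.factorization_prod (fun (l : S') _ => pow_ne_zero _ (hS'p l l.2).ne_zero)]
        rw [Finset.sum_apply']
        rw [Finset.sum_eq_single l]
        · rw [(hS'p l l.2).factorization_pow, Finsupp.single_eq_same]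
        · intro l' _ hl'
          rw [(hS'p l' l'.2).factorization_pow, Finsupp.single_eq_of_ne]
          intro h
          exact hl' (Subtype.ext h.symm)
        · intro h
          exact absurd (Finset.mem_univ _) h
      rw [← key f, ← key g, hfg]
  rw [Fintype.card_piFinset] at hinj
  simp only [Finset.card_range, Finset.prod_const, Finset.card_univ, Fintype.card_coe] at hinj
  have h1 : ((b : ℝ) + 1) ^ S'.card ≤ (Psi K S Y : ℝ) := by exact_mod_cast hinj
  refine le_trans ?_ h1
  have h2 : nsp K S = S'.card := by rw [hS']; rfl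
  rw [h2]
  apply pow_le_pow_left₀ hq0
  rw [hb]
  exact (Nat.lt_floor_add_one _).le

end Pool.Agent.U787.SP
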