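import Mathlib

/-!
# Inverting primes, part T: the Taylor polynomials of the square root
-/

set_option autoImplicit false

namespace Pool.Agent.U787.SP

open Finset

theorem choose_abs (n : ℕ) : |Ring.choose ((1 / 2 : ℝ)) n| ≤ 1 := by
  induction n with
  | zero => rw [Ring.choose_zero_right, abs_one]
  | succ n ih =>
    have h1 := Ring.descPochhammer_eq_factorial_smul_choose (1 / 2 : ℝ) n
    have h2 := Ring.descPochhammer_eq_factorial_smul_choose (1 / 2 : ℝ) (n + 1)
    have h3 : (descPochhammer ℤ (n + 1)).smeval (1 / 2 : ℝ) =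
        (descPochhammer ℤ n).smeval (1 / 2 : ℝ) * (1 / 2 - n) := by
      rw [descPochhammer_succ_right, Polynomial.smeval_mul]
      simp [Polynomial.smeval_sub, Polynomial.smeval_natCast]
    rw [h3, h1, nsmul_eq_mul, nsmul_eq_mul, Nat.factorial_succ] at h2
    push_cast at h2
    have hf : (0 : ℝ) < (n.factorial : ℝ) := by exact_mod_cast n.factorial_pos
    have h4 : Ring.choose ((1 / 2 : ℝ)) (n + 1) = Ring.choose (1 / 2 : ℝ) n * ((1 / 2 - n) / (n + 1)) := by
      have hn : ((n : ℝ) + 1) ≠ 0 := by positivity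
      field_simp
      field_simp at h2
      nlinarith [h2]
    rw [h4, abs_mul]
    have h5 : |(1 / 2 - (n : ℝ)) / (n + 1)| ≤ 1 := by
      rw [abs_div, div_le_one (by positivity), abs_of_pos (by positivity : (0 : ℝ) < n + 1), abs_le]
      have : (0 : ℝ) ≤ n := Nat.cast_nonneg n
      constructor <;> linarith
    calc _ ≤ 1 * 1 := mul_le_mul ih h5 (abs_nonneg _) zero_le_one
      _ = 1 := one_mul 1

theorem hasSum_sqrt {u : ℝ} (hu : |u| < 1) :
    HasSum (fun n => Ring.choose (1 / 2 : ℝ) n * u ^ n) (√(1 + u)) := by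
  have h := (Real.one_add_rpow_hasFPowerSeriesOnBall_zero (a := (1 / 2 : ℝ))).hasSum (y := u) (by
    rw [mem_eball_zero_iff, ← ofReal_norm, Real.norm_eq_abs]
    exact ENNReal.ofReal_lt_one.2 hu)
  rw [zero_add] at h
  rw [Real.sqrt_eq_rpow]
  have e : (fun n => Ring.choose (1 / 2 : ℝ) n * u ^ n) =
      fun n => (binomialSeries ℝ (1 / 2 : ℝ) n) fun _ => u := by
    funext n
    rw [binomialSeries_apply]
    simp
  rw [e]
  exact h

/-- the Taylor polynomials of the square root -/
theorem taylor {u : ℝ} (hu : |u| ≤ 1 / 2) (N : ℕ) :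
    |√(1 + u) - ∑ n ∈ range N, Ring.choose (1 / 2 : ℝ) n * u ^ n| ≤ 2 * |u| ^ N := by
  have h := hasSum_sqrt (u := u) (by linarith)
  have h1 := (hasSum_nat_add_iff' N).2 h
  have h2 : ∀ n, |Ring.choose (1 / 2 : ℝ) (n + N) * u ^ (n + N)| ≤ |u| ^ N * |u| ^ n := by
    intro n
    rw [abs_mul, abs_pow, pow_add]
    calc |Ring.choose (1 / 2 : ℝ) (n + N)| * (|u| ^ n * |u| ^ N) ≤ 1 * (|u| ^ n * |u| ^ N) :=
          mul_le_mul_of_nonneg_right (choose_abs _) (by positivity)
      _ = _ := by ring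
  have h3 : HasSum (fun n : ℕ => |u| ^ N * |u| ^ n) (|u| ^ N * (1 - |u|)⁻¹) :=
    (hasSum_geometric_of_lt_one (abs_nonneg u) (by linarith)).mul_left _
  have h4 := h1.tsum_eq
  rw [← h4, ← Real.norm_eq_abs]
  refine (tsum_of_norm_bounded h3 (fun n => by rw [Real.norm_eq_abs]; exact h2 n)).trans ?_
  rw [mul_comm]
  apply mul_le_mul_of_nonneg_right _ (by positivity)
  rw [inv_le_comm₀ (by linarith) (by norm_num)]
  linarith

end Pool.Agent.U787.SP
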