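import Pool.Agent.U916.GT.Det
import Pool.Agent.U787.SP.T

/-!
# Inverting primes, part H: the size of the determinant with a weak archimedean approximation
-/

set_option autoImplicit false

namespace Pool.Agent.U787.SP

open Finset Pool.Agent.W223.HZ Pool.Agent.U916.GT

/-- the coefficients of the column operation -/
def Cr (m : ℕ) (g : ℕ → ℝ) : Matrix (Fin m) (Fin m) ℝ :=
  Matrix.of fun l j => if (j : ℕ) ≤ l then g (l - j) else 0

theorem sum_col_auxr (k e : ℕ) (g : ℕ → ℝ) (σ : ℝ) :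
    ∑ l ∈ Finset.range (k + e), σ ^ l * (if k ≤ l then g (l - k) else 0) =
      σ ^ k * ∑ n ∈ Finset.range e, g n * σ ^ n := by
  rw [Finset.sum_range_add]
  have h3 : ∑ x ∈ Finset.range k, σ ^ x * (if k ≤ x then g (x - k) else 0) = 0 := by
    apply Finset.sum_eq_zero
    intro x hx
    rw [Finset.mem_range] at hx
    rw [if_neg (by omega), mul_zero]
  rw [h3, zero_add, Finset.mul_sum]
  apply Finset.sum_congr rfl
  intro n _
  rw [if_pos (by omega), Nat.add_sub_cancel_left, pow_add]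
  ring

theorem sum_colr (m : ℕ) (g : ℕ → ℝ) (σ : ℝ) (j : Fin m) :
    ∑ l : Fin m, σ ^ (l : ℕ) * Cr m g l j =
      σ ^ (j : ℕ) * ∑ n ∈ Finset.range (m - j), g n * σ ^ n := by
  have h1 : ∑ l : Fin m, σ ^ (l : ℕ) * Cr m g l j =
      ∑ l ∈ Finset.range m, σ ^ l * (if (j : ℕ) ≤ l then g (l - j) else 0) := by
    rw [← Fin.sum_univ_eq_sum_range (fun l => σ ^ l * (if (j : ℕ) ≤ l then g (l - j) else 0)) m]
    rfl
  rw [h1, ← sum_col_auxr]
  have h2 : (j : ℕ) + (m - j) = m := by omega
  rw [h2]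

/-- **the size of the determinant** -/
theorem det_abs {m l : ℕ} (g : ℕ → ℝ) (x y σ : Fin m ⊕ Fin m → ℤ) {Xb Vb L ρ ε E : ℝ}
    (hε0 : 0 ≤ ε) (hXb : 0 ≤ Xb) (hVb : 0 ≤ Vb) (hL : 0 ≤ L) (hρ0 : 0 ≤ ρ) (hρ1 : ρ ≤ 1)
    (hg : ∀ n, |g n| * L ^ n * Vb ≤ Xb * ρ ^ n)
    (hx : ∀ i (j : Fin m), |(x i : ℝ) - (∑ n ∈ range (m - j + l), g n * (σ i : ℝ) ^ n) * y i| ≤
      ε * Xb)
    (hy : ∀ i, |(y i : ℝ)| ≤ Vb) (hσ : ∀ i, |(σ i : ℝ)| ≤ L)
    (hE : ∀ t ≤ m, ρ ^ (t ^ 2) * ε ^ (m - t) ≤ E) :
    |((Mat m x y σ).det : ℝ)| ≤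
      ((l : ℝ) + 1) ^ (2 * m) * (((2 * m).factorial : ℝ) * ((Xb * Vb) ^ m * L ^ (m * (m - 1)) * E)) := by
  classical
  obtain ⟨A, hA⟩ : ∃ A : Matrix (Fin m ⊕ Fin m) (Fin m ⊕ Fin m) ℝ,
    A = (Mat m x y σ).map (fun z : ℤ => (z : ℝ)) := ⟨_, rfl⟩
  have hAdet : (((Mat m x y σ).det : ℤ) : ℝ) = A.det := by
    rw [hA]
    exact Int.cast_det _
  have hAl : ∀ i (j : Fin m), A i (Sum.inl j) = (x i : ℝ) * (σ i : ℝ) ^ (j : ℕ) := by
    intro i j
    rw [hA]
    simp [Mat, Matrix.map_apply]
  have hAr : ∀ i (j : Fin m), A i (Sum.inr j) = (y i : ℝ) * (σ i : ℝ) ^ (j : ℕ) := by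
    intro i j
    rw [hA]
    simp [Mat, Matrix.map_apply]
  obtain ⟨U, hU⟩ : ∃ U : Matrix (Fin m ⊕ Fin m) (Fin m ⊕ Fin m) ℝ,
      U = Matrix.fromBlocks 1 0 (-(Cr m g)) 1 := ⟨_, rfl⟩
  have hdetU : U.det = 1 := by
    rw [hU, Matrix.det_fromBlocks_zero₁₂, Matrix.det_one, one_mul]
  have hl : ∀ i (j : Fin m), (A * U) i (Sum.inl j) =
      (x i : ℝ) * (σ i : ℝ) ^ (j : ℕ) - y i * ((σ i : ℝ) ^ (j : ℕ) *
        ∑ n ∈ Finset.range (m - j), g n * (σ i : ℝ) ^ n) := by
    intro i j
    rw [← sum_colr, Matrix.mul_apply, Fintype.sum_sum_type, hU]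
    simp only [Matrix.fromBlocks_apply₁₁, Matrix.fromBlocks_apply₂₁, hAl, hAr, Matrix.neg_apply]
    rw [Finset.mul_sum, sub_eq_add_neg, ← Finset.sum_neg_distrib]
    congr 1
    · rw [Finset.sum_eq_single j]
      · rw [Matrix.one_apply_eq, mul_one]
      · intro b _ hb
        rw [Matrix.one_apply_ne hb, mul_zero]
      · intro hj
        exact absurd (Finset.mem_univ j) hj
    · apply Finset.sum_congr rfl
      intro l _
      ring
  have hr : ∀ i (j : Fin m), (A * U) i (Sum.inr j) = y i * (σ i : ℝ) ^ (j : ℕ) := by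
    intro i j
    rw [Matrix.mul_apply, Fintype.sum_sum_type, hU]
    simp only [Matrix.fromBlocks_apply₁₂, Matrix.fromBlocks_apply₂₂, hAl, hAr,
      Matrix.zero_apply, mul_zero, Finset.sum_const_zero, zero_add]
    rw [Finset.sum_eq_single j]
    · rw [Matrix.one_apply_eq, mul_one]
    · intro b _ hb
      rw [Matrix.one_apply_ne hb, mul_zero]
    · intro hj
      exact absurd (Finset.mem_univ j) hj
  obtain ⟨Ξ, hΞ⟩ : ∃ Ξ : Fin m ⊕ Fin m → Fin m → ℝ, Ξ = fun i (j : Fin m) =>
    ((x i : ℝ) - (∑ n ∈ range (m - j + l), g n * (σ i : ℝ) ^ n) * y i) * (σ i : ℝ) ^ (j : ℕ) :=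
    ⟨_, rfl⟩
  have hV : ∀ i (j : Fin m), (A * U) i (Sum.inl j) = Ξ i j +
      ∑ a : Fin l, g (m - j + a) * (y i * (σ i : ℝ) ^ (m + (a : ℕ))) := by
    intro i j
    rw [hl, hΞ]
    simp only
    rw [Finset.sum_range_add]
    have hterm : ∑ a : Fin l, g (m - j + a) * (y i * (σ i : ℝ) ^ (m + (a : ℕ))) =
        y i * (σ i : ℝ) ^ (j : ℕ) * ∑ a ∈ range l, g (m - j + a) * (σ i : ℝ) ^ (m - (j : ℕ) + a) := by
      rw [← Fin.sum_univ_eq_sum_range (fun a => g (m - j + a) * (σ i : ℝ) ^ (m - (j : ℕ) + a)) l,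
        Finset.mul_sum]
      apply Finset.sum_congr rfl
      intro a _
      have e1 : m + (a : ℕ) = (j : ℕ) + (m - (j : ℕ) + a) := by
        have := j.2
        omega
      rw [e1, pow_add (σ i : ℝ)]
      ring
    rw [hterm]
    ring
  -- the expansion of the determinant
  obtain ⟨cc, hcc⟩ : ∃ cc : Fin m ⊕ Fin m → Option (Fin l) → ℝ, cc = Sum.elim
      (fun j o => match o with
        | some a => g (m - j + a)
        | none => 1)
      (fun _ o => match o with
        | some _ => 0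
        | none => 1) := ⟨_, rfl⟩
  obtain ⟨mm, hmm⟩ : ∃ mm : Fin m ⊕ Fin m → Option (Fin l) → (Fin m ⊕ Fin m → ℝ), mm = Sum.elim
      (fun j o => match o with
        | some a => fun i => y i * (σ i : ℝ) ^ (m + (a : ℕ))
        | none => fun i => Ξ i j)
      (fun j o => match o with
        | some _ => 0
        | none => fun i => y i * (σ i : ℝ) ^ (j : ℕ)) := ⟨_, rfl⟩
  have hrows : (A * U).transpose = fun c => ∑ o : Option (Fin l), cc c o • mm c o := by
    ext c i
    rw [Finset.sum_apply, Matrix.transpose_apply]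
    simp only [Pi.smul_apply, smul_eq_mul]
    rw [Fintype.sum_option]
    rcases c with j | j
    · rw [hcc, hmm]
      simp only [Sum.elim_inl]
      rw [hV, one_mul]
    · rw [hcc, hmm]
      simp only [Sum.elim_inr]
      rw [hr]
      simp
  have hdet : A.det = ∑ r : (Fin m ⊕ Fin m) → Option (Fin l),
      (∏ c, cc c (r c)) * Matrix.det (fun c => mm c (r c)) := by
    have e1 : A.det = (A * U).transpose.det := by
      rw [Matrix.det_transpose, Matrix.det_mul, hdetU, mul_one]
    rw [e1, hrows]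
    have e2 := (Matrix.detRowAlternating : ((Fin m ⊕ Fin m) → ℝ) [⋀^(Fin m ⊕ Fin m)]→ₗ[ℝ] ℝ).toMultilinearMap.map_sum
      (fun c (o : Option (Fin l)) => cc c o • mm c o)
    have e3 : Matrix.det (fun c => ∑ o : Option (Fin l), cc c o • mm c o) =
        ∑ r : (Fin m ⊕ Fin m) → Option (Fin l), Matrix.det (fun c => cc c (r c) • mm c (r c)) := e2
    rw [e3]
    apply Finset.sum_congr rfl
    intro r _
    have e4 := (Matrix.detRowAlternating : ((Fin m ⊕ Fin m) → ℝ) [⋀^(Fin m ⊕ Fin m)]→ₗ[ℝ] ℝ).toMultilinearMap.map_smul_univ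
      (fun c => cc c (r c)) (fun c => mm c (r c))
    exact e4
  have hE0 : 0 ≤ E := le_trans (by positivity) (hE 0 (Nat.zero_le _))
  have hB0 : 0 ≤ ((2 * m).factorial : ℝ) * ((Xb * Vb) ^ m * L ^ (m * (m - 1)) * E) := by positivity
  rw [hAdet, hdet]
  refine (Finset.abs_sum_le_sum_abs _ _).trans ?_
  have hterm : ∀ r : (Fin m ⊕ Fin m) → Option (Fin l),
      |(∏ c, cc c (r c)) * Matrix.det (fun c => mm c (r c))| ≤
      ((2 * m).factorial : ℝ) * ((Xb * Vb) ^ m * L ^ (m * (m - 1)) * E) := by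
    intro r
    by_cases hinr : ∀ j, r (Sum.inr j) = none
    swap
    · rw [not_forall] at hinr
      obtain ⟨j, hj⟩ := hinr
      obtain ⟨a, ha⟩ := Option.ne_none_iff_exists'.1 hj
      have : ∏ c, cc c (r c) = 0 := by
        apply Finset.prod_eq_zero (Finset.mem_univ (Sum.inr j))
        rw [hcc]
        simp only [Sum.elim_inr]
        rw [ha]
      rw [this, zero_mul, abs_zero]
      exact hB0
    by_cases hinj : ∀ j j' : Fin m, ∀ a : Fin l, r (Sum.inl j) = some a → r (Sum.inl j') = some a → j = j'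
    swap
    · push Not at hinj
      obtain ⟨j, j', a, h1, h2, h3⟩ := hinj
      have : Matrix.det (fun c => mm c (r c)) = 0 := by
        apply Matrix.det_zero_of_row_eq (i := Sum.inl j) (j := Sum.inl j')
        · intro h4
          exact h3 (Sum.inl.inj h4)
        · rw [hmm]
          simp only [Sum.elim_inl]
          rw [h1, h2]
      rw [this, mul_zero, abs_zero]
      exact hB0
    -- the exponents
    obtain ⟨J, hJ⟩ : ∃ J : Finset (Fin m), J = Finset.univ.filter (fun j => r (Sum.inl j) ≠ none) := ⟨_, rfl⟩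
    obtain ⟨av, hav⟩ : ∃ av : Fin m → ℕ, ∀ j a, r (Sum.inl j) = some a → av j = (a : ℕ) := by
      refine ⟨fun j => match r (Sum.inl j) with
        | some a => (a : ℕ)
        | none => 0, ?_⟩
      intro j a h
      simp only [h]
    -- the bounds of the rows
    obtain ⟨b, hb⟩ : ∃ b : Fin m ⊕ Fin m → ℝ, b = Sum.elim
      (fun j : Fin m => if r (Sum.inl j) = none then ε * Xb * L ^ (j : ℕ) else Vb * L ^ (m + av j))
      (fun j : Fin m => Vb * L ^ (j : ℕ)) := ⟨_, rfl⟩
    have hbb : ∀ c i, |mm c (r c) i| ≤ b c := by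
      intro c i
      rw [hb, hmm]
      rcases c with j | j
      · simp only [Sum.elim_inl]
        rcases ho : r (Sum.inl j) with _ | a
        · simp only [if_true]
          rw [hΞ]
          simp only
          rw [abs_mul, abs_pow]
          exact mul_le_mul (hx i j) (pow_le_pow_left₀ (abs_nonneg _) (hσ i) _) (by positivity)
            (by positivity)
        · rw [if_neg (by simp), hav j a ho]
          simp only
          rw [abs_mul, abs_pow]
          exact mul_le_mul (hy i) (pow_le_pow_left₀ (abs_nonneg _) (hσ i) _) (by positivity) hVb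
      · simp only [Sum.elim_inr]
        rw [hinr j]
        simp only
        rw [abs_mul, abs_pow]
        exact mul_le_mul (hy i) (pow_le_pow_left₀ (abs_nonneg _) (hσ i) _) (by positivity) hVb
    have hb0 : ∀ c, 0 ≤ b c := fun c => (abs_nonneg _).trans (hbb c c)
    have hdm : |Matrix.det (fun c => mm c (r c))| ≤ ((2 * m).factorial : ℝ) * ∏ c, b c := by
      have hda : Matrix.det (fun c => mm c (r c)) = ∑ p : Equiv.Perm (Fin m ⊕ Fin m),
          ((Equiv.Perm.sign p : ℤ) : ℝ) * ∏ i, mm (p i) (r (p i)) i := Matrix.det_apply' _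
      rw [hda]
      refine (Finset.abs_sum_le_sum_abs _ _).trans ?_
      have hp : ∀ p ∈ (Finset.univ : Finset (Equiv.Perm (Fin m ⊕ Fin m))),
          |((Equiv.Perm.sign p : ℤ) : ℝ) * ∏ i, mm (p i) (r (p i)) i| ≤ ∏ c, b c := by
        intro p _
        rw [abs_mul, Finset.abs_prod]
        have h1 : |((Equiv.Perm.sign p : ℤ) : ℝ)| = 1 := by
          rcases Int.units_eq_one_or (Equiv.Perm.sign p) with h | h <;> simp [h]
        rw [h1, one_mul, ← Equiv.prod_comp p b]
        exact Finset.prod_le_prod (fun i _ => abs_nonneg _) (fun i _ => hbb (p i) i)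
      refine (Finset.sum_le_sum hp).trans ?_
      rw [Finset.sum_const, Finset.card_univ, Fintype.card_perm, Fintype.card_sum, Fintype.card_fin,
        nsmul_eq_mul, ← two_mul]
    rw [abs_mul, Finset.abs_prod]
    refine (mul_le_mul_of_nonneg_left hdm (by positivity)).trans ?_
    rw [mul_left_comm, ← Finset.prod_mul_distrib]
    apply mul_le_mul_of_nonneg_left _ (by positivity)
    rw [Fintype.prod_sum_type]
    -- the weights
    have hw1 : ∏ j : Fin m, |cc (Sum.inl j) (r (Sum.inl j))| * b (Sum.inl j) ≤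
        ∏ j : Fin m, (Xb * L ^ (j : ℕ)) * (if r (Sum.inl j) = none then ε else ρ ^ (m - (j : ℕ) + av j)) := by
      apply Finset.prod_le_prod
      · intro j _
        exact mul_nonneg (abs_nonneg _) (hb0 _)
      · intro j _
        rw [hcc, hb]
        simp only [Sum.elim_inl]
        rcases ho : r (Sum.inl j) with _ | a
        · simp only [if_true, abs_one, one_mul]
          apply le_of_eq
          ring
        · rw [if_neg (by simp), if_neg (by simp), hav j a ho]
          simp only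
          have e1 : m + (a : ℕ) = (m - (j : ℕ) + a) + (j : ℕ) := by
            have := j.2
            omega
          have h2 := mul_le_mul_of_nonneg_right (hg (m - (j : ℕ) + a)) (pow_nonneg hL (j : ℕ))
          rw [e1, pow_add L]
          calc _ = |g (m - (j : ℕ) + a)| * L ^ (m - (j : ℕ) + a) * Vb * L ^ (j : ℕ) := by ring
            _ ≤ Xb * ρ ^ (m - (j : ℕ) + a) * L ^ (j : ℕ) := h2
            _ = _ := by ring
    have hw2 : ∏ j : Fin m, |cc (Sum.inr j) (r (Sum.inr j))| * b (Sum.inr j) =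
        ∏ j : Fin m, Vb * L ^ (j : ℕ) := by
      apply Finset.prod_congr rfl
      intro j _
      rw [hcc, hb]
      simp only [Sum.elim_inr]
      rw [hinr j]
      simp only [abs_one, one_mul]
    rw [hw2]
    have hc1 : J.card ≤ m := by
      have := Finset.card_le_univ J
      rwa [Fintype.card_fin] at this
    have hinj' : Set.InjOn av J := by
      intro j hj j' hj' hjj
      have hj2 : j ∈ J := hj
      have hj2' : j' ∈ J := hj'
      rw [hJ, Finset.mem_filter] at hj2 hj2'
      obtain ⟨a, ha⟩ := Option.ne_none_iff_exists'.1 hj2.2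
      obtain ⟨a', ha'⟩ := Option.ne_none_iff_exists'.1 hj2'.2
      rw [hav j a ha, hav j' a' ha'] at hjj
      have : a = a' := Fin.ext hjj
      subst this
      exact hinj j j' a ha ha'
    have hcomb := comb J av hinj'
    have hsplit : ∏ j : Fin m, (if r (Sum.inl j) = none then ε else ρ ^ (m - (j : ℕ) + av j)) ≤ E := by
      rw [Finset.prod_ite]
      have e1 : ∏ j ∈ Finset.univ.filter (fun j : Fin m => r (Sum.inl j) = none), ε = ε ^ (m - J.card) := by
        rw [Finset.prod_const]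
        congr 1
        have e1 := Finset.card_filter_add_card_filter_not (s := (Finset.univ : Finset (Fin m)))
          (fun j => r (Sum.inl j) = none)
        rw [Finset.card_univ, Fintype.card_fin] at e1
        rw [hJ]
        simp only [ne_eq]
        omega
      have e2 : ∏ j ∈ Finset.univ.filter (fun j : Fin m => ¬ r (Sum.inl j) = none),
          ρ ^ (m - (j : ℕ) + av j) = ρ ^ (∑ j ∈ J, (m - (j : ℕ) + av j)) := by
        rw [Finset.prod_pow_eq_pow_sum, hJ]
      rw [e1, e2]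
      refine le_trans ?_ (hE J.card hc1)
      rw [mul_comm]
      apply mul_le_mul_of_nonneg_right _ (by positivity)
      exact pow_le_pow_of_le_one hρ0 hρ1 hcomb
    have hw1 := hw1.trans_eq Finset.prod_mul_distrib
    have h2 : (∑ i : Fin m, (i : ℕ)) * 2 = m * (m - 1) := by
      rw [Fin.sum_univ_eq_sum_range (fun i => i) m]
      exact Finset.sum_range_id_mul_two m
    have e5 : ∀ c : ℝ, ∏ j : Fin m, c * L ^ (j : ℕ) = c ^ m * L ^ (∑ i : Fin m, (i : ℕ)) := by
      intro c
      rw [Finset.prod_mul_distrib, Finset.prod_const, Finset.card_univ, Fintype.card_fin,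
        Finset.prod_pow_eq_pow_sum]
    rw [e5] at hw1 ⊢
    have h3 : L ^ (m * (m - 1)) = L ^ (∑ i : Fin m, (i : ℕ)) * L ^ (∑ i : Fin m, (i : ℕ)) := by
      rw [← pow_add, ← h2]
      congr 1
      ring
    have h4 : ∏ j : Fin m, |cc (Sum.inl j) (r (Sum.inl j))| * b (Sum.inl j) ≤
        Xb ^ m * L ^ (∑ i : Fin m, (i : ℕ)) * E :=
      hw1.trans (mul_le_mul_of_nonneg_left hsplit (by positivity))
    calc _ ≤ (Xb ^ m * L ^ (∑ i : Fin m, (i : ℕ)) * E) * (Vb ^ m * L ^ (∑ i : Fin m, (i : ℕ))) :=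
          mul_le_mul_of_nonneg_right h4 (by positivity)
      _ = (Xb * Vb) ^ m * L ^ (m * (m - 1)) * E := by
          rw [h3, mul_pow]
          ring
  refine (Finset.sum_le_sum fun r _ => hterm r).trans ?_
  rw [Finset.sum_const, Finset.card_univ, nsmul_eq_mul]
  apply le_of_eq
  congr 1
  rw [Fintype.card_fun, Fintype.card_option, Fintype.card_fin, Fintype.card_sum, Fintype.card_fin,
    ← two_mul]
  push_cast
  rfl

end Pool.Agent.U787.SP
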