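import Pool.Agent.U787.SP.H
import Pool.Agent.U916.GQ.Van

/-!
# Inverting primes, part I: the determinants vanish
-/

set_option autoImplicit false

namespace Pool.Agent.U787.SP

open Finset Polynomial Pool.Agent.W223.HZ Pool.Agent.U916.GQ

/-- the exponent of the modulus -/
def kk (c n : ℕ) : ℕ := (n + 4 * c - 1) / (4 * c)

theorem kk_pos {c n : ℕ} (hc : 1 ≤ c) (hn : 1 ≤ n) : 1 ≤ kk c n := by
  unfold kk
  rw [Nat.le_div_iff_mul_le (by omega)]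
  omega

theorem kk_ge {c n : ℕ} (hc : 1 ≤ c) : n ≤ 4 * c * kk c n := by
  unfold kk
  have h1 := Nat.div_add_mod (n + 4 * c - 1) (4 * c)
  have h2 := Nat.mod_lt (n + 4 * c - 1) (show 0 < 4 * c by omega)
  omega

theorem kk_le {c n : ℕ} (hc : 1 ≤ c) : 4 * c * kk c n ≤ n + 4 * c := by
  unfold kk
  have h1 := Nat.div_add_mod (n + 4 * c - 1) (4 * c)
  omega

/-- one prime -/
theorem dvd_one {m c n l : ℕ} (hl : l.Prime) (hl2 : l ≠ 2) (hc : 1 ≤ c) (hcm : c ≤ m) (hn : 1 ≤ n)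
    {R d₀ s : ℤ} (hR : ((l : ℤ) ^ (kk c n)) ∣ R) (hs : (l : ℤ) ∣ s ^ 2 - d₀) (hs0 : ¬ (l : ℤ) ∣ s)
    (x y σ : Fin m ⊕ Fin m → ℤ) (hcop : ∀ i, IsCoprime (x i) (y i))
    (hxy : ∀ i, (l : ℤ) ∣ x i - s * y i)
    (hN : ∀ i, (l : ℤ) ^ n ∣ x i ^ 2 - (d₀ + R * σ i) * y i ^ 2) :
    (l : ℤ) ^ (n * (m - c)) ∣ (Mat m x y σ).det := by
  obtain ⟨c', hc'⟩ := hR
  have hk := kk_pos hc hn
  have hkge := kk_ge (n := n) hc
  have hlI : Prime (l : ℤ) := Nat.prime_iff_prime_int.1 hl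
  have h2s : IsCoprime (2 * s) (l : ℤ) := by
    apply IsCoprime.mul_left
    · have h2 : Nat.Coprime 2 l := (Nat.coprime_primes Nat.prime_two hl).2 (fun h => hl2 h.symm)
      exact_mod_cast Nat.isCoprime_iff_coprime.2 h2
    · exact ((Prime.coprime_iff_not_dvd hlI).2 hs0).symm
  obtain ⟨a, b, hab⟩ := h2s
  have hu : (l : ℤ) ∣ 1 + 2 * s * (-a) := ⟨b, by linear_combination -hab⟩
  refine U916.GT.det_dvd (l := n) hk (l : ℤ) ((HH s (-a) (-d₀) (n - 1)).comp (C (-c') * X)) x y σ ?_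
    (n * (m - c)) ?_
  · intro i
    rw [eval_comp]
    have e1 : eval ((l : ℤ) ^ (kk c n) * σ i) (C (-c') * X) = -c' * ((l : ℤ) ^ (kk c n) * σ i) := by
      simp
    rw [e1]
    refine point_congr (P := (l : ℤ)) ?_ ?_ hu ?_ (hxy i) ?_ ?_
    · apply Dvd.dvd.mul_left
      apply Dvd.dvd.mul_right
      exact dvd_pow_self _ (by omega)
    · rwa [← sub_eq_add_neg]
    · rw [Nat.sub_add_cancel hn]
    · have hy : ¬ (l : ℤ) ∣ y i := by
        intro hd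
        have hx : (l : ℤ) ∣ x i := by
          have := dvd_add (hxy i) (hd.mul_left s)
          rwa [sub_add_cancel] at this
        have h1 := (hcop i).isUnit_of_dvd' hx hd
        exact hlI.not_unit h1
      exact IsCoprime.mul_left ⟨a, b, hab⟩ ((Prime.coprime_iff_not_dvd hlI).2 hy).symm
    · have e2 : x i ^ 2 + (-d₀ + -c' * ((l : ℤ) ^ (kk c n) * σ i)) * y i ^ 2 =
          x i ^ 2 - (d₀ + R * σ i) * y i ^ 2 := by
        rw [hc']; ring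
      rw [e2]
      exact hN i
  · intro t ht
    obtain ⟨k, hkk⟩ : ∃ k, k = kk c n := ⟨_, rfl⟩
    rw [← hkk] at hkge ⊢
    have h1 : (n : ℤ) * (m - c) ≤ k * t ^ 2 + n * (m - t) := by
      have h2 : (n : ℤ) ≤ 4 * c * k := by exact_mod_cast hkge
      have h3 : (0 : ℤ) < c := by exact_mod_cast hc
      have h4 : (0 : ℤ) ≤ 4 * c * (k * t ^ 2 + n * (m - t) - n * (m - c)) := by
        have h5 : (0 : ℤ) ≤ n * (t - 2 * c) ^ 2 := by positivity
        have h6 : (n : ℤ) * t ^ 2 ≤ 4 * c * k * t ^ 2 := mul_le_mul_of_nonneg_right h2 (by positivity)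
        nlinarith
      have h5 : (0 : ℤ) ≤ (k * t ^ 2 + n * (m - t) - n * (m - c)) := by
        by_contra hc
        push Not at hc
        nlinarith
      linarith
    have e1 : ((m - c : ℕ) : ℤ) = m - c := by push_cast [hcm]; ring
    have e2 : ((m - t : ℕ) : ℤ) = m - t := by push_cast [ht]; ring
    rw [← e1, ← e2] at h1
    exact_mod_cast h1

/-- all primes -/
theorem dvd_all {m c : ℕ} {S : Finset ℕ} (hS : ∀ l ∈ S, l.Prime) (hS2 : 2 ∉ S) (n : ℕ → ℕ)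
    (hc : 1 ≤ c) (hcm : c ≤ m)
    {R d₀ : ℤ} {s : ℕ → ℤ} (hR : ∀ l ∈ S, ((l : ℤ) ^ (kk c (n l))) ∣ R)
    (hs : ∀ l ∈ S, 1 ≤ n l → (l : ℤ) ∣ s l ^ 2 - d₀) (hs0 : ∀ l ∈ S, ¬ (l : ℤ) ∣ d₀)
    (x y σ : Fin m ⊕ Fin m → ℤ) (hcop : ∀ i, IsCoprime (x i) (y i))
    (hxy : ∀ l ∈ S, 1 ≤ n l → ∀ i, (l : ℤ) ∣ x i - s l * y i)
    (hN : ∀ i, (∏ l ∈ S, (l : ℤ) ^ (n l)) ∣ x i ^ 2 - (d₀ + R * σ i) * y i ^ 2) :
    (∏ l ∈ S, (l : ℤ) ^ (n l)) ^ (m - c) ∣ (Mat m x y σ).det := by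
  rw [← Finset.prod_pow]
  apply Finset.prod_dvd_of_coprime
  · intro l hl q hq hlq
    have h1 : Nat.Coprime l q := (Nat.coprime_primes (hS l hl) (hS q hq)).2 hlq
    have h2 : IsCoprime (l : ℤ) (q : ℤ) := Nat.isCoprime_iff_coprime.2 h1
    exact (h2.pow.pow)
  · intro l hl
    rcases Nat.eq_zero_or_pos (n l) with h0 | h0
    · rw [h0, pow_zero, one_pow]
      exact one_dvd _
    · rw [← pow_mul]
      refine dvd_one (hS l hl) (fun h => hS2 (h ▸ hl)) hc hcm h0 (hR l hl) (hs l hl h0) ?_ x y σ hcop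
        (hxy l hl h0) (fun i => ?_)
      · intro hd
        have h1 := hs l hl h0
        have h2 : (l : ℤ) ∣ s l ^ 2 := Dvd.dvd.pow hd (by norm_num)
        exact hs0 l hl ((dvd_sub_right h2).1 h1)
      · exact (Finset.dvd_prod_of_mem (fun l : ℕ => (l : ℤ) ^ (n l)) hl).trans (hN i)

end Pool.Agent.U787.SP
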