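import Pool.Agent.U787.SP.I

/-!
# Inverting primes, part J: the determinants vanish
-/

set_option autoImplicit false

namespace Pool.Agent.U787.SP

open Finset Pool.Agent.W223.HZ

theorem near {x y d N N₁ V D Q : ℝ} (hx : 0 ≤ x) (hV : 1 ≤ V) (hy : V ≤ y)
    (heq : x ^ 2 - d * y ^ 2 = N) (hN : |N| ≤ 4 * N₁) (hD : 1 ≤ D) (hd : D ≤ d)
    (hQ : Q = max N₁ (V ^ 2 * D)) : |x - √d * y| ≤ 4 * (N₁ / Q) * √Q := by
  have hN0 : 0 ≤ N₁ := by have := abs_nonneg N; linarith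
  have hd0 : 0 < d := by linarith
  have hsd : 0 < √d := Real.sqrt_pos.2 hd0
  have hy0 : 0 < y := by linarith
  have hS0 : 0 < x + √d * y := by positivity
  have hprod : |x - √d * y| * (x + √d * y) = |N| := by
    rw [← abs_of_pos hS0, ← abs_mul, ← heq]
    congr 1
    have : √d ^ 2 = d := Real.sq_sqrt hd0.le
    linear_combination (-y ^ 2) * this
  have hVD : 0 < V ^ 2 * D := by positivity
  rcases le_total N₁ (V ^ 2 * D) with h | h
  · rw [max_eq_right h] at hQ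
    have hsQ : √Q = V * √D := by
      rw [hQ, Real.sqrt_mul (by positivity), Real.sqrt_sq (by linarith)]
    have hsD : 0 < √D := Real.sqrt_pos.2 (by linarith)
    have hsQ0 : 0 < √Q := by rw [hsQ]; positivity
    have h1 : √Q ≤ x + √d * y := by
      rw [hsQ]
      have h2 : √D ≤ √d := Real.sqrt_le_sqrt hd
      have h3 : V * √D ≤ y * √d := mul_le_mul hy h2 hsD.le hy0.le
      linarith
    have h2 : |x - √d * y| * √Q ≤ 4 * N₁ := by
      calc |x - √d * y| * √Q ≤ |x - √d * y| * (x + √d * y) :=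
            mul_le_mul_of_nonneg_left h1 (abs_nonneg _)
        _ = |N| := hprod
        _ ≤ _ := hN
    have hQ0 : 0 < Q := by rw [hQ]; exact hVD
    have hQQ : √Q * √Q = Q := Real.mul_self_sqrt hQ0.le
    have h3 : 4 * (N₁ / Q) * √Q = 4 * N₁ / √Q := by
      rw [eq_div_iff hsQ0.ne', mul_assoc, hQQ]
      field_simp
    rw [h3, le_div_iff₀ hsQ0]
    exact h2
  · rw [max_eq_left h] at hQ
    have hQ0 : 0 < Q := by rw [hQ]; linarith
    have h1 : |x - √d * y| ≤ x + √d * y := by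
      rw [abs_le]
      constructor <;> nlinarith [mul_pos hsd hy0]
    have h2 : |x - √d * y| ^ 2 ≤ 4 * Q := by
      rw [hQ, sq]
      calc |x - √d * y| * |x - √d * y| ≤ |x - √d * y| * (x + √d * y) :=
            mul_le_mul_of_nonneg_left h1 (abs_nonneg _)
        _ = |N| := hprod
        _ ≤ _ := hN
    have h3 : |x - √d * y| ≤ 2 * √Q := by
      apply abs_le_of_sq_le_sq _ (by positivity) |>.trans' (le_abs_self _)
      rw [mul_pow, Real.sq_sqrt hQ0.le]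
      linarith
    have h4 : N₁ / Q = 1 := by rw [hQ]; exact div_self (by rw [← hQ]; exact hQ0.ne')
    rw [h4]
    have := Real.sqrt_nonneg Q
    linarith

/-- the coefficients -/
noncomputable def gg (d₀ R : ℝ) (k : ℕ) : ℝ := √d₀ * (Ring.choose (1 / 2 : ℝ) k * (R / d₀) ^ k)

theorem near2 {x y N N₁ V D Q R L d₀ σ : ℝ} {c M : ℕ} (hx : 0 ≤ x) (hV : 1 ≤ V) (hy : V ≤ y)
    (hy2 : y < 2 * V)
    (heq : x ^ 2 - (d₀ + R * σ) * y ^ 2 = N) (hN : |N| ≤ 4 * N₁) (hD : 1 ≤ D) (hd : D ≤ d₀ + R * σ)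
    (hQ : Q = max N₁ (V ^ 2 * D)) (hd0 : D ≤ d₀) (hd0' : d₀ ≤ 2 * D) (hR : 0 ≤ R) (hL : 0 ≤ L)
    (hσ : |σ| ≤ L) (hρ : R * L / D ≤ 1 / 2) (hρ2 : (R * L / D) ^ (4 * c) ≤ N₁ / Q) (hM : 4 * c ≤ M) :
    |x - (∑ k ∈ range M, gg d₀ R k * σ ^ k) * y| ≤ N₁ / Q * (10 * √Q) := by
  have hd00 : 0 < d₀ := by linarith
  have h1 := near hx hV hy heq hN hD hd hQ
  obtain ⟨u, hu⟩ : ∃ u, u = R * σ / d₀ := ⟨_, rfl⟩
  have hRL0 : 0 ≤ R * L / D := by positivity
  have hu1 : |u| ≤ R * L / D := by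
    rw [hu, abs_div, abs_mul, abs_of_nonneg hR, abs_of_pos hd00]
    exact div_le_div₀ (by positivity) (mul_le_mul_of_nonneg_left hσ hR) (by linarith) hd0
  have h2 := taylor (u := u) (by linarith) M
  have h3 : √(d₀ + R * σ) = √d₀ * √(1 + u) := by
    rw [← Real.sqrt_mul hd00.le, hu]
    congr 1
    field_simp
  have h4 : ∑ k ∈ range M, gg d₀ R k * σ ^ k = √d₀ * ∑ k ∈ range M, Ring.choose (1 / 2 : ℝ) k * u ^ k := by
    rw [Finset.mul_sum]
    apply Finset.sum_congr rfl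
    intro k _
    unfold gg
    rw [hu]
    rw [mul_div_right_comm, mul_pow]
    ring
  have h5 : 2 * |u| ^ M ≤ 2 * (N₁ / Q) := by
    have e1 : |u| ^ M ≤ (R * L / D) ^ (4 * c) := by
      calc |u| ^ M ≤ (R * L / D) ^ M := pow_le_pow_left₀ (abs_nonneg _) hu1 M
        _ ≤ _ := pow_le_pow_of_le_one hRL0 (by linarith) hM
    linarith
  have hN0 : 0 ≤ N₁ := by have := abs_nonneg N; linarith
  have hQ0 : 0 < Q := by
    rw [hQ]
    exact lt_max_of_lt_right (by positivity)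
  have hε0 : 0 ≤ N₁ / Q := by positivity
  have h6 : √d₀ * y ≤ 3 * √Q := by
    have e1 : V * √D ≤ √Q := by
      rw [Real.le_sqrt (by positivity) hQ0.le, mul_pow, Real.sq_sqrt (by linarith), hQ]
      exact le_max_right _ _
    have e2 : √d₀ ≤ 3 / 2 * √D := by
      rw [Real.sqrt_le_left (by positivity), mul_pow, Real.sq_sqrt (by linarith)]
      linarith
    have e3 : √d₀ * y ≤ (3 / 2 * √D) * (2 * V) := mul_le_mul e2 hy2.le (by linarith) (by positivity)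
    nlinarith
  have h7 : |√(d₀ + R * σ) * y - (∑ k ∈ range M, gg d₀ R k * σ ^ k) * y| ≤ 3 * √Q * (2 * (N₁ / Q)) := by
    rw [h3, h4]
    have e : √d₀ * √(1 + u) * y - √d₀ * (∑ k ∈ range M, Ring.choose (1 / 2 : ℝ) k * u ^ k) * y =
        (√d₀ * y) * (√(1 + u) - ∑ k ∈ range M, Ring.choose (1 / 2 : ℝ) k * u ^ k) := by ring
    have hy0 : 0 ≤ y := by linarith
    rw [e, abs_mul, abs_of_nonneg (by positivity : 0 ≤ √d₀ * y)]
    exact mul_le_mul h6 (h2.trans h5) (abs_nonneg _) (by positivity)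
  have h8 : x - (∑ k ∈ range M, gg d₀ R k * σ ^ k) * y = (x - √(d₀ + R * σ) * y) +
      (√(d₀ + R * σ) * y - (∑ k ∈ range M, gg d₀ R k * σ ^ k) * y) := by ring
  rw [h8]
  refine (abs_add_le _ _).trans ((add_le_add h1 h7).trans (le_of_eq ?_))
  ring

/-- **the determinants vanish** -/
theorem vanish {m c : ℕ} {S : Finset ℕ} (hS : ∀ l ∈ S, l.Prime) (hS2 : 2 ∉ S) (n : ℕ → ℕ)
    (hc : 1 ≤ c) (hm : m = 16 * c ^ 2) {D V : ℝ} (hD1 : 4 ≤ D)
    (hm4 : 320 * (m : ℝ) ^ 4 < D ^ ((1 : ℝ) / 4))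
    {R : ℕ} (hR : ∀ l ∈ S, l ^ (kk c (n l)) ∣ R) (hRD : (R : ℝ) ≤ D ^ ((3 : ℝ) / 8))
    {N₁ : ℕ} (hN₁ : N₁ = ∏ l ∈ S, l ^ (n l)) {N : ℤ} (hN : (N₁ : ℤ) ∣ N)
    (hN4 : |(N : ℝ)| ≤ 4 * N₁) {Q : ℝ} (hQ : Q = max (N₁ : ℝ) (V ^ 2 * D)) (hQD : Q ≤ D ^ (2 * c))
    {d₀ : ℤ} (hd0 : D ≤ d₀) (hd0' : (d₀ : ℝ) ≤ 2 * D) {s : ℕ → ℤ}
    (hs : ∀ l ∈ S, 1 ≤ n l → (l : ℤ) ∣ s l ^ 2 - d₀) (hs0 : ∀ l ∈ S, ¬ (l : ℤ) ∣ d₀)
    (x y σ : Fin m ⊕ Fin m → ℤ) (hcop : ∀ i, IsCoprime (x i) (y i))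
    (hxy : ∀ l ∈ S, 1 ≤ n l → ∀ i, (l : ℤ) ∣ x i - s l * y i)
    (heq : ∀ i, x i ^ 2 - (d₀ + R * σ i) * y i ^ 2 = N)
    (hx0 : ∀ i, 0 ≤ x i) (hyV : ∀ i, V ≤ y i ∧ (y i : ℝ) < 2 * V) (hV : 1 ≤ V)
    (hd : ∀ i, D ≤ ((d₀ + R * σ i : ℤ) : ℝ))
    (hσ : ∀ i, |(σ i : ℝ)| ≤ D ^ (1 / (8 * (m : ℝ)))) :
    (Mat m x y σ).det = 0 := by
  by_contra hne
  have hm1 : 1 ≤ m := by rw [hm]; nlinarith
  have hcm : c ≤ m := by rw [hm]; nlinarith
  have hmR : (1 : ℝ) ≤ m := by exact_mod_cast hm1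
  have hD0 : 0 < D := by linarith
  have hD1' : 1 ≤ D := by linarith
  have hN₁1 : 1 ≤ N₁ := by
    rw [hN₁]
    exact Finset.prod_pos fun l hl => pow_pos (hS l hl).pos _
  have hN₁R : (1 : ℝ) ≤ N₁ := by exact_mod_cast hN₁1
  have hQ1 : 1 ≤ Q := by rw [hQ]; exact le_max_of_le_left hN₁R
  have hQ0 : 0 < Q := by linarith
  -- divisibility
  have h1 := dvd_all hS hS2 n hc hcm (R := (R : ℤ)) (d₀ := d₀) (s := s)
    (fun l hl => by exact_mod_cast hR l hl) hs hs0 x y σ hcop hxy (fun i => by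
      rw [heq i]
      have e : (∏ l ∈ S, (l : ℤ) ^ (n l)) = (N₁ : ℤ) := by rw [hN₁]; push_cast; rfl
      rw [e]
      exact hN)
  have e1 : (∏ l ∈ S, (l : ℤ) ^ (n l)) = (N₁ : ℤ) := by rw [hN₁]; push_cast; rfl
  rw [e1] at h1
  have h2 : (N₁ : ℝ) ^ (m - c) ≤ |((Mat m x y σ).det : ℝ)| := by
    have h3 := Int.le_of_dvd (abs_pos.2 hne) ((dvd_abs _ _).2 h1)
    have h4 : (((N₁ : ℤ) ^ (m - c) : ℤ) : ℝ) ≤ ((|(Mat m x y σ).det| : ℤ) : ℝ) := by exact_mod_cast h3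
    simpa only [Int.cast_pow, Int.cast_natCast, Int.cast_abs] using h4
  -- the size
  obtain ⟨L, hL⟩ : ∃ L : ℝ, L = D ^ (1 / (8 * (m : ℝ))) := ⟨_, rfl⟩
  rw [← hL] at hσ
  have hL1 : 1 ≤ L := by rw [hL]; exact Real.one_le_rpow hD1' (by positivity)
  have hLm : L ^ m = D ^ ((1 : ℝ) / 8) := by
    rw [hL, ← Real.rpow_natCast, ← Real.rpow_mul hD0.le]
    congr 1
    field_simp
  have hL8 : L ≤ D ^ ((1 : ℝ) / 8) := by
    rw [← hLm]
    exact le_self_pow₀ hL1 (by omega)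
  obtain ⟨ρ, hρ⟩ : ∃ ρ : ℝ, ρ = R * L / D := ⟨_, rfl⟩
  have hρ0 : 0 ≤ ρ := by rw [hρ]; positivity
  have hρh : ρ ≤ D ^ (-(1 : ℝ) / 2) := by
    rw [hρ, div_le_iff₀ hD0]
    calc (R : ℝ) * L ≤ D ^ ((3 : ℝ) / 8) * D ^ ((1 : ℝ) / 8) :=
          mul_le_mul hRD hL8 (by linarith) (by positivity)
      _ = D ^ (-(1 : ℝ) / 2) * D := by
          rw [← Real.rpow_add hD0, ← Real.rpow_add_one hD0.ne']
          norm_num
  have hρ2 : ρ ≤ 1 / 2 := by
    refine hρh.trans ?_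
    have e2 : D ^ (-(1 : ℝ) / 2) = (√D)⁻¹ := by
      rw [Real.sqrt_eq_rpow, ← Real.rpow_neg hD0.le]
      norm_num
    rw [e2, one_div]
    apply inv_anti₀ (by norm_num)
    rw [Real.le_sqrt (by norm_num) hD0.le]
    linarith
  have hε : ρ ^ (4 * c) ≤ N₁ / Q := by
    have e2 : (D ^ (-(1 : ℝ) / 2)) ^ (4 * c) = (D ^ (2 * c))⁻¹ := by
      rw [← Real.rpow_natCast, ← Real.rpow_mul hD0.le, ← Real.rpow_natCast, ← Real.rpow_neg hD0.le]
      congr 1
      push_cast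
      ring
    calc ρ ^ (4 * c) ≤ (D ^ (-(1 : ℝ) / 2)) ^ (4 * c) := pow_le_pow_left₀ hρ0 hρh _
      _ = (D ^ (2 * c))⁻¹ := e2
      _ ≤ Q⁻¹ := inv_anti₀ hQ0 hQD
      _ ≤ N₁ / Q := by
          rw [inv_eq_one_div]
          exact div_le_div_of_nonneg_right hN₁R hQ0.le
  obtain ⟨ε, hεd⟩ : ∃ ε : ℝ, ε = N₁ / Q := ⟨_, rfl⟩
  rw [← hεd] at hε
  have hε0 : 0 < ε := by rw [hεd]; positivity
  have hε1 : ε ≤ 1 := by
    rw [hεd, div_le_one hQ0, hQ]
    exact le_max_left _ _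
  have hVQ : V * √D ≤ √Q := by
    rw [Real.le_sqrt (by positivity) hQ0.le, mul_pow, Real.sq_sqrt hD0.le, hQ]
    exact le_max_right _ _
  have hd00 : (0 : ℝ) < d₀ := by linarith
  have h3 := det_abs (m := m) (l := 4 * c) (gg d₀ R) x y σ (Xb := 10 * √Q) (Vb := 2 * V) (L := L)
    (ρ := ρ) (ε := ε) (E := ε ^ (m - c)) hε0.le (by positivity) (by positivity) (by linarith) hρ0
    (by linarith) ?_ ?_ ?_ hσ ?_
  rotate_left
  · intro k
    unfold gg
    rw [abs_mul, abs_mul, abs_of_nonneg (Real.sqrt_nonneg _), abs_of_nonneg (by positivity :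
      (0 : ℝ) ≤ ((R : ℝ) / d₀) ^ k)]
    have e2 : √(d₀ : ℝ) ≤ 3 / 2 * √D := by
      rw [Real.sqrt_le_left (by positivity), mul_pow, Real.sq_sqrt hD0.le]
      linarith
    have e3 : ((R : ℝ) / d₀) ^ k * L ^ k ≤ ρ ^ k := by
      rw [← mul_pow, hρ]
      apply pow_le_pow_left₀ (by positivity)
      rw [div_mul_eq_mul_div]
      exact div_le_div_of_nonneg_left (by positivity) hD0 hd0
    calc √(d₀ : ℝ) * (|Ring.choose (1 / 2 : ℝ) k| * ((R : ℝ) / d₀) ^ k) * L ^ k * (2 * V) =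
        |Ring.choose (1 / 2 : ℝ) k| * (√(d₀ : ℝ) * (2 * V)) * (((R : ℝ) / d₀) ^ k * L ^ k) := by ring
      _ ≤ 1 * ((3 / 2 * √D) * (2 * V)) * ρ ^ k := by
          apply mul_le_mul _ e3 (by positivity) (by positivity)
          exact mul_le_mul (choose_abs k) (mul_le_mul_of_nonneg_right e2 (by positivity))
            (by positivity) zero_le_one
      _ ≤ 10 * √Q * ρ ^ k := by
          apply mul_le_mul_of_nonneg_right _ (by positivity)
          nlinarith [Real.sqrt_nonneg Q]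
  · intro i j
    rw [hεd]
    refine near2 (c := c) (by exact_mod_cast hx0 i) hV (hyV i).1 (hyV i).2 (N := (N : ℝ)) ?_ hN4 hD1'
      ?_ hQ hd0 hd0' (Nat.cast_nonneg R) (by linarith) (hσ i) (by rw [← hρ]; exact hρ2)
      (by rw [← hρ, ← hεd]; exact hε) (by omega)
    · have := heq i
      exact_mod_cast this
    · have := hd i
      push_cast at this
      exact this
  · intro i
    rw [abs_of_nonneg (by linarith [(hyV i).1])]
    exact (hyV i).2.le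
  · intro t ht
    have hc4 : 4 * c ≠ 0 := by omega
    rw [← pow_le_pow_iff_left₀ (by positivity) (by positivity) hc4, mul_pow, ← pow_mul, ← pow_mul,
      ← pow_mul]
    have e2 : ρ ^ (t ^ 2 * (4 * c)) ≤ ε ^ (t ^ 2) := by
      rw [mul_comm, pow_mul]
      exact pow_le_pow_left₀ (by positivity) hε _
    calc ρ ^ (t ^ 2 * (4 * c)) * ε ^ ((m - t) * (4 * c)) ≤ ε ^ (t ^ 2) * ε ^ ((m - t) * (4 * c)) :=
          mul_le_mul_of_nonneg_right e2 (by positivity)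
      _ = ε ^ (t ^ 2 + (m - t) * (4 * c)) := by rw [pow_add]
      _ ≤ ε ^ ((m - c) * (4 * c)) := by
          apply pow_le_pow_of_le_one hε0.le hε1
          have e3 : ((m - c : ℕ) : ℤ) = m - c := by push_cast [hcm]; ring
          have e4 : ((m - t : ℕ) : ℤ) = m - t := by push_cast [ht]; ring
          have e5 : (((m - c) * (4 * c) : ℕ) : ℤ) ≤ ((t ^ 2 + (m - t) * (4 * c) : ℕ) : ℤ) := by
            push_cast [e3, e4]
            nlinarith [sq_nonneg ((t : ℤ) - 2 * c)]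
          exact_mod_cast e5
  -- comparison
  have hsD : 0 < √D := Real.sqrt_pos.2 hD0
  have hfact : ((2 * m).factorial : ℝ) ≤ (2 * (m : ℝ)) ^ (2 * m) := by
    have := Nat.factorial_le_pow (2 * m)
    exact_mod_cast this
  have hc5 : (((4 * c : ℕ) : ℝ) + 1) ^ (2 * m) ≤ (2 * (m : ℝ)) ^ (2 * m) := by
    apply pow_le_pow_left₀ (by positivity)
    have : 4 * c + 1 ≤ 2 * m := by rw [hm]; nlinarith
    exact_mod_cast this
  have hLmm : L ^ (m * (m - 1)) ≤ (D ^ ((1 : ℝ) / 8)) ^ m := by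
    rw [← hLm, ← pow_mul]
    exact pow_le_pow_right₀ hL1 (Nat.mul_le_mul_left m (by omega))
  have hQc : Q ^ c ≤ (D ^ ((1 : ℝ) / 8)) ^ m := by
    calc Q ^ c ≤ (D ^ (2 * c)) ^ c := pow_le_pow_left₀ hQ0.le hQD c
      _ = (D ^ ((1 : ℝ) / 8)) ^ m := by
          rw [← pow_mul, ← Real.rpow_natCast, ← Real.rpow_natCast, ← Real.rpow_mul hD0.le]
          congr 1
          rw [hm]
          push_cast
          ring
  obtain ⟨w, hw⟩ : ∃ w : ℝ, w = D ^ ((1 : ℝ) / 8) := ⟨_, rfl⟩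
  rw [← hw] at hLmm hQc
  have hw0 : 0 < w := by rw [hw]; positivity
  have hw2 : w * w = D ^ ((1 : ℝ) / 4) := by
    rw [hw, ← Real.rpow_add hD0]
    norm_num
  have hw4 : (w * w) * (w * w) = √D := by
    rw [hw2, ← Real.rpow_add hD0, Real.sqrt_eq_rpow]
    norm_num
  rw [← hw2] at hm4
  have hQm : Q ^ m = Q ^ (m - c) * Q ^ c := by
    rw [← pow_add]
    congr 1
    omega
  have h5 : |((Mat m x y σ).det : ℝ)| * Q ^ m < (N₁ : ℝ) ^ (m - c) * Q ^ m := by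
    have e2 : ε ^ (m - c) * Q ^ (m - c) = (N₁ : ℝ) ^ (m - c) := by
      rw [← mul_pow, hεd, div_mul_cancel₀ _ hQ0.ne']
    calc |((Mat m x y σ).det : ℝ)| * Q ^ m ≤
        ((2 * (m : ℝ)) ^ (2 * m) * ((2 * (m : ℝ)) ^ (2 * m) *
          ((10 * √Q * (2 * V)) ^ m * w ^ m * ε ^ (m - c)))) * (Q ^ (m - c) * w ^ m) := by
          rw [hQm]
          apply mul_le_mul (h3.trans _) (mul_le_mul_of_nonneg_left hQc (by positivity))
            (by positivity) (by positivity)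
          apply mul_le_mul hc5 _ (by positivity) (by positivity)
          apply mul_le_mul hfact _ (by positivity) (by positivity)
          apply mul_le_mul_of_nonneg_right _ (by positivity)
          exact mul_le_mul_of_nonneg_left hLmm (by positivity)
      _ = (320 * (m : ℝ) ^ 4 * (w * w) * (V * √Q)) ^ m * (ε ^ (m - c) * Q ^ (m - c)) := by
          rw [mul_comm 2 m, pow_mul]
          simp only [mul_pow]
          rw [← pow_mul, ← pow_mul, ← pow_mul]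
          have e4 : (320 : ℝ) ^ m = 2 ^ (m * 2) * 2 ^ (m * 2) * (10 ^ m * 2 ^ m) := by
            rw [← pow_add, ← mul_pow, show m * 2 + m * 2 = m * 4 by ring, mul_comm m 4, pow_mul,
              ← mul_pow]
            norm_num
          rw [e4]
          ring_nf
      _ = (320 * (m : ℝ) ^ 4 * (w * w) * (V * √Q)) ^ m * (N₁ : ℝ) ^ (m - c) := by rw [e2]
      _ < (Q) ^ m * (N₁ : ℝ) ^ (m - c) := by
          apply mul_lt_mul_of_pos_right _ (by positivity)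
          apply pow_lt_pow_left₀ _ (by positivity) (by omega)
          have hsQ : √Q * √Q = Q := Real.mul_self_sqrt hQ0.le
          have hsQ0 : 0 < √Q := Real.sqrt_pos.2 hQ0
          calc 320 * (m : ℝ) ^ 4 * (w * w) * (V * √Q) < (w * w) * (w * w) * (V * √Q) := by
                apply mul_lt_mul_of_pos_right _ (by positivity)
                exact mul_lt_mul_of_pos_right hm4 (by positivity)
            _ = (V * √D) * √Q := by rw [hw4]; ring
            _ ≤ √Q * √Q := mul_le_mul_of_nonneg_right hVQ hsQ0.le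
            _ = Q := hsQ
      _ = _ := mul_comm _ _
  have h6 := lt_of_mul_lt_mul_right h5 (by positivity)
  linarith

end Pool.Agent.U787.SP
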