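import Pool.Agent.U787.SP.J
import Pool.Agent.Q276.PL.All

/-!
# Inverting primes, part K: few radicands in a block
-/

set_option autoImplicit false

namespace Pool.Agent.U787.SP

open Polynomial Pool.Agent.W223.HZ Pool.Agent.W223.PL Pool.Agent.Q276.PL Pool.Agent.Q121.PL

theorem nsqR {P Q : ℤ[X]} {d₀ n R : ℤ} (hR : R ≠ 0)
    (hcop : IsCoprime (P.map (Int.castRingHom ℚ)) (Q.map (Int.castRingHom ℚ)))
    (hn : ¬ IsSquare n) : NonSq (C n * (Q ^ 2 - (C d₀ + C R * X) * P ^ 2)) := by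
  intro P₁ P₂ hne h0
  have hn0 : (n : ℚ) ≠ 0 := by
    intro h
    exact hn (by rw [Int.cast_eq_zero.mp h]; exact IsSquare.zero)
  have hR0 : (R : ℚ) ≠ 0 := by exact_mod_cast hR
  obtain ⟨φ, hφ⟩ : ∃ φ, φ = Int.castRingHom ℚ := ⟨_, rfl⟩
  have hinj : Function.Injective (Polynomial.map φ) := by
    rw [hφ]
    exact Polynomial.map_injective _ Int.cast_injective
  rw [← hφ] at hcop
  obtain ⟨p, hp⟩ : ∃ p, p = P.map φ := ⟨_, rfl⟩
  obtain ⟨q, hq⟩ : ∃ q, q = Q.map φ := ⟨_, rfl⟩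
  obtain ⟨p₁, hp₁⟩ : ∃ p, p = P₁.map φ := ⟨_, rfl⟩
  obtain ⟨p₂, hp₂⟩ : ∃ p, p = P₂.map φ := ⟨_, rfl⟩
  have hE : p₁ ^ 2 = p₂ ^ 2 * (C (n : ℚ) * (q ^ 2 - (C (d₀ : ℚ) + C (R : ℚ) * X) * p ^ 2)) := by
    have h1 := congrArg (Polynomial.map φ) (sub_eq_zero.mp h0)
    simp only [Polynomial.map_pow, Polynomial.map_mul, Polynomial.map_sub, Polynomial.map_add,
      Polynomial.map_C, Polynomial.map_X] at h1
    rw [hp, hq, hp₁, hp₂, h1, hφ]
    simp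
  have hp₂0 : p₂ ≠ 0 := by
    intro h
    have h1 : P₂ = 0 := by
      apply hinj
      rw [← hp₂, h, Polynomial.map_zero]
    rw [h, zero_pow two_ne_zero, zero_mul] at hE
    have h2 : P₁ = 0 := by
      apply hinj
      rw [← hp₁, Polynomial.map_zero]
      exact pow_eq_zero_iff two_ne_zero |>.mp hE
    rcases hne with h3 | h3
    · exact h3 h2
    · exact h3 h1
  have hdvd : p₂ ∣ p₁ := (IsIntegrallyClosed.pow_dvd_pow_iff two_ne_zero).mp ⟨_, hE⟩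
  obtain ⟨w, hw⟩ := hdvd
  have hW : w ^ 2 = C (n : ℚ) * (q ^ 2 - (C (d₀ : ℚ) + C (R : ℚ) * X) * p ^ 2) := by
    have h1 : p₂ ^ 2 * w ^ 2 = p₂ ^ 2 * (C (n : ℚ) * (q ^ 2 - (C (d₀ : ℚ) + C (R : ℚ) * X) * p ^ 2)) := by
      rw [← hE, hw]; ring
    exact mul_left_cancel₀ (pow_ne_zero 2 hp₂0) h1
  obtain ⟨r, hr⟩ : ∃ r : ℚ, r = -(d₀ : ℚ) / R := ⟨_, rfl⟩
  have hrR : (d₀ : ℚ) + R * r = 0 := by
    rw [hr]
    field_simp
    ring
  have e1 := congrArg (Polynomial.eval r) hW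
  simp only [eval_pow, eval_mul, eval_sub, eval_add, eval_C, eval_X] at e1
  have e2 : (eval r w) ^ 2 = (n : ℚ) * (eval r q) ^ 2 := by
    rw [e1, hrR]; ring
  have hq0 : eval r q = 0 := by
    by_contra h
    apply hn
    rw [← Rat.isSquare_intCast_iff]
    refine ⟨eval r w / eval r q, ?_⟩
    field_simp
    rw [e2]
  have hw0 : eval r w = 0 := by
    rw [hq0] at e2
    have : (eval r w) ^ 2 = 0 := by rw [e2]; ring
    exact pow_eq_zero_iff two_ne_zero |>.mp this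
  obtain ⟨q', hq'⟩ := dvd_iff_isRoot.mpr (show IsRoot q r from hq0)
  obtain ⟨w', hw'⟩ := dvd_iff_isRoot.mpr (show IsRoot w r from hw0)
  have hX : (C (d₀ : ℚ) + C (R : ℚ) * X : ℚ[X]) = C (R : ℚ) * (X - C r) := by
    have : (C (d₀ : ℚ) : ℚ[X]) = - (C (R : ℚ) * C r) := by
      rw [← C_mul, ← C_neg]
      congr 1
      linarith
    rw [this]
    ring
  have hX0 : (X - C r : ℚ[X]) ≠ 0 := X_sub_C_ne_zero _
  have hV : (X - C r) * w' ^ 2 =
      C (n : ℚ) * ((X - C r) * q' ^ 2 - C (R : ℚ) * p ^ 2) := by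
    apply mul_left_cancel₀ hX0
    have h1 := hW
    rw [hX, hq', hw'] at h1
    linear_combination h1
  have e3 := congrArg (Polynomial.eval r) hV
  simp only [eval_pow, eval_mul, eval_sub, eval_C, eval_X, sub_self, zero_mul, zero_sub] at e3
  have hp0 : eval r p = 0 := by
    have h1 : (n : ℚ) * (R * (eval r p) ^ 2) = 0 := by linarith
    rcases mul_eq_zero.mp h1 with h2 | h2
    · exact absurd h2 hn0
    · rcases mul_eq_zero.mp h2 with h3 | h3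
      · exact absurd h3 hR0
      · exact pow_eq_zero_iff two_ne_zero |>.mp h3
  obtain ⟨a, b, hab⟩ := hcop
  have e4 := congrArg (Polynomial.eval r) hab
  rw [← hp, ← hq] at e4
  simp only [eval_add, eval_mul, hp0, hq0, mul_zero, add_zero, eval_one] at e4
  exact zero_ne_one e4

theorem degR (A B : ℤ[X]) (d₀ R : ℤ) (m : ℕ) (hA : A.natDegree < m) (hB : B.natDegree < m) :
    (B ^ 2 - (C d₀ + C R * X) * A ^ 2).natDegree ≤ 2 * m := by
  refine (Polynomial.natDegree_sub_le _ _).trans (max_le ?_ ?_)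
  · refine Polynomial.natDegree_pow_le.trans ?_
    omega
  · refine Polynomial.natDegree_mul_le.trans ?_
    have h1 : (C d₀ + C R * X : ℤ[X]).natDegree ≤ 1 := by
      refine (Polynomial.natDegree_add_le _ _).trans (max_le ?_ ?_)
      · rw [Polynomial.natDegree_C]
        exact Nat.zero_le _
      · exact (natDegree_C_mul_le _ _).trans natDegree_X_le
    have h2 : (A ^ 2).natDegree ≤ 2 * A.natDegree := Polynomial.natDegree_pow_le
    omega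

/-- the size of the values -/
theorem bnd {D : ℝ} {m c : ℕ} (hm : 16 ≤ m) (hD : 1 ≤ D) (hlm : (m : ℝ) ≤ Real.log D) (hcm : c ≤ m) :
    4 * D ^ (2 * c) * ((m : ℝ) * (2 * m * (4 * D ^ (c + 1))) ^ (2 * m) * D) ≤
      Real.exp (40 * (m : ℝ) ^ 2 * Real.log D) := by
  have hDpos : 0 < D := by linarith
  obtain ⟨l, hl'⟩ : ∃ l, l = Real.log D := ⟨_, rfl⟩
  rw [← hl'] at hlm ⊢
  have hDe : D = Real.exp l := by rw [hl', Real.exp_log hDpos]
  have hm16 : (16 : ℝ) ≤ m := by exact_mod_cast hm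
  have hcm' : (c : ℝ) ≤ m := by exact_mod_cast hcm
  have hl1 : 16 ≤ l := hm16.trans hlm
  have hl0 : 0 ≤ l := by linarith
  have hle : l ≤ Real.exp l := by
    have := Real.add_one_le_exp l
    linarith
  have hme : (m : ℝ) ≤ Real.exp l := hlm.trans hle
  have h4e : (4 : ℝ) ≤ Real.exp l := by linarith
  have hK : 2 * (m : ℝ) * (4 * D ^ (c + 1)) ≤ Real.exp (5 * m * l) := by
    rw [hDe, ← Real.exp_nat_mul]
    calc 2 * (m : ℝ) * (4 * Real.exp (((c + 1 : ℕ) : ℝ) * l)) ≤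
        Real.exp l * Real.exp l * (Real.exp l * Real.exp (((c + 1 : ℕ) : ℝ) * l)) := by
          apply mul_le_mul _ _ (by positivity) (by positivity)
          · exact mul_le_mul (by linarith) hme (by positivity) (by positivity)
          · exact mul_le_mul_of_nonneg_right h4e (by positivity)
      _ = Real.exp (l + l + (l + ((c + 1 : ℕ) : ℝ) * l)) := by
          rw [Real.exp_add, Real.exp_add, Real.exp_add l]
      _ ≤ _ := by
          apply Real.exp_le_exp.2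
          push_cast
          nlinarith [mul_le_mul_of_nonneg_right hcm' hl0, mul_le_mul_of_nonneg_right hm16 hl0]
  calc 4 * D ^ (2 * c) * ((m : ℝ) * (2 * m * (4 * D ^ (c + 1))) ^ (2 * m) * D)
      ≤ Real.exp l * Real.exp (((2 * c : ℕ) : ℝ) * l) *
        (Real.exp l * Real.exp (5 * m * l) ^ (2 * m) * Real.exp l) := by
        apply mul_le_mul _ _ (by positivity) (by positivity)
        · rw [hDe, ← Real.exp_nat_mul]
          exact mul_le_mul_of_nonneg_right h4e (by positivity)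
        · apply mul_le_mul _ hDe.le (by positivity) (by positivity)
          exact mul_le_mul hme (pow_le_pow_left₀ (by positivity) hK _) (by positivity) (by positivity)
    _ = Real.exp (l + ((2 * c : ℕ) : ℝ) * l + (l + ((2 * m : ℕ) : ℝ) * (5 * m * l) + l)) := by
        rw [← Real.exp_nat_mul (5 * m * l), Real.exp_add, Real.exp_add, Real.exp_add, Real.exp_add]
    _ ≤ _ := by
        apply Real.exp_le_exp.2
        push_cast
        have h1 : (c : ℝ) * l ≤ m * l := mul_le_mul_of_nonneg_right hcm' hl0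
        have h2 : (m : ℝ) * l ≤ m ^ 2 * l := by
          apply mul_le_mul_of_nonneg_right _ hl0
          nlinarith
        have h3 : l ≤ (m : ℝ) ^ 2 * l := by nlinarith
        nlinarith

/-- the points of a block -/
def Pt (S : Finset ℕ) (n : ℕ → ℕ) (s : ℕ → ℤ) (N : ℤ) (V : ℝ) (d : ℤ) : Prop :=
  ∃ x y : ℤ, 0 ≤ x ∧ IsCoprime x y ∧ x ^ 2 - d * y ^ 2 = N ∧ V ≤ y ∧ (y : ℝ) < 2 * V ∧
    ∀ l ∈ S, 1 ≤ n l → (l : ℤ) ∣ x - s l * y

theorem block : ∀ {m c : ℕ} {S : Finset ℕ} (_ : ∀ l ∈ S, l.Prime) (_ : 2 ∉ S) (n : ℕ → ℕ)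
    (_ : 1 ≤ c) (_ : m = 16 * c ^ 2) {D V : ℝ} (_ : 4 ≤ D)
    (_ : 320 * (m : ℝ) ^ 4 < D ^ ((1 : ℝ) / 4)) (_ : (m : ℝ) ≤ Real.log D)
    {R : ℕ} (_ : 0 < R) (_ : ∀ l ∈ S, l ^ (kk c (n l)) ∣ R) (_ : (R : ℝ) ≤ D ^ ((3 : ℝ) / 8))
    {N₁ : ℕ} (_ : N₁ = ∏ l ∈ S, l ^ (n l)) {N : ℤ} (_ : (N₁ : ℤ) ∣ N)
    (_ : |(N : ℝ)| ≤ 4 * N₁) (_ : ¬ IsSquare N) (_ : (N₁ : ℝ) ≤ D ^ (2 * c))
    (_ : V ^ 2 * D ≤ D ^ (2 * c)) (_ : 1 ≤ V)
    {d₀ : ℤ} (_ : D ≤ d₀) (_ : (d₀ : ℝ) ≤ 2 * D) {s : ℕ → ℤ}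
    (_ : ∀ l ∈ S, 1 ≤ n l → (l : ℤ) ∣ s l ^ 2 - d₀) (_ : ∀ l ∈ S, ¬ (l : ℤ) ∣ d₀)
    (T : Finset ℤ) (_ : ∀ σ ∈ T, |(σ : ℝ)| ≤ D ^ (1 / (8 * (m : ℝ))))
    (_ : ∀ σ ∈ T, D ≤ ((d₀ + R * σ : ℤ) : ℝ) ∧ ((d₀ + R * σ : ℤ) : ℝ) ≤ 2 * D)
    (_ : ∀ σ ∈ T, Pt S n s N V (d₀ + R * σ)),
    (T.card : ℝ) ≤ 10 ^ 12 * D ^ (1 / (16 * (m : ℝ))) * ((m : ℝ) ^ 2 * Real.log D) ^ 3 := by
  intro m c S hS hS2 n hc hm D V hD4 hm4 hlm R hR0 hR hRD N₁ hN₁ N hN hN4 hNsq hN₁D hVD hV d₀ hd0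
    hd0' s hs hs0 T hσ hd hT
  have hMIN : StmtMIN := Pool.Agent.Q182.PL.min
  have hCUQ : StmtCUQ := cuq_true
  have hm1 : 1 ≤ m := by rw [hm]; nlinarith
  have hm16 : 16 ≤ m := by rw [hm]; nlinarith
  have hcm : c ≤ m := by rw [hm]; nlinarith
  have hm1R : (1 : ℝ) ≤ m := by exact_mod_cast hm1
  have hD1 : 1 ≤ D := by linarith
  have hD0 : 0 < D := by linarith
  have hl1 : 1 ≤ Real.log D := hm1R.trans hlm
  obtain ⟨Λ, hΛ⟩ : ∃ Λ, Λ = 40 * (m : ℝ) ^ 2 * Real.log D := ⟨_, rfl⟩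
  have hm2 : (1 : ℝ) ≤ (m : ℝ) ^ 2 := by nlinarith
  have hml : (m : ℝ) ≤ (m : ℝ) ^ 2 * Real.log D := by nlinarith
  have h40 : (40 : ℝ) * m ≤ Λ := by rw [hΛ]; linarith
  have hΛ1 : 1 ≤ Λ := by linarith
  obtain ⟨L, hL⟩ : ∃ L, L = D ^ (1 / (8 * (m : ℝ))) := ⟨_, rfl⟩
  have hL1 : 1 ≤ L := by rw [hL]; exact Real.one_le_rpow hD1 (by positivity)
  have hlog : Real.log (120 * √L * Λ) ≤ 2 * Λ := by
    rw [hL, hΛ]
    exact log_bnd D m hm1 hD1 hlm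
  have hsL : √L = D ^ (1 / (16 * (m : ℝ))) := by rw [hL]; exact sqrt_eq D m hm1 hD1
  have hsL1 : 1 ≤ √L := by rw [Real.one_le_sqrt]; exact hL1
  rw [← hsL]
  have hN₁1 : 1 ≤ N₁ := by
    rw [hN₁]
    exact Finset.prod_pos fun l hl => pow_pos (hS l hl).pos _
  have hN₁R : (1 : ℝ) ≤ N₁ := by exact_mod_cast hN₁1
  obtain ⟨Q, hQ⟩ : ∃ Q : ℝ, Q = max (N₁ : ℝ) (V ^ 2 * D) := ⟨_, rfl⟩
  have hQD : Q ≤ D ^ (2 * c) := by rw [hQ]; exact max_le hN₁D hVD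
  have hQN : (N₁ : ℝ) ≤ Q := by rw [hQ]; exact le_max_left _ _
  have hQV : V ^ 2 * D ≤ Q := by rw [hQ]; exact le_max_right _ _
  have hQ0 : 0 < Q := by linarith
  -- the reduction
  suffices hmain : (T.card : ℝ) ≤ (m : ℝ) ^ 2 + 400000 * √L * Λ ^ 3 by
    refine hmain.trans ?_
    obtain ⟨u, hu⟩ : ∃ u, u = (m : ℝ) ^ 2 * Real.log D := ⟨_, rfl⟩
    have hΛu : Λ = 40 * u := by rw [hΛ, hu]; ring
    rw [← hu, hΛu]
    have hu1 : 1 ≤ u := by rw [hu]; nlinarith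
    have h2 : (m : ℝ) ^ 2 ≤ u := by rw [hu]; nlinarith
    have h3 : u ≤ u ^ 3 := by
      nlinarith [mul_le_mul hu1 hu1 zero_le_one (by linarith : (0:ℝ) ≤ u), sq_nonneg u]
    have hu3 : 0 ≤ u ^ 3 := by positivity
    have h4 : u ^ 3 ≤ √L * u ^ 3 := by nlinarith
    have h5 : 400000 * √L * (40 * u) ^ 3 = 25600000000 * (√L * u ^ 3) := by ring
    rw [h5]
    have h6 : 0 ≤ √L * u ^ 3 := by positivity
    have h7 : 10 ^ 12 * √L * u ^ 3 = 10 ^ 12 * (√L * u ^ 3) := by ring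
    rw [h7]
    linarith
  unfold Pt at hT
  choose! x y hxy using hT
  rw [← hL] at hσ
  have hy1 : ∀ σ ∈ T, 1 ≤ y σ := by
    intro σ hσ'
    have h1 := hV.trans (hxy σ hσ').2.2.2.1
    exact_mod_cast h1
  -- sizes
  obtain ⟨H, hH⟩ : ∃ H : ℝ, H = 4 * D ^ (c + 1) := ⟨_, rfl⟩
  have hDc1 : 1 ≤ D ^ (c + 1) := one_le_pow₀ hD1
  have hDc0 : 1 ≤ D ^ c := one_le_pow₀ hD1
  have hH1 : 1 ≤ H := by rw [hH]; linarith
  have hLmD : L ^ m ≤ D := by
    rw [hL, ← Real.rpow_natCast, ← Real.rpow_mul hD0.le]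
    have h1 : 1 / (8 * (m : ℝ)) * m ≤ 1 := by
      rw [div_mul_eq_mul_div, one_mul, div_le_one (by positivity)]
      linarith
    have := Real.rpow_le_rpow_of_exponent_le hD1 h1
    rwa [Real.rpow_one] at this
  have hLm : ∀ j ≤ m, L ^ j ≤ D := fun j hj => (pow_le_pow_right₀ hL1 hj).trans hLmD
  have hxR : ∀ σ ∈ T, |(x σ : ℝ)| ≤ 4 * D ^ c := by
    intro σ hσT
    obtain ⟨hx1, hcp, heq, hyV, hyV2, -⟩ := hxy σ hσT
    have h1 : (x σ : ℝ) ^ 2 - ((d₀ + R * σ : ℤ) : ℝ) * (y σ : ℝ) ^ 2 = N := by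
      exact_mod_cast heq
    have h2 := (hd σ hσT).2
    have h3 : (0 : ℝ) ≤ y σ := by linarith
    have h4 : (y σ : ℝ) ^ 2 ≤ (2 * V) ^ 2 := pow_le_pow_left₀ h3 (by linarith) 2
    have h5 : ((d₀ + R * σ : ℤ) : ℝ) * (y σ : ℝ) ^ 2 ≤ 2 * D * (2 * V) ^ 2 :=
      mul_le_mul h2 h4 (by positivity) (by positivity)
    refine abs_le_of_sq_le_sq ?_ (by positivity)
    have h6 : (N : ℝ) ≤ 4 * Q := by
      have := le_abs_self (N : ℝ)
      linarith
    have h7 : (4 * D ^ c) ^ 2 = 16 * D ^ (2 * c) := by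
      rw [mul_pow, ← pow_mul, mul_comm c 2]
      norm_num
    rw [h7]
    nlinarith
  have hyR : ∀ σ ∈ T, |(y σ : ℝ)| ≤ 4 * D ^ c := by
    intro σ hσT
    obtain ⟨-, -, -, hyV, hyV2, -⟩ := hxy σ hσT
    rw [abs_of_nonneg (by linarith)]
    have h1 : V ≤ D ^ c := by
      apply abs_le_of_sq_le_sq _ (by positivity) |>.trans' (le_abs_self _)
      rw [← pow_mul, mul_comm c 2]
      refine le_trans ?_ hVD
      nlinarith [sq_nonneg V]
    linarith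
  have hHx : ∀ σ ∈ T, ∀ j < m, |((x σ * σ ^ j : ℤ) : ℝ)| ≤ H ∧
      |((y σ * σ ^ j : ℤ) : ℝ)| ≤ H := by
    intro σ hσT j hj
    have h0 : |(σ : ℝ) ^ j| ≤ D := by
      rw [abs_pow]
      exact (pow_le_pow_left₀ (abs_nonneg _) (hσ σ hσT) j).trans (hLm j hj.le)
    push_cast
    rw [abs_mul, abs_mul, hH, pow_succ, ← mul_assoc]
    exact ⟨mul_le_mul (hxR σ hσT) h0 (abs_nonneg _) (by positivity),
      mul_le_mul (hyR σ hσT) h0 (abs_nonneg _) (by positivity)⟩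
  -- the determinants vanish
  have hdet : ∀ f : Fin m ⊕ Fin m → ℤ, (∀ i, f i ∈ T) →
      (Mat m (fun i => x (f i)) (fun i => y (f i)) f).det = 0 := by
    intro f hf
    exact vanish hS hS2 n hc hm hD4 hm4 hR hRD hN₁ hN hN4 hQ hQD hd0 hd0' hs hs0
      (fun i => x (f i)) (fun i => y (f i)) f (fun i => (hxy _ (hf i)).2.1)
      (fun l hl hn i => (hxy _ (hf i)).2.2.2.2.2 l hl hn) (fun i => (hxy _ (hf i)).2.2.1)
      (fun i => (hxy _ (hf i)).1) (fun i => ⟨(hxy _ (hf i)).2.2.2.1, (hxy _ (hf i)).2.2.2.2.1⟩)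
      hV (fun i => (hd _ (hf i)).1) (fun i => by rw [← hL]; exact hσ _ (hf i))
  obtain ⟨T', hT'T, hT'c, A, B, hAB, hAd, hBd, hAc, hBc, hcop, hrel⟩ :=
    hMIN m hm1 T x y H hH1 hHx hdet
  have hT'c' : ((T \ T').card : ℝ) ≤ (m : ℝ) ^ 2 := by exact_mod_cast hT'c
  have hcard : (T.card : ℝ) ≤ T'.card + (m : ℝ) ^ 2 := by
    have h1 := Finset.card_sdiff_add_card_eq_card hT'T
    have h2 : (T.card : ℝ) = ((T \ T').card : ℝ) + T'.card := by exact_mod_cast h1.symm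
    linarith
  -- the points
  have hg : ∀ σ ∈ T', ∃ g : ℤ, A.eval σ = y σ * g ∧ B.eval σ = - x σ * g := by
    intro σ hσT
    have h1 := hrel σ hσT
    obtain ⟨hx1, hcp, heq, -⟩ := hxy σ (hT'T hσT)
    have h2 : y σ ∣ x σ * A.eval σ := by
      refine ⟨-B.eval σ, ?_⟩
      linear_combination h1
    obtain ⟨g, hg⟩ := hcp.symm.dvd_of_dvd_mul_left h2
    have hy0 : y σ ≠ 0 := by
      have := hy1 σ (hT'T hσT)
      omega
    refine ⟨g, hg, ?_⟩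
    apply mul_left_cancel₀ hy0
    rw [hg] at h1
    linear_combination h1
  have hNS : NonSq (C N * (B ^ 2 - (C d₀ + C (R : ℤ) * X) * A ^ 2)) :=
    nsqR (by exact_mod_cast hR0.ne') hcop hNsq
  have hdeg : (C N * (B ^ 2 - (C d₀ + C (R : ℤ) * X) * A ^ 2)).natDegree ≤ 2 * m :=
    (Polynomial.natDegree_C_mul_le _ _).trans (degR A B d₀ R m hAd hBd)
  have h1 := hCUQ (C N * (B ^ 2 - (C d₀ + C (R : ℤ) * X) * A ^ 2)) (2 * m) hdeg hNS L Λ hL1 hΛ1
      (by push_cast; linarith) T' (fun τ hτ => hσ τ (hT'T hτ)) (fun τ hτ => by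
        obtain ⟨g, hgA, hgB⟩ := hg τ hτ
        obtain ⟨hx1, hcp, heq, -⟩ := hxy τ (hT'T hτ)
        refine ⟨N * g, ?_, ?_⟩
        · rw [Polynomial.eval_mul, Polynomial.eval_C, Polynomial.eval_sub, Polynomial.eval_mul,
            Polynomial.eval_pow, Polynomial.eval_pow,
            Polynomial.eval_add, Polynomial.eval_C, Polynomial.eval_mul, Polynomial.eval_C,
            Polynomial.eval_X, hgA, hgB]
          linear_combination (-N * g ^ 2) * heq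
        · have h2 := val_bnd A m _ L τ hAd hAc hL1 (hσ τ (hT'T hτ))
          have h3 : |(g : ℝ)| ≤ |((A.eval τ : ℤ) : ℝ)| := by
            rw [hgA]
            push_cast
            rw [abs_mul]
            have hyy := hy1 τ (hT'T hτ)
            have h4 : (1 : ℝ) ≤ |(y τ : ℝ)| := by
              rw [abs_of_nonneg (by exact_mod_cast (by omega : (0 : ℤ) ≤ y τ))]
              exact_mod_cast hyy
            nlinarith [abs_nonneg (g : ℝ)]
          push_cast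
          rw [abs_mul, hΛ]
          refine le_trans ?_ (bnd hm16 hD1 hlm hcm)
          apply mul_le_mul _ _ (abs_nonneg _) (by positivity)
          · linarith
          · refine (h3.trans h2).trans ?_
            rw [hH]
            exact mul_le_mul_of_nonneg_left hLmD (by positivity))
  have h2 : 200000 * √L * Λ ^ 2 * Real.log (120 * √L * Λ) ≤ 200000 * √L * Λ ^ 2 * (2 * Λ) :=
    mul_le_mul_of_nonneg_left hlog (by positivity)
  have h4 : 200000 * √L * Λ ^ 2 * (2 * Λ) = 400000 * √L * Λ ^ 3 := by ring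
  rw [h4] at h2
  linarith

end Pool.Agent.U787.SP
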