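import Pool.Agent.U787.SP.C
import Pool.Agent.U787.SP.F
import Pool.Agent.U787.SP.K
import Pool.Agent.U787.VS.B

/-!
# Inverting primes, part L: the number of the exceptional radicands
-/

set_option autoImplicit false

namespace Pool.Agent.U787.SP

open Finset

/-- the bound for a block -/
noncomputable def WW (m : ℕ) (D : ℝ) : ℝ :=
  10 ^ 12 * D ^ (1 / (16 * (m : ℝ))) * ((m : ℝ) ^ 2 * Real.log D) ^ 3

theorem WW_nonneg {m : ℕ} {D : ℝ} (hD : 1 ≤ D) : 0 ≤ WW m D := by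
  unfold WW
  have h1 : 0 ≤ Real.log D := Real.log_nonneg hD
  have h2 : 0 ≤ D ^ (1 / (16 * (m : ℝ))) := Real.rpow_nonneg (by linarith) _
  positivity

/-- one class -/
theorem cls {m c : ℕ} {S : Finset ℕ} (hS : ∀ l ∈ S, l.Prime) (hS2 : 2 ∉ S) (n : ℕ → ℕ)
    (hc : 1 ≤ c) (hm : m = 16 * c ^ 2) {D V : ℝ} (hD4 : 4 ≤ D)
    (hm4 : 320 * (m : ℝ) ^ 4 < D ^ ((1 : ℝ) / 4)) (hlm : (m : ℝ) ≤ Real.log D)
    {R : ℕ} (hR0 : 0 < R) (hR : ∀ l ∈ S, l ^ (kk c (n l)) ∣ R) (hRD : (R : ℝ) ≤ D ^ ((3 : ℝ) / 8))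
    {N₁ : ℕ} (hN₁ : N₁ = ∏ l ∈ S, l ^ (n l)) {N : ℤ} (hN : (N₁ : ℤ) ∣ N)
    (hN4 : |(N : ℝ)| ≤ 4 * N₁) (hNsq : ¬ IsSquare N) (hN₁D : (N₁ : ℝ) ≤ D ^ (2 * c))
    (hVD : V ^ 2 * D ≤ D ^ (2 * c)) (hV : 1 ≤ V) (s : ℕ → ℤ) (a : ℤ) :
    ({d : ℤ | D < d ∧ (d : ℝ) ≤ 2 * D ∧ (R : ℤ) ∣ d - a ∧ (∀ l ∈ S, ¬ (l : ℤ) ∣ d) ∧
      (∀ l ∈ S, 1 ≤ n l → (l : ℤ) ∣ s l ^ 2 - d) ∧ Pt S n s N V d}.ncard : ℝ) ≤
      D / R * (2 * WW m D / D ^ (1 / (8 * (m : ℝ)))) := by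
  classical
  have hD1 : 1 ≤ D := by linarith
  have hD0 : 0 < D := by linarith
  have hRR : (0 : ℝ) < R := by exact_mod_cast hR0
  have hm1 : 1 ≤ m := by rw [hm]; nlinarith
  have hm1R : (1 : ℝ) ≤ m := by exact_mod_cast hm1
  obtain ⟨L, hL⟩ : ∃ L, L = D ^ (1 / (8 * (m : ℝ))) := ⟨_, rfl⟩
  have hL1 : 1 ≤ L := by rw [hL]; exact Real.one_le_rpow hD1 (by positivity)
  have hL0 : 0 < L := by linarith
  have hL8 : L ≤ D ^ ((1 : ℝ) / 8) := by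
    rw [hL]
    apply Real.rpow_le_rpow_of_exponent_le hD1
    apply one_div_le_one_div_of_le (by norm_num)
    linarith
  rw [← hL]
  obtain ⟨Z, hZ⟩ : ∃ Z : Set ℤ, Z = {σ : ℤ | D < ((a + R * σ : ℤ) : ℝ) ∧
      ((a + R * σ : ℤ) : ℝ) ≤ 2 * D ∧ (∀ l ∈ S, ¬ (l : ℤ) ∣ a + R * σ) ∧
      (∀ l ∈ S, 1 ≤ n l → (l : ℤ) ∣ s l ^ 2 - (a + R * σ)) ∧ Pt S n s N V (a + R * σ)} := ⟨_, rfl⟩
  have hZa : ∀ σ ∈ Z, (D - a) / R ≤ (σ : ℝ) ∧ (σ : ℝ) ≤ (D - a) / R + D / R := by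
    intro σ hσ
    rw [hZ] at hσ
    obtain ⟨h1, h2, -⟩ := hσ
    push_cast at h1 h2
    constructor
    · rw [div_le_iff₀ hRR]
      linarith
    · rw [← add_div, le_div_iff₀ hRR]
      linarith
  have hZfin : Z.Finite := by
    refine (Set.finite_Icc ⌈(D - a) / R⌉ ⌊(D - a) / R + D / R⌋).subset ?_
    intro σ hσ
    exact ⟨Int.ceil_le.2 (hZa σ hσ).1, Int.le_floor.2 (hZa σ hσ).2⟩
  have himg : {d : ℤ | D < d ∧ (d : ℝ) ≤ 2 * D ∧ (R : ℤ) ∣ d - a ∧ (∀ l ∈ S, ¬ (l : ℤ) ∣ d) ∧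
      (∀ l ∈ S, 1 ≤ n l → (l : ℤ) ∣ s l ^ 2 - d) ∧ Pt S n s N V d} ⊆
      (fun σ : ℤ => a + R * σ) '' Z := by
    rintro d ⟨h1, h2, ⟨σ, hσ⟩, h3, h4, h5⟩
    have e : d = a + R * σ := by linear_combination hσ
    refine ⟨σ, ?_, e.symm⟩
    rw [hZ]
    rw [e] at h1 h2 h3 h4 h5
    exact ⟨h1, h2, h3, h4, h5⟩
  have h1 : ({d : ℤ | D < d ∧ (d : ℝ) ≤ 2 * D ∧ (R : ℤ) ∣ d - a ∧ (∀ l ∈ S, ¬ (l : ℤ) ∣ d) ∧
      (∀ l ∈ S, 1 ≤ n l → (l : ℤ) ∣ s l ^ 2 - d) ∧ Pt S n s N V d}.ncard : ℝ) ≤ Z.ncard := by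
    have e1 := Set.ncard_le_ncard himg (hZfin.image _)
    have e2 := Set.ncard_image_le (f := fun σ : ℤ => a + R * σ) hZfin
    exact_mod_cast e1.trans e2
  refine h1.trans ?_
  refine U787.VS.cover Z ((D - a) / R) (D / R) L (2 * WW m D / L) hL0 ?_ hZfin hZa ?_
  · rw [le_div_iff₀ hRR]
    calc L * R ≤ D ^ ((1 : ℝ) / 8) * D ^ ((3 : ℝ) / 8) := mul_le_mul hL8 hRD hRR.le (by positivity)
      _ = D ^ ((1 : ℝ) / 2) := by rw [← Real.rpow_add hD0]; norm_num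
      _ ≤ D := by
          have := Real.rpow_le_rpow_of_exponent_le hD1 (by norm_num : (1 : ℝ) / 2 ≤ 1)
          rwa [Real.rpow_one] at this
  · intro b
    have e : L * (2 * WW m D / L) / 2 = WW m D := by
      field_simp
    rw [e]
    have hfin : (Z ∩ {σ : ℤ | b ≤ σ ∧ (σ : ℝ) ≤ b + L}).Finite := hZfin.subset Set.inter_subset_left
    rcases (Z ∩ {σ : ℤ | b ≤ σ ∧ (σ : ℝ) ≤ b + L}).eq_empty_or_nonempty with h0 | ⟨σ₀, hσ₀⟩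
    · rw [h0, Set.ncard_empty, Nat.cast_zero]
      exact WW_nonneg hD1
    · obtain ⟨T, hT⟩ : ∃ T : Finset ℤ, T = hfin.toFinset.image (fun σ => σ - σ₀) := ⟨_, rfl⟩
      have hTc : T.card = (Z ∩ {σ : ℤ | b ≤ σ ∧ (σ : ℝ) ≤ b + L}).ncard := by
        rw [hT, Finset.card_image_of_injective _ (fun a b h => by simpa using h),
          Set.ncard_eq_toFinset_card _ hfin]
      rw [← hTc]
      have hTm : ∀ τ ∈ T, (τ + σ₀ ∈ Z) ∧ |(τ : ℝ)| ≤ L := by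
        intro τ hτ
        rw [hT, Finset.mem_image] at hτ
        obtain ⟨σ, hσ, rfl⟩ := hτ
        rw [Set.Finite.mem_toFinset] at hσ
        refine ⟨by rw [sub_add_cancel]; exact hσ.1, ?_⟩
        have h2 := hσ.2
        have h3 := hσ₀.2
        simp only [Set.mem_ofPred_eq] at h2 h3
        push_cast
        rw [abs_le]
        constructor <;> linarith [h2.1, h2.2, h3.1, h3.2]
      have hσZ := hσ₀.1
      rw [hZ] at hσZ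
      obtain ⟨g1, g2, g3, g4, g5⟩ := hσZ
      unfold WW
      refine block hS hS2 n hc hm hD4 hm4 hlm hR0 hR hRD hN₁ hN hN4 hNsq hN₁D hVD hV
        (d₀ := a + R * σ₀) g1.le g2 g4 g3 T (fun τ hτ => by rw [← hL]; exact (hTm τ hτ).2) ?_ ?_
      · intro τ hτ
        have h2 := (hTm τ hτ).1
        rw [hZ] at h2
        have e2 : a + R * σ₀ + R * τ = a + R * (τ + σ₀) := by ring
        rw [e2]
        exact ⟨h2.1.le, h2.2.1⟩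
      · intro τ hτ
        have h2 := (hTm τ hτ).1
        rw [hZ] at h2
        have e2 : a + R * σ₀ + R * τ = a + R * (τ + σ₀) := by ring
        rw [e2]
        exact h2.2.2.2.2

/-- all classes -/
theorem allcls {m c : ℕ} {S : Finset ℕ} (hS : ∀ l ∈ S, l.Prime) (hS2 : 2 ∉ S) (n : ℕ → ℕ)
    (hc : 1 ≤ c) (hm : m = 16 * c ^ 2) {D V : ℝ} (hD4 : 4 ≤ D)
    (hm4 : 320 * (m : ℝ) ^ 4 < D ^ ((1 : ℝ) / 4)) (hlm : (m : ℝ) ≤ Real.log D)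
    {R : ℕ} (hR0 : 0 < R) (hR : ∀ l ∈ S, l ^ (kk c (n l)) ∣ R) (hRD : (R : ℝ) ≤ D ^ ((3 : ℝ) / 8))
    {N₁ : ℕ} (hN₁ : N₁ = ∏ l ∈ S, l ^ (n l)) {N : ℤ} (hN : (N₁ : ℤ) ∣ N)
    (hN4 : |(N : ℝ)| ≤ 4 * N₁) (hNsq : ¬ IsSquare N) (hN₁D : (N₁ : ℝ) ≤ D ^ (2 * c))
    (hVD : V ^ 2 * D ≤ D ^ (2 * c)) (hV : 1 ≤ V) (s : ℕ → ℤ)  :
    ({d : ℤ | D < d ∧ (d : ℝ) ≤ 2 * D ∧ (∀ l ∈ S, ¬ (l : ℤ) ∣ d) ∧
      (∀ l ∈ S, 1 ≤ n l → (l : ℤ) ∣ s l ^ 2 - d) ∧ Pt S n s N V d}.ncard : ℝ) ≤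
      D * (2 * WW m D / D ^ (1 / (8 * (m : ℝ)))) := by
  classical
  have hRR : (0 : ℝ) < R := by exact_mod_cast hR0
  have hfin : ∀ a : ℕ, {d : ℤ | D < d ∧ (d : ℝ) ≤ 2 * D ∧ (R : ℤ) ∣ d - (a : ℤ) ∧ (∀ l ∈ S, ¬ (l : ℤ) ∣ d) ∧
      (∀ l ∈ S, 1 ≤ n l → (l : ℤ) ∣ s l ^ 2 - d) ∧ Pt S n s N V d}.Finite := by
    intro a
    refine (Set.finite_Icc ⌈D⌉ ⌊2 * D⌋).subset ?_
    rintro d ⟨h1, h2, -⟩
    exact ⟨Int.ceil_le.2 h1.le, Int.le_floor.2 h2⟩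
  have hcov : {d : ℤ | D < d ∧ (d : ℝ) ≤ 2 * D ∧ (∀ l ∈ S, ¬ (l : ℤ) ∣ d) ∧
      (∀ l ∈ S, 1 ≤ n l → (l : ℤ) ∣ s l ^ 2 - d) ∧ Pt S n s N V d} ⊆
      (((Finset.range R).biUnion fun a => (hfin a).toFinset : Finset ℤ) : Set ℤ) := by
    rintro d ⟨h1, h2, h3, h4, h5⟩
    rw [Finset.mem_coe, Finset.mem_biUnion]
    have hRZ : (0 : ℤ) < R := by exact_mod_cast hR0
    have g1 := Int.emod_nonneg d hRZ.ne'
    have g2 := Int.emod_lt_of_pos d hRZ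
    refine ⟨(d % R).toNat, ?_, ?_⟩
    · rw [Finset.mem_range]
      omega
    · rw [Set.Finite.mem_toFinset]
      refine ⟨h1, h2, ?_, h3, h4, h5⟩
      rw [Int.toNat_of_nonneg g1]
      exact Int.dvd_self_sub_emod
  have h1 := Set.ncard_le_ncard hcov (Finset.finite_toSet _)
  rw [Set.ncard_coe_finset] at h1
  have h2 := h1.trans Finset.card_biUnion_le
  have h3 : (({d : ℤ | D < d ∧ (d : ℝ) ≤ 2 * D ∧ (∀ l ∈ S, ¬ (l : ℤ) ∣ d) ∧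
      (∀ l ∈ S, 1 ≤ n l → (l : ℤ) ∣ s l ^ 2 - d) ∧ Pt S n s N V d}.ncard : ℕ) : ℝ) ≤
      ∑ a ∈ Finset.range R, ((hfin a).toFinset.card : ℝ) := by exact_mod_cast h2
  refine h3.trans ?_
  have h4 : ∀ a ∈ Finset.range R, ((hfin a).toFinset.card : ℝ) ≤
      D / R * (2 * WW m D / D ^ (1 / (8 * (m : ℝ)))) := by
    intro a _
    rw [← Set.ncard_eq_toFinset_card _ (hfin a)]
    exact cls hS hS2 n hc hm hD4 hm4 hlm hR0 hR hRD hN₁ hN hN4 hNsq hN₁D hVD hV s a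
  refine (Finset.sum_le_sum h4).trans (le_of_eq ?_)
  rw [Finset.sum_const, Finset.card_range, nsmul_eq_mul]
  field_simp

end Pool.Agent.U787.SP
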