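import Pool.Agent.U787.SP.L

/-!
# Inverting primes, part M: the number of the exceptional radicands
-/

set_option autoImplicit false

namespace Pool.Agent.U787.SP

open Finset

/-- division by the greatest common divisor -/
theorem exc_coprimeT {S : Finset ℕ} {d : ℤ} {B Y : ℝ} (h : ExcT S d B Y) : ∃ N x y : ℤ,
    ¬ IsSquare N ∧ |(N : ℝ)| ≤ B ∧ (∀ q : ℕ, q.Prime → (q : ℤ) ∣ N → q = 2 ∨ q ∈ S) ∧
    ¬ (8 : ℤ) ∣ N ∧ 0 ≤ x ∧ IsCoprime x y ∧ x ^ 2 - d * y ^ 2 = N ∧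
    1 ≤ y ∧ (y : ℝ) ≤ Y := by
  obtain ⟨N, x, y, hN, hB, hSm, h8, he, hy1, hyY⟩ := h
  have hy0 : y ≠ 0 := by omega
  obtain ⟨g, hg⟩ : ∃ g : ℤ, g = Int.gcd x y := ⟨_, rfl⟩
  have hg0 : 0 < g := by
    rw [hg]
    exact_mod_cast Int.gcd_pos_of_ne_zero_right x hy0
  obtain ⟨x', hx'⟩ : g ∣ x := by rw [hg]; exact Int.gcd_dvd_left _ _
  obtain ⟨y', hy'⟩ : g ∣ y := by rw [hg]; exact Int.gcd_dvd_right _ _
  have hcop : IsCoprime x' y' := by
    have h1 := Int.gcd_eq_gcd_ab x y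
    rw [← hg, hx', hy'] at h1
    have h2 : g * 1 = g * (x' * Int.gcdA (g * x') (g * y') + y' * Int.gcdB (g * x') (g * y')) := by
      linear_combination h1
    have h3 := mul_left_cancel₀ hg0.ne' h2
    exact ⟨Int.gcdA (g * x') (g * y'), Int.gcdB (g * x') (g * y'), by linear_combination -h3⟩
  have hNN : N = g ^ 2 * (x' ^ 2 - d * y' ^ 2) := by
    rw [← he, hx', hy']
    ring
  have hg1 : (1 : ℤ) ≤ g ^ 2 := by nlinarith
  have hy'1 : 1 ≤ y' := by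
    have : 0 < g * y' := by omega
    by_contra hc
    have : y' ≤ 0 := by omega
    nlinarith
  refine ⟨x' ^ 2 - d * y' ^ 2, |x'|, y', ?_, ?_, ?_, ?_, abs_nonneg _, ?_, ?_, hy'1, ?_⟩
  · rintro ⟨r, hr⟩
    apply hN
    rw [hNN, hr]
    exact ⟨g * r, by ring⟩
  · refine le_trans ?_ hB
    rw [hNN]
    push_cast
    rw [abs_mul]
    have h1 : (1 : ℝ) ≤ |(g : ℝ) ^ 2| := by
      rw [abs_of_nonneg (by positivity)]
      exact_mod_cast hg1
    have h2 := abs_nonneg ((x' : ℝ) ^ 2 - d * (y' : ℝ) ^ 2)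
    nlinarith
  · intro q hq hqd
    apply hSm q hq
    rw [hNN]
    exact hqd.mul_left _
  · intro h
    apply h8
    rw [hNN]
    exact h.mul_left _
  · rcases abs_choice x' with h | h
    · rwa [h]
    · rw [h]
      exact hcop.neg_left
  · rw [sq_abs]
  · refine le_trans ?_ hyY
    have : y' ≤ y := by rw [hy']; nlinarith
    exact_mod_cast this

/-- the exponents -/
def ex (N : ℤ) (l : ℕ) : ℕ := N.natAbs.factorization l

/-- the odd part -/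
def od (S : Finset ℕ) (N : ℤ) : ℕ := ∏ l ∈ S, l ^ ex N l

/-- the modulus -/
def Rm (S : Finset ℕ) (c : ℕ) (N : ℤ) : ℕ := ∏ l ∈ S, l ^ kk c (ex N l)

theorem od_spec {S : Finset ℕ} (hS2 : 2 ∉ S) {N : ℤ} (hN0 : N ≠ 0)
    (hSm : ∀ q : ℕ, q.Prime → (q : ℤ) ∣ N → q = 2 ∨ q ∈ S) (h8 : ¬ (8 : ℤ) ∣ N) :
    ((od S N : ℕ) : ℤ) ∣ N ∧ |(N : ℝ)| ≤ 4 * od S N := by
  have hn0 : N.natAbs ≠ 0 := Int.natAbs_ne_zero.2 hN0
  have h1 : N.natAbs = 2 ^ (ex N 2) * od S N := by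
    conv_lhs => rw [← Nat.prod_factorization_pow_eq_self hn0]
    rw [Finsupp.prod_of_support_subset _ (s := insert 2 S) _ _ (fun i _ => pow_zero i),
      Finset.prod_insert hS2]
    · rfl
    · intro q hq
      rw [Nat.support_factorization] at hq
      rw [Finset.mem_insert]
      apply hSm q (Nat.prime_of_mem_primeFactors hq)
      rw [← Int.dvd_natAbs]
      exact_mod_cast Nat.dvd_of_mem_primeFactors hq
  have h2 : ex N 2 ≤ 2 := by
    by_contra hc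
    apply h8
    rw [← Int.dvd_natAbs]
    have h3 : 2 ^ 3 ∣ N.natAbs := by
      rw [h1]
      exact (pow_dvd_pow 2 (by omega)).mul_right _
    exact_mod_cast h3
  constructor
  · rw [← Int.dvd_natAbs]
    exact_mod_cast (Dvd.intro_left _ h1.symm)
  · have h3 : ((N.natAbs : ℕ) : ℝ) = |(N : ℝ)| := by rw [Nat.cast_natAbs, Int.cast_abs]
    rw [← h3, h1]
    push_cast
    apply mul_le_mul_of_nonneg_right _ (Nat.cast_nonneg _)
    calc (2 : ℝ) ^ (ex N 2) ≤ 2 ^ 2 := pow_le_pow_right₀ (by norm_num) h2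
      _ = 4 := by norm_num

theorem Rm_le {S : Finset ℕ} (hS : ∀ l ∈ S, l.Prime) {c : ℕ} (hc : 1 ≤ c) {N : ℤ} {D : ℝ}
    (hD : 1 ≤ D) (hN₁ : (od S N : ℝ) ≤ D ^ c) (hPi : ((∏ l ∈ S, l : ℕ) : ℝ) ≤ D ^ ((1 : ℝ) / 8)) :
    (Rm S c N : ℝ) ≤ D ^ ((3 : ℝ) / 8) := by
  have hD0 : 0 < D := by linarith
  have h1 : Rm S c N ^ (4 * c) ≤ od S N * (∏ l ∈ S, l) ^ (4 * c) := by
    unfold Rm od
    rw [← Finset.prod_pow, ← Finset.prod_pow, ← Finset.prod_mul_distrib]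
    apply Finset.prod_le_prod (fun _ _ => Nat.zero_le _)
    intro l hl
    rw [← pow_mul, ← pow_add]
    apply Nat.pow_le_pow_right (hS l hl).pos
    have := kk_le (n := ex N l) hc
    rw [mul_comm]
    exact this
  have h2 : (Rm S c N : ℝ) ^ (4 * c) ≤ (D ^ ((3 : ℝ) / 8)) ^ (4 * c) := by
    calc (Rm S c N : ℝ) ^ (4 * c) ≤ (od S N : ℝ) * (((∏ l ∈ S, l : ℕ) : ℝ)) ^ (4 * c) := by
          exact_mod_cast h1
      _ ≤ D ^ c * (D ^ ((1 : ℝ) / 8)) ^ (4 * c) :=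
          mul_le_mul hN₁ (pow_le_pow_left₀ (Nat.cast_nonneg _) hPi _) (by positivity) (by positivity)
      _ = (D ^ ((3 : ℝ) / 8)) ^ (4 * c) := by
          rw [← Real.rpow_natCast, ← Real.rpow_natCast, ← Real.rpow_natCast, ← Real.rpow_mul hD0.le,
            ← Real.rpow_mul hD0.le, ← Real.rpow_add hD0]
          congr 1
          push_cast
          ring
  exact (pow_le_pow_iff_left₀ (Nat.cast_nonneg _) (by positivity) (by omega)).1 h2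

/-- the choice of the square roots -/
theorem choose_s {S : Finset ℕ} (hS : ∀ l ∈ S, l.Prime) {N x y d : ℤ} (hcop : IsCoprime x y)
    (heq : x ^ 2 - d * y ^ 2 = N) : ∃ s ∈ S.pi (fun l => Finset.range l),
    ∀ l (hl : l ∈ S), 1 ≤ ex N l → (l : ℤ) ∣ x - s l hl * y ∧ (l : ℤ) ∣ (s l hl : ℤ) ^ 2 - d := by
  have key : ∀ l ∈ S, ∃ s : ℕ, s < l ∧ (1 ≤ ex N l → (l : ℤ) ∣ x - s * y ∧ (l : ℤ) ∣ (s : ℤ) ^ 2 - d) := by
    intro l hl
    have hlp := hS l hl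
    have hlI : Prime (l : ℤ) := Nat.prime_iff_prime_int.1 hlp
    by_cases he : 1 ≤ ex N l
    · have hlN : (l : ℤ) ∣ N := by
        rw [← Int.dvd_natAbs]
        have := Nat.dvd_of_factorization_pos (n := N.natAbs) (p := l) (by unfold ex at he; omega)
        exact_mod_cast this
      have hly : ¬ (l : ℤ) ∣ y := by
        intro hd
        have hx2 : (l : ℤ) ∣ x ^ 2 := by
          have e : x ^ 2 = N + d * y * y := by linear_combination heq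
          rw [e]
          exact dvd_add hlN (hd.mul_left _)
        have hx : (l : ℤ) ∣ x := hlI.dvd_of_dvd_pow hx2
        exact hlI.not_isUnit (hcop.isUnit_of_dvd' hx hd)
      obtain ⟨u, v, huv⟩ := (Prime.coprime_iff_not_dvd hlI).2 hly
      have hlpos : (0 : ℤ) < l := by exact_mod_cast hlp.pos
      have g1 := Int.emod_nonneg (x * v) hlpos.ne'
      have g2 := Int.emod_lt_of_pos (x * v) hlpos
      refine ⟨((x * v) % l).toNat, by omega, fun _ => ?_⟩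
      rw [Int.toNat_of_nonneg g1]
      have h1 : (l : ℤ) ∣ x - (x * v) % l * y := by
        obtain ⟨w, hw⟩ : (l : ℤ) ∣ x * v - (x * v) % l := Int.dvd_self_sub_emod
        refine ⟨x * u + w * y, ?_⟩
        linear_combination x * huv.symm + y * hw
      refine ⟨h1, ?_⟩
      have h2 : (l : ℤ) ∣ y * y * (((x * v) % l) ^ 2 - d) := by
        have e : y * y * (((x * v) % l) ^ 2 - d) =
            N - (x - (x * v) % l * y) * (x + (x * v) % l * y) := by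
          linear_combination heq
        rw [e]
        exact dvd_sub hlN (h1.mul_right _)
      rcases hlI.dvd_or_dvd h2 with h3 | h3
      · rcases hlI.dvd_or_dvd h3 with h4 | h4 <;> exact absurd h4 hly
      · exact h3
    · exact ⟨0, hlp.pos, fun h => absurd h he⟩
  choose s hs1 hs2 using key
  refine ⟨s, ?_, fun l hl => hs2 l hl⟩
  rw [Finset.mem_pi]
  intro l hl
  rw [Finset.mem_range]
  exact hs1 l hl

/-- extension by zero -/
noncomputable def ext (S : Finset ℕ) (s : ∀ l ∈ S, ℕ) (l : ℕ) : ℤ :=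
  open scoped Classical in if h : l ∈ S then (s l h : ℤ) else 0

theorem ext_eq {S : Finset ℕ} (s : ∀ l ∈ S, ℕ) {l : ℕ} (h : l ∈ S) : ext S s l = s l h := by
  unfold ext
  rw [dif_pos h]

/-- the number of the exceptional radicands -/
theorem countT {m c : ℕ} {S : Finset ℕ} (hS : ∀ l ∈ S, l.Prime) (hS2 : 2 ∉ S)
    (hc : 2 ≤ c) (hm : m = 16 * c ^ 2) {D : ℝ} (hD4 : 4 ≤ D)
    (hm4 : 320 * (m : ℝ) ^ 4 < D ^ ((1 : ℝ) / 4)) (hlm : (m : ℝ) ≤ Real.log D)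
    (hPi : ((∏ l ∈ S, l : ℕ) : ℝ) ≤ D ^ ((1 : ℝ) / 8)) :
    ({d : ℤ | D < d ∧ (d : ℝ) ≤ 2 * D ∧ (∀ l ∈ S, ¬ (l : ℤ) ∣ d) ∧
      ExcT S d (4 * D ^ (c - 1)) (D ^ (c - 1))}.ncard : ℝ) ≤
      (2 * (2 * (c * Real.log D) + 1) ^ (S.card + 1)) * (2 * c * Real.log D + 1) *
      ((∏ l ∈ S, l : ℕ) : ℝ) * (D * (2 * WW m D / D ^ (1 / (8 * (m : ℝ))))) := by
  classical
  have hc1 : 1 ≤ c := by omega
  have hD1 : 1 ≤ D := by linarith
  have hD0 : 0 < D := by linarith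
  have hlD : 0 ≤ Real.log D := Real.log_nonneg hD1
  obtain ⟨G, hG⟩ : ∃ G : ℝ, G = D * (2 * WW m D / D ^ (1 / (8 * (m : ℝ)))) := ⟨_, rfl⟩
  have hG0 : 0 ≤ G := by
    rw [hG]
    have := WW_nonneg (m := m) hD1
    positivity
  rw [← hG]
  obtain ⟨B, hB⟩ : ∃ B : ℝ, B = 4 * D ^ (c - 1) := ⟨_, rfl⟩
  rw [← hB]
  have hDc : B ≤ D ^ c := by
    rw [hB]
    calc 4 * D ^ (c - 1) ≤ D * D ^ (c - 1) := mul_le_mul_of_nonneg_right hD4 (by positivity)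
      _ = D ^ c := by rw [← pow_succ', Nat.sub_add_cancel hc1]
  have hB1 : 1 ≤ B := by
    rw [hB]
    have : 1 ≤ D ^ (c - 1) := one_le_pow₀ hD1
    linarith
  have hDc2 : D ^ c ≤ D ^ (2 * c) := pow_le_pow_right₀ hD1 (by omega)
  obtain ⟨Z, hZ⟩ : ∃ Z : ℤ → ℕ → (∀ l ∈ S, ℕ) → Set ℤ, Z = fun (N : ℤ) (i : ℕ) (s : ∀ l ∈ S, ℕ) =>
    {d : ℤ | D < d ∧ (d : ℝ) ≤ 2 * D ∧ (∀ l ∈ S, ¬ (l : ℤ) ∣ d) ∧
      (∀ l ∈ S, 1 ≤ ex N l → (l : ℤ) ∣ ext S s l ^ 2 - d) ∧ Pt S (ex N) (ext S s) N (2 ^ i) d} :=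
    ⟨_, rfl⟩
  have hZfin : ∀ N i s, (Z N i s).Finite := by
    intro N i s
    refine (Set.finite_Icc ⌈D⌉ ⌊2 * D⌋).subset ?_
    rw [hZ]
    rintro d ⟨h1, h2, -⟩
    exact ⟨Int.ceil_le.2 h1.le, Int.le_floor.2 h2⟩
  -- the bound for one index
  have hone : ∀ (N : ℤ) (i : ℕ) (s : ∀ l ∈ S, ℕ), ¬ IsSquare N → |(N : ℝ)| ≤ B →
      (∀ q : ℕ, q.Prime → (q : ℤ) ∣ N → q = 2 ∨ q ∈ S) → ¬ (8 : ℤ) ∣ N →
      (2 : ℝ) ^ i ≤ D ^ (c - 1) → (((hZfin N i s).toFinset).card : ℝ) ≤ G := by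
    intro N i s hNsq hNB hSm h8 hi
    have hN0 : N ≠ 0 := by
      rintro rfl
      exact hNsq IsSquare.zero
    obtain ⟨h1, h2⟩ := od_spec hS2 hN0 hSm h8
    have hodN : (od S N : ℝ) ≤ |(N : ℝ)| := by
      have h3 := Int.le_of_dvd (abs_pos.2 hN0) ((dvd_abs _ _).2 h1)
      have h4 : (((od S N : ℕ) : ℤ) : ℝ) ≤ ((|N| : ℤ) : ℝ) := by exact_mod_cast h3
      simpa using h4
    have hodD : (od S N : ℝ) ≤ D ^ c := hodN.trans (hNB.trans hDc)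
    have hRpos : 0 < Rm S c N := Finset.prod_pos fun l hl => pow_pos (hS l hl).pos _
    rw [← Set.ncard_eq_toFinset_card _ (hZfin N i s), hZ, hG]
    refine allcls hS hS2 (ex N) hc1 hm hD4 hm4 hlm hRpos
      (fun l hl => Finset.dvd_prod_of_mem (fun l => l ^ kk c (ex N l)) hl)
      (Rm_le hS hc1 hD1 hodD hPi) (N₁ := od S N) rfl h1 h2 hNsq (hodD.trans hDc2) ?_
      (one_le_pow₀ (by norm_num)) (ext S s)
    calc ((2 : ℝ) ^ i) ^ 2 * D ≤ (D ^ (c - 1)) ^ 2 * D :=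
          mul_le_mul_of_nonneg_right (pow_le_pow_left₀ (by positivity) hi 2) hD0.le
      _ = D ^ ((c - 1) * 2 + 1) := by rw [← pow_mul, ← pow_succ]
      _ ≤ D ^ (2 * c) := pow_le_pow_right₀ hD1 (by omega)
  -- the index set
  obtain ⟨Ns, hNs⟩ : ∃ Ns : Finset ℤ, Ns = (Finset.Icc (-(⌊B⌋₊ : ℤ)) ⌊B⌋₊).filter
    (fun N => ¬ IsSquare N ∧ (∀ q : ℕ, q.Prime → (q : ℤ) ∣ N → q = 2 ∨ q ∈ S) ∧ ¬ (8 : ℤ) ∣ N) :=
    ⟨_, rfl⟩
  obtain ⟨Is, hIs⟩ : ∃ Is : Finset ℕ, Is =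
    (Finset.range (⌊2 * c * Real.log D⌋₊ + 1)).filter (fun i => (2 : ℝ) ^ i ≤ D ^ (c - 1)) :=
    ⟨_, rfl⟩
  obtain ⟨J, hJ⟩ : ∃ J : Finset (ℤ × ℕ × (∀ l ∈ S, ℕ)), J = Ns ×ˢ (Is ×ˢ S.pi (fun l => Finset.range l)) :=
    ⟨_, rfl⟩
  have hcov : {d : ℤ | D < d ∧ (d : ℝ) ≤ 2 * D ∧ (∀ l ∈ S, ¬ (l : ℤ) ∣ d) ∧
      ExcT S d B (D ^ (c - 1))} ⊆
      ((J.biUnion fun p => (hZfin p.1 p.2.1 p.2.2).toFinset : Finset ℤ) : Set ℤ) := by
    rintro d ⟨h1, h2, h3, h4⟩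
    obtain ⟨N, x, y, hN, hNB, hNS, h8, hx0, hcop, heq, hy1, hy⟩ := exc_coprimeT h4
    have hN0 : N ≠ 0 := by
      rintro rfl
      exact hN IsSquare.zero
    obtain ⟨s, hsm, hs⟩ := choose_s hS hcop heq
    obtain ⟨n, rfl⟩ : ∃ n : ℕ, y = n := ⟨y.toNat, by omega⟩
    have hn : n ≠ 0 := by
      rintro rfl
      simp at hy1
    obtain ⟨i, hi⟩ : ∃ i : ℕ, i = Nat.log 2 n := ⟨_, rfl⟩
    have hi1 : 2 ^ i ≤ n := by
      rw [hi]
      exact Nat.pow_log_le_self 2 hn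
    have hi2 : n < 2 ^ (i + 1) := by
      rw [hi]
      exact Nat.lt_pow_succ_log_self (by norm_num) n
    have hi3 : (2 : ℝ) ^ i ≤ n := by exact_mod_cast hi1
    have hi4 : (n : ℝ) < 2 * 2 ^ i := by
      have : (n : ℝ) < 2 ^ (i + 1) := by exact_mod_cast hi2
      rw [pow_succ] at this
      linarith
    have hyn : (n : ℝ) ≤ D ^ (c - 1) := by exact_mod_cast hy
    have hi5 : (2 : ℝ) ^ i ≤ D ^ (c - 1) := hi3.trans hyn
    have hi6 : (i : ℝ) ≤ 2 * c * Real.log D := by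
      have e1 := Real.log_le_log (by positivity) hi5
      rw [Real.log_pow, Real.log_pow] at e1
      have e2 : (1 : ℝ) / 2 ≤ Real.log 2 := by
        have := Real.log_two_gt_d9
        linarith
      have e3 : (i : ℝ) * (1 / 2) ≤ i * Real.log 2 :=
        mul_le_mul_of_nonneg_left e2 (Nat.cast_nonneg i)
      have e4 : (((c - 1 : ℕ)) : ℝ) * Real.log D ≤ c * Real.log D := by
        apply mul_le_mul_of_nonneg_right _ hlD
        exact_mod_cast Nat.sub_le c 1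
      linarith
    have hNabs : N.natAbs ≤ ⌊B⌋₊ := by
      apply Nat.le_floor
      have : ((N.natAbs : ℕ) : ℝ) = |(N : ℝ)| := by
        rw [Nat.cast_natAbs, Int.cast_abs]
      rw [this]
      exact hNB
    rw [Finset.mem_coe, Finset.mem_biUnion]
    refine ⟨(N, i, s), ?_, ?_⟩
    · rw [hJ, Finset.mem_product, Finset.mem_product, hNs, hIs, Finset.mem_filter, Finset.mem_filter,
        Finset.mem_range, Finset.mem_Icc]
      exact ⟨⟨⟨by simp only; omega, by simp only; omega⟩, hN, hNS, h8⟩,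
        ⟨Nat.lt_succ_of_le (Nat.le_floor hi6), hi5⟩, hsm⟩
    · rw [Set.Finite.mem_toFinset, hZ]
      refine ⟨h1, h2, h3, ?_, x, n, hx0, hcop, heq, ?_, ?_, ?_⟩
      · intro l hl he
        rw [ext_eq s hl]
        exact (hs l hl he).2
      · exact_mod_cast hi3
      · exact_mod_cast hi4
      · intro l hl he
        rw [ext_eq s hl]
        exact (hs l hl he).1
  have h1 := Set.ncard_le_ncard hcov (Finset.finite_toSet _)
  rw [Set.ncard_coe_finset] at h1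
  have h2 : (J.biUnion fun p => (hZfin p.1 p.2.1 p.2.2).toFinset).card ≤ J.card * ⌊G⌋₊ := by
    refine Finset.card_biUnion_le_card_mul _ _ _ fun p hp => ?_
    rw [hJ, Finset.mem_product, Finset.mem_product, hNs, hIs, Finset.mem_filter, Finset.mem_filter,
      Finset.mem_Icc] at hp
    refine Nat.le_floor (hone p.1 p.2.1 p.2.2 hp.1.2.1 ?_ hp.1.2.2.1 hp.1.2.2.2 hp.2.1.2)
    have e1 : p.1.natAbs ≤ ⌊B⌋₊ := by
      have e2 := hp.1.1.1
      have e3 := hp.1.1.2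
      omega
    have e4 : ((p.1.natAbs : ℕ) : ℝ) = |(p.1 : ℝ)| := by
      rw [Nat.cast_natAbs, Int.cast_abs]
    rw [← e4]
    exact (Nat.cast_le.2 e1).trans (Nat.floor_le (by linarith))
  have hb1 : 1 ≤ ⌊B⌋₊ := Nat.le_floor (by exact_mod_cast hB1)
  have hlog2 : ((Nat.log 2 ⌊B⌋₊ + 1 : ℕ) : ℝ) ≤ 2 * (c * Real.log D) + 1 := by
    have e1 : 2 ^ (Nat.log 2 ⌊B⌋₊) ≤ ⌊B⌋₊ := Nat.pow_log_le_self 2 (by omega)
    have e2 : ((2 : ℝ)) ^ (Nat.log 2 ⌊B⌋₊) ≤ D ^ c := by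
      have : ((2 : ℝ)) ^ (Nat.log 2 ⌊B⌋₊) ≤ (⌊B⌋₊ : ℝ) := by exact_mod_cast e1
      exact this.trans ((Nat.floor_le (by linarith)).trans hDc)
    have e3 := Real.log_le_log (by positivity) e2
    rw [Real.log_pow, Real.log_pow] at e3
    have e4 : (1 : ℝ) / 2 ≤ Real.log 2 := by
      have := Real.log_two_gt_d9
      linarith
    have e5 : ((Nat.log 2 ⌊B⌋₊ : ℕ) : ℝ) * (1 / 2) ≤ (Nat.log 2 ⌊B⌋₊ : ℕ) * Real.log 2 :=
      mul_le_mul_of_nonneg_left e4 (Nat.cast_nonneg _)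
    push_cast
    linarith
  have hNsc : Ns.card ≤ 2 * (Nat.log 2 ⌊B⌋₊ + 1) ^ (S.card + 1) := by
    have e1 := card_smooth (insert 2 S) ⌊B⌋₊
    rw [Finset.card_insert_of_notMem hS2] at e1
    refine le_trans (Finset.card_le_card ?_) e1
    rw [hNs]
    intro N hN
    rw [Finset.mem_filter] at hN ⊢
    refine ⟨hN.1, hN.2.1, fun q hq hqd => ?_⟩
    rw [Finset.mem_insert]
    exact hN.2.2.1 q hq hqd
  have h3 : (J.card : ℝ) ≤ (2 * (2 * (c * Real.log D) + 1) ^ (S.card + 1)) *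
      (2 * c * Real.log D + 1) * ((∏ l ∈ S, l : ℕ) : ℝ) := by
    have e1 : J.card ≤ (2 * (Nat.log 2 ⌊B⌋₊ + 1) ^ (S.card + 1)) * ((⌊2 * c * Real.log D⌋₊ + 1) *
        (∏ l ∈ S, l)) := by
      rw [hJ, Finset.card_product, Finset.card_product, Finset.card_pi]
      refine Nat.mul_le_mul hNsc (Nat.mul_le_mul ?_ ?_)
      · rw [hIs]
        refine (Finset.card_filter_le _ _).trans ?_
        rw [Finset.card_range]
      · simp only [Finset.card_range]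
        exact le_refl _
    have e2 : (J.card : ℝ) ≤ (2 * ((Nat.log 2 ⌊B⌋₊ + 1 : ℕ) : ℝ) ^ (S.card + 1)) *
        (((⌊2 * c * Real.log D⌋₊ : ℝ) + 1) * ((∏ l ∈ S, l : ℕ) : ℝ)) := by
      exact_mod_cast e1
    refine e2.trans ?_
    have e4 : (⌊2 * c * Real.log D⌋₊ : ℝ) ≤ 2 * c * Real.log D := Nat.floor_le (by positivity)
    have e5 : ((Nat.log 2 ⌊B⌋₊ + 1 : ℕ) : ℝ) ^ (S.card + 1) ≤
        (2 * (c * Real.log D) + 1) ^ (S.card + 1) :=
      pow_le_pow_left₀ (Nat.cast_nonneg _) hlog2 _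
    have e6 : (2 * (2 * (c * Real.log D) + 1) ^ (S.card + 1)) *
      (2 * c * Real.log D + 1) * ((∏ l ∈ S, l : ℕ) : ℝ) =
      (2 * (2 * (c * Real.log D) + 1) ^ (S.card + 1)) *
      ((2 * c * Real.log D + 1) * ((∏ l ∈ S, l : ℕ) : ℝ)) := by ring
    rw [e6]
    exact mul_le_mul (by linarith) (mul_le_mul_of_nonneg_right (by linarith) (Nat.cast_nonneg _))
      (by positivity) (by positivity)
  have h4 : ((J.biUnion fun p => (hZfin p.1 p.2.1 p.2.2).toFinset).card : ℝ) ≤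
      (J.card : ℝ) * (⌊G⌋₊ : ℝ) := by
    exact_mod_cast h2
  have h5 : (⌊G⌋₊ : ℝ) ≤ G := Nat.floor_le hG0
  calc _ ≤ ((J.biUnion fun p => (hZfin p.1 p.2.1 p.2.2).toFinset).card : ℝ) := by exact_mod_cast h1
    _ ≤ (J.card : ℝ) * (⌊G⌋₊ : ℝ) := h4
    _ ≤ _ := mul_le_mul h3 h5 (Nat.cast_nonneg _) (by positivity)

end Pool.Agent.U787.SP
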