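import Pool.Agent.U787.SP.M

/-!
# Inverting primes, part N: the final bound for the number of the exceptional radicands
-/

set_option autoImplicit false

namespace Pool.Agent.U787.SP

open Finset Filter

/-- the final count -/
theorem numT (S : Finset ℕ) (hS : ∀ l ∈ S, l.Prime) (hS2 : 2 ∉ S) : ∃ C : ℝ, 512 ≤ C ∧
    ∀ (x : ℝ) (c : ℕ), C ≤ x → 2 ≤ c → C * (c : ℝ) ^ 2 * Real.log (Real.log x) ≤ Real.log x →
    ({d : ℤ | x < d ∧ (d : ℝ) ≤ 2 * x ∧ (∀ l ∈ S, ¬ (l : ℤ) ∣ d) ∧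
      ExcT S d (4 * x ^ (c - 1)) (x ^ (c - 1))}.ncard : ℝ) ≤ x / x ^ (1 / (C * (c : ℝ) ^ 2)) := by
  obtain ⟨P, hP⟩ : ∃ P : ℝ, P = ((∏ l ∈ S, l : ℕ) : ℝ) := ⟨_, rfl⟩
  have hP1 : 1 ≤ P := by
    rw [hP]
    exact_mod_cast Nat.succ_le_of_lt (Finset.prod_pos fun l hl => (hS l hl).pos)
  obtain ⟨r, hr⟩ : ∃ r : ℕ, r = S.card := ⟨_, rfl⟩
  obtain ⟨K, hK⟩ : ∃ K : ℕ, K = 2 * (r + 1) + 11 := ⟨_, rfl⟩
  obtain ⟨C₀, hC₀⟩ : ∃ C₀ : ℝ, C₀ = 12 * 3 ^ (r + 1) * 10 ^ 12 * P := ⟨_, rfl⟩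
  have hC₀0 : 0 < C₀ := by rw [hC₀]; positivity
  have hev : ∀ᶠ l : ℝ in atTop, C₀ ≤ l ∧ 1 ≤ Real.log l ∧ 320 * l ^ 4 < Real.exp (l / 4) ∧
      P ≤ Real.exp (l / 8) ∧ 3 ≤ l := by
    have g3 : ∀ᶠ l : ℝ in atTop, 320 * l ^ 4 < Real.exp (l / 4) := by
      have h1 := (isLittleO_pow_exp_pos_mul_atTop (k := 4) (b := 1 / 4) (by norm_num)).bound
        (show (0 : ℝ) < 1 / 640 by norm_num)
      filter_upwards [h1, eventually_ge_atTop (0 : ℝ)] with l h2 h3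
      rw [Real.norm_of_nonneg (by positivity), Real.norm_of_nonneg (by positivity)] at h2
      have h4 : (1 : ℝ) / 4 * l = l / 4 := by ring
      rw [h4] at h2
      have h5 := Real.exp_pos (l / 4)
      linarith
    have g4 : ∀ᶠ l : ℝ in atTop, P ≤ Real.exp (l / 8) := by
      have h1 : Tendsto (fun l : ℝ => Real.exp (l / 8)) atTop atTop :=
        Real.tendsto_exp_atTop.comp (tendsto_id.atTop_div_const (by norm_num))
      exact h1.eventually_ge_atTop P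
    filter_upwards [eventually_ge_atTop C₀, Real.tendsto_log_atTop.eventually_ge_atTop 1, g3, g4,
      eventually_ge_atTop (3 : ℝ)] with l h1 h2 h3 h4 h5
    exact ⟨h1, h2, h3, h4, h5⟩
  obtain ⟨l₀, hl₀⟩ := eventually_atTop.1 hev
  refine ⟨max (Real.exp l₀) (512 * (K + 1)) + 4, ?_, ?_⟩
  · have h1 := le_max_right (Real.exp l₀) (512 * ((K : ℝ) + 1))
    have h2 : (0 : ℝ) ≤ K := Nat.cast_nonneg K
    linarith
  intro x c hx hc hcx
  obtain ⟨C, hC⟩ : ∃ C : ℝ, C = max (Real.exp l₀) (512 * ((K : ℝ) + 1)) + 4 := ⟨_, rfl⟩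
  rw [← hC] at hx hcx ⊢
  have hCK : 512 * ((K : ℝ) + 1) ≤ C := by
    have h1 := le_max_right (Real.exp l₀) (512 * ((K : ℝ) + 1))
    linarith
  have hx1 : Real.exp l₀ ≤ x := by
    have h1 := le_max_left (Real.exp l₀) (512 * ((K : ℝ) + 1))
    linarith
  have hK0 : (0 : ℝ) ≤ K := Nat.cast_nonneg K
  have hx4 : 4 ≤ x := by
    have h1 := (Real.exp_pos l₀).le.trans (le_max_left (Real.exp l₀) (512 * ((K : ℝ) + 1)))
    linarith
  have hx0 : 0 < x := by linarith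
  obtain ⟨l, hl⟩ : ∃ l : ℝ, l = Real.log x := ⟨_, rfl⟩
  have hxe : x = Real.exp l := by rw [hl, Real.exp_log hx0]
  rw [← hl] at hcx
  have hl0 : l₀ ≤ l := by rw [hl, Real.le_log_iff_exp_le hx0]; exact hx1
  obtain ⟨g1, g2, g3, g4, g5⟩ := hl₀ l hl0
  have hc2 : (2 : ℝ) ≤ c := by exact_mod_cast hc
  have hcc : (1 : ℝ) ≤ (c : ℝ) ^ 2 := by nlinarith
  have hC0 : 0 < C := by linarith
  obtain ⟨m, hm⟩ : ∃ m : ℕ, m = 16 * c ^ 2 := ⟨_, rfl⟩
  have hmR : (m : ℝ) = 16 * (c : ℝ) ^ 2 := by rw [hm]; push_cast; ring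
  have hm1 : (1 : ℝ) ≤ m := by rw [hmR]; linarith
  have hml : (m : ℝ) ≤ l := by
    rw [hmR]
    refine le_trans ?_ hcx
    have h1 : 16 * (c : ℝ) ^ 2 ≤ C * (c : ℝ) ^ 2 := mul_le_mul_of_nonneg_right (by linarith) (by positivity)
    have h2 : C * (c : ℝ) ^ 2 * 1 ≤ C * (c : ℝ) ^ 2 * Real.log l :=
      mul_le_mul_of_nonneg_left g2 (by positivity)
    linarith
  have hcl : (c : ℝ) ≤ l := by
    refine le_trans ?_ hml
    rw [hmR]
    nlinarith
  have hxp : ∀ t : ℝ, x ^ t = Real.exp (l * t) := by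
    intro t
    rw [Real.rpow_def_of_pos hx0, ← hl]
  have h1 := countT hS hS2 hc hm hx4 (by
      rw [hxp, show l * (1 / 4) = l / 4 by ring]
      refine lt_of_le_of_lt ?_ g3
      exact mul_le_mul_of_nonneg_left (pow_le_pow_left₀ (by positivity) hml 4) (by norm_num))
    (by rw [← hl]; exact hml) (by
      rw [hxp, show l * (1 / 8) = l / 8 by ring, ← hP]
      exact g4)
  refine h1.trans ?_
  rw [← hP, ← hr, ← hl]
  have hl1 : (1 : ℝ) ≤ l := by linarith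
  have e1 : 2 * ((c : ℝ) * l) + 1 ≤ 3 * l ^ 2 := by nlinarith
  have e2 : 2 * (c : ℝ) * l + 1 ≤ 3 * l ^ 2 := by nlinarith
  have e3 : 2 * WW m x / x ^ (1 / (8 * (m : ℝ))) ≤ 2 * 10 ^ 12 * l ^ 9 * x ^ (-(1 / (16 * (m : ℝ)))) := by
    unfold WW
    rw [← hl]
    have e4 : (m : ℝ) ^ 2 * l ≤ l ^ 3 := by
      calc (m : ℝ) ^ 2 * l ≤ l ^ 2 * l := mul_le_mul_of_nonneg_right (pow_le_pow_left₀ (by positivity) hml 2)
            (by linarith)
        _ = l ^ 3 := by ring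
    have e5 : ((m : ℝ) ^ 2 * l) ^ 3 ≤ l ^ 9 := by
      calc ((m : ℝ) ^ 2 * l) ^ 3 ≤ (l ^ 3) ^ 3 := pow_le_pow_left₀ (by positivity) e4 3
        _ = l ^ 9 := by ring
    have e6 : x ^ (1 / (16 * (m : ℝ))) / x ^ (1 / (8 * (m : ℝ))) = x ^ (-(1 / (16 * (m : ℝ)))) := by
      rw [← Real.rpow_sub hx0]
      congr 1
      field_simp
      norm_num
    calc 2 * (10 ^ 12 * x ^ (1 / (16 * (m : ℝ))) * ((m : ℝ) ^ 2 * l) ^ 3) / x ^ (1 / (8 * (m : ℝ))) =
        2 * 10 ^ 12 * ((m : ℝ) ^ 2 * l) ^ 3 * (x ^ (1 / (16 * (m : ℝ))) / x ^ (1 / (8 * (m : ℝ)))) := by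
          ring
      _ = 2 * 10 ^ 12 * ((m : ℝ) ^ 2 * l) ^ 3 * x ^ (-(1 / (16 * (m : ℝ)))) := by rw [e6]
      _ ≤ _ := by
          apply mul_le_mul_of_nonneg_right _ (by positivity)
          exact mul_le_mul_of_nonneg_left e5 (by positivity)
  have hWn : 0 ≤ 2 * WW m x / x ^ (1 / (8 * (m : ℝ))) := by
    have := WW_nonneg (m := m) (D := x) (by linarith)
    positivity
  have e7 : (2 * (2 * ((c : ℝ) * l) + 1) ^ (r + 1)) * (2 * c * l + 1) * P *
      (x * (2 * WW m x / x ^ (1 / (8 * (m : ℝ))))) ≤ C₀ * l ^ K * x * x ^ (-(1 / (16 * (m : ℝ)))) := by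
    calc _ ≤ (2 * (3 * l ^ 2) ^ (r + 1)) * (3 * l ^ 2) * P *
        (x * (2 * 10 ^ 12 * l ^ 9 * x ^ (-(1 / (16 * (m : ℝ)))))) := by
          have e8 : (2 * ((c : ℝ) * l) + 1) ^ (r + 1) ≤ (3 * l ^ 2) ^ (r + 1) :=
            pow_le_pow_left₀ (by positivity) e1 _
          apply mul_le_mul _ (mul_le_mul_of_nonneg_left e3 hx0.le) (by positivity) (by positivity)
          apply mul_le_mul_of_nonneg_right _ (by linarith)
          exact mul_le_mul (by linarith) e2 (by positivity) (by positivity)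
      _ = C₀ * l ^ K * x * x ^ (-(1 / (16 * (m : ℝ)))) := by
          rw [hC₀, hK, mul_pow, ← pow_mul, pow_add l (2 * (r + 1)) 11]
          ring
  refine e7.trans ?_
  -- the comparison
  have e9 : C₀ * l ^ K ≤ Real.exp (l * (1 / (32 * (m : ℝ)))) := by
    have h2 : C₀ * l ^ K ≤ l ^ (K + 1) := by
      rw [pow_succ']
      exact mul_le_mul_of_nonneg_right g1 (by positivity)
    refine h2.trans ?_
    have h3 : l ^ (K + 1) = Real.exp (((K + 1 : ℕ) : ℝ) * Real.log l) := by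
      rw [Real.exp_nat_mul, Real.exp_log (by linarith)]
    rw [h3]
    apply Real.exp_le_exp.2
    rw [hmR, mul_one_div, le_div_iff₀ (by positivity)]
    push_cast
    calc ((K : ℝ) + 1) * Real.log l * (32 * (16 * (c : ℝ) ^ 2)) =
        (512 * ((K : ℝ) + 1)) * (c : ℝ) ^ 2 * Real.log l := by ring
      _ ≤ C * (c : ℝ) ^ 2 * Real.log l := by
          apply mul_le_mul_of_nonneg_right _ (by linarith)
          exact mul_le_mul_of_nonneg_right hCK (by positivity)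
      _ ≤ l := hcx
  calc C₀ * l ^ K * x * x ^ (-(1 / (16 * (m : ℝ)))) ≤
      Real.exp (l * (1 / (32 * (m : ℝ)))) * x * x ^ (-(1 / (16 * (m : ℝ)))) := by
        apply mul_le_mul_of_nonneg_right _ (by positivity)
        exact mul_le_mul_of_nonneg_right e9 hx0.le
    _ = x * x ^ (-(1 / (32 * (m : ℝ)))) := by
        rw [hxp, hxp, mul_comm (Real.exp _) x, mul_assoc, ← Real.exp_add]
        congr 2
        field_simp
        ring
    _ ≤ x * x ^ (-(1 / (C * (c : ℝ) ^ 2))) := by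
        apply mul_le_mul_of_nonneg_left _ hx0.le
        apply Real.rpow_le_rpow_of_exponent_le (by linarith)
        apply neg_le_neg
        apply one_div_le_one_div_of_le (by positivity)
        rw [hmR]
        nlinarith
    _ = x / x ^ (1 / (C * (c : ℝ) ^ 2)) := by
        rw [Real.rpow_neg hx0.le]
        rfl

end Pool.Agent.U787.SP
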