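import Pool.Agent.U787.SP.N
import Pool.Agent.U787.SP.G

/-!
# Inverting primes, part O: the regulator and the subgroup generated by fixed primes
-/

set_option autoImplicit false

namespace Pool.Agent.U787.SP

open Finset NumberField

/-- the lower bound for the regulator times the order of the subgroup -/
def Big (S : Finset ℕ) (C Y : ℝ) (p : ℕ) : Prop := ∀ (K : Type) [Field K] [NumberField K],
  Module.finrank ℚ K = 2 → (∃ t : K, t ^ 2 = (p : K)) →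
  Y ^ (nsp K S + 1) ≤ C * (Units.regulator K * (Nat.card (Gen K S) : ℝ))

theorem big_of {S : Finset ℕ} (hS : ∀ l ∈ S, l.Prime) (hS2 : 2 ∉ S) : ∃ C : ℝ, 1 ≤ C ∧
    ∀ (x : ℝ) (A p : ℕ), 1 < x → 1 ≤ A → 4 ≤ p → p.Prime →
    ¬ ExcT S (p : ℤ) (4 * x ^ A) (x ^ A) → Big S C (A * Real.log x) p := by
  obtain ⟨M, hM⟩ : ∃ M : ℝ, M = ((∏ l ∈ S, l : ℕ) : ℝ) + 1 := ⟨_, rfl⟩
  have hPpos : 0 < ∏ l ∈ S, l := Finset.prod_pos fun l hl => (hS l hl).pos
  have hM1 : 1 < M := by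
    rw [hM]
    have : (0 : ℝ) < ((∏ l ∈ S, l : ℕ) : ℝ) := by exact_mod_cast hPpos
    linarith
  have hSM : ∀ l ∈ S, (l : ℝ) ≤ M := by
    intro l hl
    rw [hM]
    have h1 : l ≤ ∏ l ∈ S, l := Nat.le_of_dvd hPpos (Finset.dvd_prod_of_mem _ hl)
    have h2 : (l : ℝ) ≤ ((∏ l ∈ S, l : ℕ) : ℝ) := by exact_mod_cast h1
    linarith
  have hlM : 0 < Real.log M := Real.log_pos hM1
  obtain ⟨q, hq⟩ : ∃ q : ℝ, q = 2 * ((S.card + 1) * Real.log M) := ⟨_, rfl⟩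
  have hq0 : 0 < q := by rw [hq]; positivity
  refine ⟨4 * (1 + q) ^ S.card, ?_, ?_⟩
  · have : 1 ≤ (1 + q) ^ S.card := one_le_pow₀ (by linarith)
    linarith
  intro x A p hx hA hp4 hp h K _ _ h2 ht
  have hx0 : 0 < x := by linarith
  have hlx : 0 < Real.log x := Real.log_pos hx
  have hA1 : (1 : ℝ) ≤ A := by exact_mod_cast hA
  have hsB : √(x ^ A) = x ^ ((A : ℝ) / 2) := by
    rw [Real.sqrt_eq_rpow, ← Real.rpow_natCast, ← Real.rpow_mul hx0.le]
    congr 1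
    ring
  have hT : 0 < (A : ℝ) * Real.log x := by positivity
  have hU : √(x ^ A) * Real.exp ((A : ℝ) * Real.log x / 2) ≤ x ^ A := by
    rw [hsB, Real.rpow_def_of_pos hx0, ← Real.exp_add, ← Real.rpow_natCast,
      Real.rpow_def_of_pos hx0]
    apply Real.exp_le_exp.2
    linarith
  have h1 := main_one hp4 hp h2 ht hS hS2 (B := x ^ A) (U := x ^ A) (by positivity) h hU hT
  have hfin : Finite (ClassGroup (𝓞 K)) := inferInstance
  have hcard : (classNumber K : ℝ) = (Nat.card (Gen K S) : ℝ) * ((Gen K S).index : ℝ) := by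
    have e1 := Subgroup.card_mul_index (Gen K S)
    have e2 : classNumber K = Nat.card (ClassGroup (𝓞 K)) := by
      rw [Nat.card_eq_fintype_card]
      rfl
    rw [e2]
    exact_mod_cast e1.symm
  have hidx : (0 : ℝ) < ((Gen K S).index : ℝ) := by
    have : (Gen K S).index ≠ 0 := Subgroup.index_ne_zero_of_finite
    exact_mod_cast Nat.pos_of_ne_zero this
  rw [hcard] at h1
  have h3 : (A : ℝ) * Real.log x * Psi K S (√(x ^ A)) ≤
      4 * (Units.regulator K * (Nat.card (Gen K S) : ℝ)) := by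
    apply le_of_mul_le_mul_left _ hidx
    calc _ ≤ 4 * (Units.regulator K * ((Nat.card (Gen K S) : ℝ) * ((Gen K S).index : ℝ))) := h1
      _ = _ := by ring
  have hY1 : 1 ≤ √(x ^ A) := by
    rw [Real.one_le_sqrt]
    exact one_le_pow₀ hx.le
  have h4 := psi_ge K S hS hM1 hSM hY1
  have h5 : Real.log (√(x ^ A)) / ((S.card + 1) * Real.log M) = (A : ℝ) * Real.log x / q := by
    rw [hsB, Real.log_rpow hx0, hq]
    field_simp
  rw [h5] at h4
  have hs : nsp K S ≤ S.card := by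
    classical
    unfold nsp
    exact Finset.card_filter_le _ _
  have h6 : ((A : ℝ) * Real.log x) ^ (nsp K S + 1) ≤
      q ^ (nsp K S) * ((A : ℝ) * Real.log x * Psi K S (√(x ^ A))) := by
    calc ((A : ℝ) * Real.log x) ^ (nsp K S + 1) =
        q ^ (nsp K S) * ((A : ℝ) * Real.log x * (((A : ℝ) * Real.log x / q) ^ (nsp K S))) := by
          rw [div_pow, pow_succ]
          field_simp
      _ ≤ _ := by
          apply mul_le_mul_of_nonneg_left _ (by positivity)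
          exact mul_le_mul_of_nonneg_left h4 hT.le
  have h7 : q ^ (nsp K S) ≤ (1 + q) ^ S.card := by
    calc q ^ (nsp K S) ≤ (1 + q) ^ (nsp K S) := pow_le_pow_left₀ hq0.le (by linarith) _
      _ ≤ _ := pow_le_pow_right₀ (by linarith) hs
  have h8 : 0 ≤ (A : ℝ) * Real.log x * Psi K S (√(x ^ A)) := by positivity
  calc ((A : ℝ) * Real.log x) ^ (nsp K S + 1) ≤
      q ^ (nsp K S) * ((A : ℝ) * Real.log x * Psi K S (√(x ^ A))) := h6
    _ ≤ (1 + q) ^ S.card * (4 * (Units.regulator K * (Nat.card (Gen K S) : ℝ))) :=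
        mul_le_mul h7 h3 h8 (by positivity)
    _ = _ := by ring

/-- the first part -/
theorem partOne (S : Finset ℕ) (hS : ∀ l ∈ S, l.Prime) (hS2 : 2 ∉ S) : ∃ C : ℝ, 1 ≤ C ∧
    ∀ x A : ℕ, C ≤ x → 1 ≤ A → C * (A : ℝ) ^ 2 * Real.log (Real.log x) ≤ Real.log x →
    ({p : ℕ | p.Prime ∧ x < p ∧ p ≤ 2 * x ∧ ¬ Big S C (A * Real.log x) p}.ncard : ℝ) ≤
      x / (x : ℝ) ^ (1 / (C * (A : ℝ) ^ 2)) := by
  obtain ⟨C₁, hC₁, hcount⟩ := numT S hS hS2
  obtain ⟨C₂, hC₂, hbig⟩ := big_of hS hS2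
  obtain ⟨C, hC⟩ : ∃ C : ℝ, C = 4 * C₁ + C₂ + ((∏ l ∈ S, l : ℕ) : ℝ) := ⟨_, rfl⟩
  have hP0 : (0 : ℝ) ≤ ((∏ l ∈ S, l : ℕ) : ℝ) := Nat.cast_nonneg _
  refine ⟨C, by rw [hC]; linarith, ?_⟩
  intro x A hx hA hAx
  have hx4 : (4 : ℝ) ≤ x := by rw [hC] at hx; linarith
  have hx0 : (0 : ℝ) < x := by linarith
  have hA1 : (1 : ℝ) ≤ A := by exact_mod_cast hA
  have hll : 0 ≤ Real.log (Real.log x) := by
    apply Real.log_nonneg
    rw [Real.le_log_iff_exp_le hx0]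
    have := Real.exp_one_lt_d9
    linarith
  have hC4 : 4 * C₁ ≤ C := by rw [hC]; linarith
  have hCA : C₁ * ((A : ℝ) + 1) ^ 2 ≤ C * (A : ℝ) ^ 2 := by
    have e1 : ((A : ℝ) + 1) ^ 2 ≤ 4 * (A : ℝ) ^ 2 := by nlinarith
    calc C₁ * ((A : ℝ) + 1) ^ 2 ≤ C₁ * (4 * (A : ℝ) ^ 2) := mul_le_mul_of_nonneg_left e1 (by linarith)
      _ = (4 * C₁) * (A : ℝ) ^ 2 := by ring
      _ ≤ _ := mul_le_mul_of_nonneg_right hC4 (by positivity)
  have hc := hcount x (A + 1) (by rw [hC] at hx; linarith) (by omega) (by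
    push_cast
    refine le_trans ?_ hAx
    exact mul_le_mul_of_nonneg_right hCA hll)
  rw [Nat.add_sub_cancel] at hc
  have hfin : {d : ℤ | (x : ℝ) < d ∧ (d : ℝ) ≤ 2 * x ∧ (∀ l ∈ S, ¬ (l : ℤ) ∣ d) ∧
      ExcT S d (4 * (x : ℝ) ^ A) ((x : ℝ) ^ A)}.Finite := by
    refine (Set.finite_Icc ⌈(x : ℝ)⌉ ⌊2 * (x : ℝ)⌋).subset ?_
    rintro d ⟨h1, h2, -⟩
    exact ⟨Int.ceil_le.2 h1.le, Int.le_floor.2 h2⟩
  have hsub : (fun p : ℕ => (p : ℤ)) '' {p : ℕ | p.Prime ∧ x < p ∧ p ≤ 2 * x ∧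
      ¬ Big S C (A * Real.log x) p} ⊆ {d : ℤ | (x : ℝ) < d ∧ (d : ℝ) ≤ 2 * x ∧
      (∀ l ∈ S, ¬ (l : ℤ) ∣ d) ∧ ExcT S d (4 * (x : ℝ) ^ A) ((x : ℝ) ^ A)} := by
    rintro _ ⟨p, ⟨hp, hxp, hp2, hnb⟩, rfl⟩
    beta_reduce
    refine ⟨by exact_mod_cast hxp, by exact_mod_cast hp2, ?_, ?_⟩
    · intro l hl hd
      have h1 : l ∣ p := by exact_mod_cast hd
      have h2 := (Nat.prime_dvd_prime_iff_eq (hS l hl) hp).1 h1
      have hPpos : 0 < ∏ l ∈ S, l := Finset.prod_pos fun l hl => (hS l hl).pos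
      have h3 : l ≤ ∏ l ∈ S, l := Nat.le_of_dvd hPpos (Finset.dvd_prod_of_mem _ hl)
      have h4 : (l : ℝ) ≤ ((∏ l ∈ S, l : ℕ) : ℝ) := by exact_mod_cast h3
      have h5 : (x : ℝ) < p := by exact_mod_cast hxp
      rw [h2] at h4
      rw [hC] at hx
      linarith
    · by_contra hne
      apply hnb
      have h4p : 4 ≤ p := by
        have : (4 : ℝ) < p := lt_of_le_of_lt hx4 (by exact_mod_cast hxp)
        have : 4 < p := by exact_mod_cast this
        omega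
      intro K i1 i2 h2 ht
      refine (hbig x A p (by linarith) hA h4p hp hne K h2 ht).trans ?_
      apply mul_le_mul_of_nonneg_right _ (by
        have := Units.regulator_pos K
        positivity)
      rw [hC]
      linarith
  have h1 : ({p : ℕ | p.Prime ∧ x < p ∧ p ≤ 2 * x ∧ ¬ Big S C (A * Real.log x) p}.ncard : ℝ) ≤
      ({d : ℤ | (x : ℝ) < d ∧ (d : ℝ) ≤ 2 * x ∧ (∀ l ∈ S, ¬ (l : ℤ) ∣ d) ∧
      ExcT S d (4 * (x : ℝ) ^ A) ((x : ℝ) ^ A)}.ncard : ℝ) := by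
    rw [← Set.ncard_image_of_injective _ (Nat.cast_injective (R := ℤ))]
    exact_mod_cast Set.ncard_le_ncard hsub hfin
  refine (h1.trans hc).trans ?_
  apply div_le_div_of_nonneg_left hx0.le (by positivity)
  apply Real.rpow_le_rpow_of_exponent_le (by linarith)
  push_cast
  exact one_div_le_one_div_of_le (by positivity) hCA

end Pool.Agent.U787.SP
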