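import Pool.Agent.U787.SP.O
import Pool.Agent.U787.VS.E

/-!
# Inverting primes, part P: class numbers
-/

set_option autoImplicit false

namespace Pool.Agent.U787.SP

open Finset Filter NumberField Pool.Agent.H38R2.CG Pool.Agent.Q276.PL

/-- `(log x) ^ (3/2) / (log log x) ^ (1/2)` -/
noncomputable def YY (x : ℝ) : ℝ := Real.log x ^ ((3 : ℝ) / 2) / √(Real.log (Real.log x))

/-- the two bounds -/
def Good (S : Finset ℕ) (C x : ℝ) (p : ℕ) : Prop := ∀ (K : Type) [Field K] [NumberField K],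
  Module.finrank ℚ K = 2 → (∃ t : K, t ^ 2 = (p : K)) →
  YY x ^ (nsp K S + 1) ≤ C * (Units.regulator K * (Nat.card (Gen K S) : ℝ)) ∧
  ((Gen K S).index : ℝ) * YY x ^ (nsp K S + 1) ≤ C * √x * Real.log (Real.log x)

theorem partTwo (S : Finset ℕ) (hS : ∀ l ∈ S, l.Prime) (hS2 : 2 ∉ S) (E : ℝ) : ∃ C : ℝ, 1 ≤ C ∧
    ∀ x : ℕ, C ≤ x →
    ({p : ℕ | p.Prime ∧ x < p ∧ p ≤ 2 * x ∧ ¬ Good S C x p}.ncard : ℝ) ≤
      x / Real.log x ^ E := by
  obtain ⟨C₁, hC₁, h1⟩ := partOne S hS hS2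
  obtain ⟨C₃, x0, hC₃, h3⟩ := U787.VS.few_lone
  obtain ⟨k, hk⟩ : ∃ k : ℕ, k = ⌈|E|⌉₊ + 2 := ⟨_, rfl⟩
  have hkE : |E| + 2 ≤ k := by
    rw [hk]
    push_cast
    have := Nat.le_ceil |E|
    linarith
  have hkR : (2 : ℝ) ≤ k := by
    have := abs_nonneg E
    linarith
  obtain ⟨C', hC'⟩ : ∃ C' : ℝ, C' = C₁ * k := ⟨_, rfl⟩
  have hC'1 : 1 ≤ C' := by rw [hC']; nlinarith
  obtain ⟨κ, hκ⟩ : ∃ κ : ℝ, κ = 2 * √C' := ⟨_, rfl⟩
  have hκ1 : 1 ≤ κ := by
    rw [hκ]
    have : 1 ≤ √C' := by rw [Real.one_le_sqrt]; exact hC'1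
    linarith
  obtain ⟨C₂, hC₂⟩ : ∃ C₂ : ℝ, C₂ = 1 + 32 * Real.exp 25 * (k + 2) := ⟨_, rfl⟩
  have he25 := Real.exp_pos 25
  have hC₂1 : 1 ≤ C₂ := by rw [hC₂]; have : 0 < 32 * Real.exp 25 * (k + 2) := by positivity
                           linarith
  have hκr : 1 ≤ κ ^ (S.card + 1) := one_le_pow₀ hκ1
  -- large `l`
  have hev : ∀ᶠ l : ℝ in atTop, 2 ≤ l ∧ 1 ≤ Real.log l ∧ C' * Real.log l ≤ l ∧ 4 * C₃ ≤ l ∧
      l ^ k + 2 ≤ Real.exp (l / 2) ∧ Real.exp (l / 4) + 1 ≤ Real.exp (l / 2) ∧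
      4 * C₃ * l ^ (k + 1) ≤ Real.exp (l / 2) := by
    have g3 : ∀ᶠ l : ℝ in atTop, C' * Real.log l ≤ l := by
      have h1 := Real.isLittleO_log_id_atTop.bound (show (0 : ℝ) < 1 / C' by positivity)
      filter_upwards [h1, eventually_ge_atTop (1 : ℝ)] with l h2 h3
      rw [Real.norm_of_nonneg (Real.log_nonneg h3), id, Real.norm_of_nonneg (by linarith)] at h2
      calc C' * Real.log l ≤ C' * (1 / C' * l) := mul_le_mul_of_nonneg_left h2 (by linarith)
        _ = l := by field_simp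
    have g4 : ∀ᶠ l : ℝ in atTop, l ^ k ≤ 1 / 2 * Real.exp (l / 2) := by
      have h1 := (isLittleO_pow_exp_pos_mul_atTop (k := k) (b := 1 / 2) (by norm_num)).bound
        (show (0 : ℝ) < 1 / 2 by norm_num)
      filter_upwards [h1, eventually_ge_atTop (0 : ℝ)] with l h2 h3
      rw [Real.norm_of_nonneg (by positivity), Real.norm_of_nonneg (by positivity)] at h2
      have h4 : (1 : ℝ) / 2 * l = l / 2 := by ring
      rwa [h4] at h2
    have g5 : ∀ᶠ l : ℝ in atTop, 4 ≤ Real.exp (l / 2) := by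
      have h1 : Tendsto (fun l : ℝ => Real.exp (l / 2)) atTop atTop :=
        Real.tendsto_exp_atTop.comp (tendsto_id.atTop_div_const (by norm_num))
      exact h1.eventually_ge_atTop 4
    have g6 : ∀ᶠ l : ℝ in atTop, 2 ≤ Real.exp (l / 4) := by
      have h1 : Tendsto (fun l : ℝ => Real.exp (l / 4)) atTop atTop :=
        Real.tendsto_exp_atTop.comp (tendsto_id.atTop_div_const (by norm_num))
      exact h1.eventually_ge_atTop 2
    have g7 : ∀ᶠ l : ℝ in atTop, 4 * C₃ * l ^ (k + 1) ≤ Real.exp (l / 2) := by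
      have h1 := (isLittleO_pow_exp_pos_mul_atTop (k := k + 1) (b := 1 / 2) (by norm_num)).bound
        (show (0 : ℝ) < 1 / (4 * C₃) by positivity)
      filter_upwards [h1, eventually_ge_atTop (0 : ℝ)] with l h2 h3
      rw [Real.norm_of_nonneg (by positivity), Real.norm_of_nonneg (by positivity)] at h2
      have h4 : (1 : ℝ) / 2 * l = l / 2 := by ring
      rw [h4] at h2
      calc 4 * C₃ * l ^ (k + 1) ≤ 4 * C₃ * (1 / (4 * C₃) * Real.exp (l / 2)) :=
            mul_le_mul_of_nonneg_left h2 (by positivity)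
        _ = _ := by field_simp
    filter_upwards [eventually_ge_atTop (2 : ℝ), Real.tendsto_log_atTop.eventually_ge_atTop 1, g3,
      eventually_ge_atTop (4 * C₃), g4, g5, g6, g7] with l h1 h2 h3 h4 h5 h6 h7 h8
    refine ⟨h1, h2, h3, h4, by linarith, ?_, h8⟩
    have e : Real.exp (l / 2) = Real.exp (l / 4) * Real.exp (l / 4) := by
      rw [← Real.exp_add]; congr 1; ring
    rw [e]
    nlinarith
  obtain ⟨l₀, hl₀⟩ := eventually_atTop.1 hev
  obtain ⟨C, hC⟩ : ∃ C : ℝ, C = Real.exp l₀ + x0 + C₁ + κ ^ (S.card + 1) * (C₁ * (2 * C₂)) + 4 :=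
    ⟨_, rfl⟩
  have hx00 : (0 : ℝ) ≤ x0 := Nat.cast_nonneg _
  have hbig0 : 0 ≤ κ ^ (S.card + 1) * (C₁ * (2 * C₂)) := by positivity
  have hel := Real.exp_pos l₀
  refine ⟨C, by rw [hC]; linarith, ?_⟩
  intro x hx
  have hx4 : (4 : ℝ) ≤ x := by rw [hC] at hx; linarith
  have hx0 : (0 : ℝ) < x := by linarith
  obtain ⟨l, hl⟩ : ∃ l : ℝ, l = Real.log x := ⟨_, rfl⟩
  have hxe : (x : ℝ) = Real.exp l := by rw [hl, Real.exp_log hx0]
  have hl0 : l₀ ≤ l := by
    rw [hl, Real.le_log_iff_exp_le hx0]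
    rw [hC] at hx
    linarith
  obtain ⟨g1, g2, g3, g4, g5, g6, g7⟩ := hl₀ l hl0
  have hl1 : 1 ≤ l := by linarith
  have hlpos : 0 < l := by linarith
  have hll0 : 0 < Real.log l := by linarith
  -- the parameter `A`
  obtain ⟨w, hw⟩ : ∃ w : ℝ, w = √(l / (C' * Real.log l)) := ⟨_, rfl⟩
  have hq1 : 1 ≤ l / (C' * Real.log l) := by
    rw [one_le_div (by positivity)]
    exact g3
  have hw1 : 1 ≤ w := by rw [hw, Real.one_le_sqrt]; exact hq1
  have hw2 : w ^ 2 = l / (C' * Real.log l) := by rw [hw]; exact Real.sq_sqrt (by linarith)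
  obtain ⟨A, hA⟩ : ∃ A : ℕ, A = ⌊w⌋₊ := ⟨_, rfl⟩
  have hA1 : 1 ≤ A := by rw [hA]; exact Nat.le_floor (by exact_mod_cast hw1)
  have hAw : (A : ℝ) ≤ w := by rw [hA]; exact Nat.floor_le (by linarith)
  have hA1R : (1 : ℝ) ≤ A := by exact_mod_cast hA1
  have hAw2 : w / 2 ≤ A := by
    have h4 : w < A + 1 := by rw [hA]; exact Nat.lt_floor_add_one _
    linarith
  have hA2 : (A : ℝ) ^ 2 ≤ l / (C' * Real.log l) := by
    rw [← hw2]
    exact pow_le_pow_left₀ (by positivity) hAw 2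
  have hA3 : C' * (A : ℝ) ^ 2 * Real.log l ≤ l := by
    rw [le_div_iff₀ (by positivity)] at hA2
    linarith
  have hb1 := h1 x A (by rw [hC] at hx; linarith) hA1 (by
    rw [← hl]
    refine le_trans ?_ hA3
    apply mul_le_mul_of_nonneg_right _ hll0.le
    apply mul_le_mul_of_nonneg_right _ (by positivity)
    rw [hC']
    exact le_mul_of_one_le_right (by linarith) (by linarith))
  rw [← hl] at hb1
  -- the exceptional set of part one
  have hexp : l ^ k ≤ (x : ℝ) ^ (1 / (C₁ * (A : ℝ) ^ 2)) := by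
    rw [Real.rpow_def_of_pos hx0, ← hl]
    have e1 : l ^ k = Real.exp ((k : ℝ) * Real.log l) := by
      rw [Real.exp_nat_mul, Real.exp_log hlpos]
    rw [e1]
    apply Real.exp_le_exp.2
    rw [mul_one_div, le_div_iff₀ (by positivity)]
    calc (k : ℝ) * Real.log l * (C₁ * (A : ℝ) ^ 2) = C' * (A : ℝ) ^ 2 * Real.log l := by
          rw [hC']; ring
      _ ≤ l := hA3
  have hlE : l ^ |E| * l ^ 2 ≤ l ^ k := by
    rw [← Real.rpow_natCast, ← Real.rpow_natCast, ← Real.rpow_add hlpos]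
    apply Real.rpow_le_rpow_of_exponent_le hl1
    push_cast
    exact hkE
  have hlE0 : 0 < l ^ |E| := Real.rpow_pos_of_pos hlpos _
  have hbad1 : (x : ℝ) / (x : ℝ) ^ (1 / (C₁ * (A : ℝ) ^ 2)) ≤ x / l ^ |E| / 4 := by
    rw [div_div]
    apply div_le_div_of_nonneg_left hx0.le (by positivity)
    refine le_trans ?_ (hlE.trans hexp)
    apply mul_le_mul_of_nonneg_left _ hlE0.le
    calc (4 : ℝ) = 2 ^ 2 := by norm_num
      _ ≤ l ^ 2 := pow_le_pow_left₀ (by norm_num) g1 2
  -- the values of `L(1, χ)`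
  obtain ⟨y, hy⟩ : ∃ y : ℕ, y = ⌈l ^ k⌉₊ := ⟨_, rfl⟩
  obtain ⟨z, hz⟩ : ∃ z : ℕ, z = Nat.sqrt x := ⟨_, rfl⟩
  have hly : l ^ k ≤ y := by rw [hy]; exact Nat.le_ceil _
  have hyl : (y : ℝ) < l ^ k + 1 := by rw [hy]; exact Nat.ceil_lt_add_one (by positivity)
  have hlk4 : 4 ≤ l ^ k := by
    calc (4 : ℝ) = 2 ^ 2 := by norm_num
      _ ≤ 2 ^ k := pow_le_pow_right₀ (by norm_num) (by exact_mod_cast hkR)
      _ ≤ l ^ k := pow_le_pow_left₀ (by norm_num) g1 k
  have hy3 : 3 ≤ y := by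
    have : (3 : ℝ) ≤ y := by linarith
    exact_mod_cast this
  have hz1 : (z : ℝ) ≤ Real.exp (l / 2) := by
    have e1 : z * z ≤ x := by rw [hz]; exact Nat.sqrt_le x
    have e2 : (z : ℝ) * z ≤ x := by exact_mod_cast e1
    have e3 : Real.exp (l / 2) * Real.exp (l / 2) = x := by
      rw [← Real.exp_add, hxe]; congr 1; ring
    rw [← e3] at e2
    exact (mul_self_le_mul_self_iff (Nat.cast_nonneg z) (Real.exp_pos (l / 2)).le).2 e2
  have hz2 : Real.exp (l / 2) < z + 1 := by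
    have e1 : x < (z + 1) * (z + 1) := by rw [hz]; exact Nat.lt_succ_sqrt x
    have e2 : (x : ℝ) < ((z : ℝ) + 1) * (z + 1) := by exact_mod_cast e1
    have e3 : Real.exp (l / 2) * Real.exp (l / 2) = x := by
      rw [← Real.exp_add, hxe]; congr 1; ring
    rw [← e3] at e2
    exact (mul_self_lt_mul_self_iff (Real.exp_pos (l / 2)).le (by positivity)).2 e2
  have hyz : y ≤ z := by
    have : (y : ℝ) < z := by linarith
    exact_mod_cast this.le
  have hzx : z ≤ x := by rw [hz]; exact Nat.sqrt_le_self x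
  have hz4 : Real.exp (l / 4) ≤ z := by linarith
  have hz0 : (0 : ℝ) < z := (Real.exp_pos _).trans_le hz4
  have hlz : l / 4 ≤ Real.log z := by rw [Real.le_log_iff_exp_le hz0]; exact hz4
  have hlz2 : Real.log z ≤ l := by
    have := Real.log_le_log hz0 hz1
    rw [Real.log_exp] at this
    linarith
  have hb2 := h3 x x y z (by
    rw [hC] at hx
    have : (x0 : ℝ) ≤ x := by linarith
    exact_mod_cast this) le_rfl hy3 hyz hzx
  rw [← hl] at hb2
  have hly0 : (0 : ℝ) < y := by linarith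
  have hlogy : 1 + Real.log y ≤ (k + 2) * Real.log l := by
    have e1 : (y : ℝ) ≤ Real.exp 1 * l ^ k := by
      have e3 := Real.exp_one_gt_d9
      have e4 : 2 * l ^ k ≤ Real.exp 1 * l ^ k :=
        mul_le_mul_of_nonneg_right (by linarith) (by positivity)
      linarith
    have e2 := Real.log_le_log hly0 e1
    rw [Real.log_mul (Real.exp_pos 1).ne' (by positivity), Real.log_exp, Real.log_pow] at e2
    have e3 : ((k : ℝ) + 2) * Real.log l = k * Real.log l + 2 * Real.log l := by ring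
    linarith
  have hthr : 1 + 4 * Real.exp 25 * (1 + Real.log y) * (2 * l) / Real.log z ≤ C₂ * Real.log l := by
    have hlz0 : 0 < Real.log z := by linarith
    have e1 : 4 * Real.exp 25 * (1 + Real.log y) * (2 * l) / Real.log z ≤
        32 * Real.exp 25 * ((k + 2) * Real.log l) := by
      rw [div_le_iff₀ hlz0]
      have e2 : (1 + Real.log y) * l ≤ ((k + 2) * Real.log l) * (4 * Real.log z) :=
        mul_le_mul hlogy (by linarith) hlpos.le (by positivity)
      calc 4 * Real.exp 25 * (1 + Real.log y) * (2 * l) = 8 * Real.exp 25 * ((1 + Real.log y) * l) := by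
            ring
        _ ≤ 8 * Real.exp 25 * (((k + 2) * Real.log l) * (4 * Real.log z)) :=
            mul_le_mul_of_nonneg_left e2 (by positivity)
        _ = _ := by ring
    rw [hC₂]
    calc 1 + 4 * Real.exp 25 * (1 + Real.log y) * (2 * l) / Real.log z ≤
        Real.log l + 32 * Real.exp 25 * ((k + 2) * Real.log l) := add_le_add g2 e1
      _ = _ := by ring
  have hbad2 : C₃ * ((x : ℝ) / y + z * Real.log z) ≤ x / l ^ |E| / 2 := by
    have e1 : C₃ * ((x : ℝ) / y) ≤ x / l ^ |E| / 4 := by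
      rw [div_div, ← mul_div_assoc, div_le_div_iff₀ hly0 (by positivity)]
      have e2 : 4 * C₃ * l ^ |E| ≤ y := by
        calc 4 * C₃ * l ^ |E| ≤ l ^ 2 * l ^ |E| := by
              apply mul_le_mul_of_nonneg_right _ hlE0.le
              exact g4.trans (le_self_pow₀ hl1 (by norm_num))
          _ = l ^ |E| * l ^ 2 := mul_comm _ _
          _ ≤ y := hlE.trans hly
      calc C₃ * (x : ℝ) * (l ^ |E| * 4) = x * (4 * C₃ * l ^ |E|) := by ring
        _ ≤ x * y := mul_le_mul_of_nonneg_left e2 hx0.le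
    have e2 : C₃ * ((z : ℝ) * Real.log z) ≤ x / l ^ |E| / 4 := by
      rw [div_div, le_div_iff₀ (by positivity)]
      have e3 : Real.exp (l / 2) * Real.exp (l / 2) = x := by
        rw [← Real.exp_add, hxe]; congr 1; ring
      have e4 : (z : ℝ) * Real.log z ≤ Real.exp (l / 2) * l :=
        mul_le_mul hz1 hlz2 (by linarith) (Real.exp_pos _).le
      have e5 : l ^ |E| ≤ l ^ k := by
        refine le_trans ?_ hlE
        exact le_mul_of_one_le_right hlE0.le (one_le_pow₀ hl1)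
      calc C₃ * ((z : ℝ) * Real.log z) * (l ^ |E| * 4) ≤ C₃ * (Real.exp (l / 2) * l) * (l ^ k * 4) := by
            apply mul_le_mul (mul_le_mul_of_nonneg_left e4 hC₃.le) _ (by positivity) (by positivity)
            linarith
        _ = Real.exp (l / 2) * (4 * C₃ * l ^ (k + 1)) := by rw [pow_succ]; ring
        _ ≤ Real.exp (l / 2) * Real.exp (l / 2) := mul_le_mul_of_nonneg_left g7 (Real.exp_pos _).le
        _ = x := e3
    rw [mul_add]
    linarith
  -- the union
  have hfin1 : {p : ℕ | p.Prime ∧ x < p ∧ p ≤ 2 * x ∧ ¬ Big S C₁ (A * l) p}.Finite := by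
    refine (Set.finite_Icc 0 (2 * x)).subset ?_
    rintro p ⟨_, _, h, _⟩
    exact ⟨Nat.zero_le _, h⟩
  have hfin2 : {d : ℕ | x < d ∧ d ≤ x + x ∧ Squarefree d ∧ ∃ (K : Type) (_ : Field K) (_ : NumberField K),
      Module.finrank ℚ K = 2 ∧ (∃ t : K, t ^ 2 = (d : K)) ∧
      1 + 4 * Real.exp 25 * (1 + Real.log y) * (2 * l) / Real.log z <
        Lone (dsc d)}.Finite := by
    refine (Set.finite_Icc 0 (x + x)).subset ?_
    rintro p ⟨_, h, _⟩
    exact ⟨Nat.zero_le _, h⟩
  have hsub : {p : ℕ | p.Prime ∧ x < p ∧ p ≤ 2 * x ∧ ¬ Good S C x p} ⊆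
      {p : ℕ | p.Prime ∧ x < p ∧ p ≤ 2 * x ∧ ¬ Big S C₁ (A * l) p} ∪
      {d : ℕ | x < d ∧ d ≤ x + x ∧ Squarefree d ∧ ∃ (K : Type) (_ : Field K) (_ : NumberField K),
      Module.finrank ℚ K = 2 ∧ (∃ t : K, t ^ 2 = (d : K)) ∧
      1 + 4 * Real.exp 25 * (1 + Real.log y) * (2 * l) / Real.log z <
        Lone (dsc d)} := by
    rintro p ⟨hp, hxp, hp2, hng⟩
    by_contra hnot
    rw [Set.mem_union, not_or] at hnot
    obtain ⟨hn1, hn2⟩ := hnot
    apply hng
    have hB : Big S C₁ (A * l) p := by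
      by_contra hc
      exact hn1 ⟨hp, hxp, hp2, hc⟩
    intro K i1 i2 hK ht
    have hY : YY x ≤ κ * (A * l) := by
      unfold YY
      rw [← hl]
      have hsl : √(Real.log l) > 0 := Real.sqrt_pos.2 hll0
      have e1 : l ^ ((3 : ℝ) / 2) = l * √l := by
        rw [show (3 : ℝ) / 2 = 1 + 1 / 2 by norm_num, Real.rpow_add hlpos, Real.rpow_one,
          Real.sqrt_eq_rpow]
      have e2 : w * √C' = √l / √(Real.log l) := by
        rw [hw, Real.sqrt_div hlpos.le, Real.sqrt_mul (by linarith)]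
        have : √C' ≠ 0 := (Real.sqrt_pos.2 (by linarith)).ne'
        field_simp
      rw [e1, hκ, mul_div_assoc, ← e2]
      have e3 : 0 ≤ √C' := Real.sqrt_nonneg _
      calc l * (w * √C') = 2 * √C' * ((w / 2) * l) := by ring
        _ ≤ 2 * √C' * (A * l) := by
            apply mul_le_mul_of_nonneg_left _ (by positivity)
            exact mul_le_mul_of_nonneg_right hAw2 hlpos.le
    have hY0 : 0 ≤ YY x := by
      unfold YY
      rw [← hl]
      positivity
    have hs : nsp K S ≤ S.card := by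
      classical
      unfold nsp
      exact Finset.card_filter_le _ _
    have hR0 := Units.regulator_pos K
    have hGc : (0 : ℝ) ≤ (Nat.card (Gen K S) : ℝ) := Nat.cast_nonneg _
    have hYp : YY x ^ (nsp K S + 1) ≤ κ ^ (S.card + 1) * C₁ *
        (Units.regulator K * (Nat.card (Gen K S) : ℝ)) := by
      calc YY x ^ (nsp K S + 1) ≤ (κ * (A * l)) ^ (nsp K S + 1) := pow_le_pow_left₀ hY0 hY _
        _ = κ ^ (nsp K S + 1) * (A * l) ^ (nsp K S + 1) := mul_pow _ _ _
        _ ≤ κ ^ (S.card + 1) * (C₁ * (Units.regulator K * (Nat.card (Gen K S) : ℝ))) := by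
            apply mul_le_mul (pow_le_pow_right₀ hκ1 (by omega)) (hB K hK ht) (by positivity)
              (by positivity)
        _ = _ := by ring
    have hC1C : κ ^ (S.card + 1) * C₁ ≤ C := by
      rw [hC]
      have e1 : κ ^ (S.card + 1) * C₁ * 1 ≤ κ ^ (S.card + 1) * C₁ * (2 * C₂) :=
        mul_le_mul_of_nonneg_left (by linarith) (by positivity)
      have e2 : κ ^ (S.card + 1) * C₁ * (2 * C₂) = κ ^ (S.card + 1) * (C₁ * (2 * C₂)) := by ring
      linarith
    constructor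
    · refine hYp.trans ?_
      exact mul_le_mul_of_nonneg_right hC1C (by positivity)
    · have hL : Lone (dsc p) ≤ C₂ * Real.log l := by
        refine le_trans ?_ hthr
        by_contra hc
        push Not at hc
        exact hn2 ⟨hxp, by omega, hp.prime.squarefree, K, i1, i2, hK, ht, hc⟩
      have hform := U689.CN.formula hp.one_lt hp.prime.squarefree hK ht
      have hfinC : Finite (ClassGroup (𝓞 K)) := inferInstance
      have hcard : (classNumber K : ℝ) = (Nat.card (Gen K S) : ℝ) * ((Gen K S).index : ℝ) := by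
        have e1 := Subgroup.card_mul_index (Gen K S)
        have e2 : classNumber K = Nat.card (ClassGroup (𝓞 K)) := by
          rw [Nat.card_eq_fintype_card]
          rfl
        rw [e2]
        exact_mod_cast e1.symm
      have hdx : √(dsc p : ℝ) ≤ 4 * √x := by
        rw [Real.sqrt_le_left (by positivity), mul_pow, Real.sq_sqrt hx0.le]
        have e1 : dsc p ≤ 4 * p := U689.CN.dsc_le p
        have e2 : (dsc p : ℝ) ≤ 4 * p := by exact_mod_cast e1
        have e3 : (p : ℝ) ≤ 2 * x := by exact_mod_cast hp2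
        linarith
      have hidx0 : (0 : ℝ) ≤ ((Gen K S).index : ℝ) := Nat.cast_nonneg _
      have hRh : Units.regulator K * (classNumber K : ℝ) ≤ 2 * √x * (C₂ * Real.log l) := by
        have e1 : √(dsc p : ℝ) * Lone (dsc p) ≤ (4 * √x) * (C₂ * Real.log l) := by
          calc √(dsc p : ℝ) * Lone (dsc p) ≤ √(dsc p : ℝ) * (C₂ * Real.log l) :=
                mul_le_mul_of_nonneg_left hL (Real.sqrt_nonneg _)
            _ ≤ _ := mul_le_mul_of_nonneg_right hdx (by positivity)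
        linarith
      rw [← hl]
      calc ((Gen K S).index : ℝ) * YY x ^ (nsp K S + 1) ≤ ((Gen K S).index : ℝ) *
            (κ ^ (S.card + 1) * C₁ * (Units.regulator K * (Nat.card (Gen K S) : ℝ))) :=
            mul_le_mul_of_nonneg_left hYp hidx0
        _ = κ ^ (S.card + 1) * C₁ * (Units.regulator K * (classNumber K : ℝ)) := by
            rw [hcard]; ring
        _ ≤ κ ^ (S.card + 1) * C₁ * (2 * √x * (C₂ * Real.log l)) :=
            mul_le_mul_of_nonneg_left hRh (by positivity)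
        _ = (κ ^ (S.card + 1) * (C₁ * (2 * C₂))) * √x * Real.log l := by ring
        _ ≤ C * √x * Real.log l := by
            apply mul_le_mul_of_nonneg_right _ hll0.le
            apply mul_le_mul_of_nonneg_right _ (Real.sqrt_nonneg _)
            rw [hC]
            linarith
  have hcardle : ({p : ℕ | p.Prime ∧ x < p ∧ p ≤ 2 * x ∧ ¬ Good S C x p}.ncard : ℝ) ≤
      ({p : ℕ | p.Prime ∧ x < p ∧ p ≤ 2 * x ∧ ¬ Big S C₁ (A * l) p}.ncard : ℝ) +
      ({d : ℕ | x < d ∧ d ≤ x + x ∧ Squarefree d ∧ ∃ (K : Type) (_ : Field K) (_ : NumberField K),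
      Module.finrank ℚ K = 2 ∧ (∃ t : K, t ^ 2 = (d : K)) ∧
      1 + 4 * Real.exp 25 * (1 + Real.log y) * (2 * l) / Real.log z <
        Lone (dsc d)}.ncard : ℝ) := by
    have e1 := (Set.ncard_le_ncard hsub (hfin1.union hfin2)).trans (Set.ncard_union_le _ _)
    exact_mod_cast e1
  refine hcardle.trans ?_
  rw [← hl]
  have hfinal : (x : ℝ) / l ^ |E| ≤ x / l ^ E := by
    apply div_le_div_of_nonneg_left hx0.le (Real.rpow_pos_of_pos hlpos _)
    exact Real.rpow_le_rpow_of_exponent_le hl1 (le_abs_self E)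
  have hpos : 0 ≤ (x : ℝ) / l ^ |E| := by positivity
  linarith

end Pool.Agent.U787.SP
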